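import Pool.Agent.K7.H27.OS.Forced

/-!
The components of the state sum with a prescribed number of nonzero diagonal entries.
-/

set_option autoImplicit false

namespace Pool.Agent.K7.H27.OS

open Polynomial

/-- the part of the state sum with exactly `e` nonzero diagonal entries -/
noncomputable def zz {R : Type*} [CommRing R] (e : ℕ) (l : List R) : R :=
  (ZZ (X : R[X]) (l.map C)).coeff e

variable {F : Type*} [Field F]

theorem zz_perm (e : ℕ) {l l' : List F} (h : l.Perm l') : zz e l = zz e l' := by
  rw [zz, zz, ZZ_perm _ (h.map C)]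

theorem zz_nil_zero : zz 0 ([] : List F) = 1 := by
  simp [zz, ZZ, zs_zero, Z_nil]

theorem zz_nil_succ (e : ℕ) : zz (e + 1) ([] : List F) = 0 := by
  simp [zz, ZZ, zs_zero, Z_nil, coeff_one]

theorem map_C_prod (l : List F) (f : F → F) :
    (l.map (fun t => C (f t))).prod = C ((l.map f).prod) := by
  induction l with
  | nil => simp
  | cons x l ih => simp [ih]

theorem zz_rec (e : ℕ) (x y : F) (hxy : x + y = 1) (l : List F) :
    zz e (x :: (l ++ [y])) = (1 + x) * (1 + y) * (l.map (fun t => 1 - x * t)).prod *
      (l.map (fun t => 1 - t * y)).prod * zz e l := by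
  have h := ZZ_rec (X : F[X]) (C x) (C y) (by rw [← C_add, hxy, C_1]) (l.map C)
  have h1 : ((l.map C).map (fun t : F[X] => 1 - C x * t)).prod =
      C ((l.map (fun t => 1 - x * t)).prod) := by
    rw [← map_C_prod, List.map_map]
    congr 2
    funext t
    simp
  have h2 : ((l.map C).map (fun t : F[X] => 1 - t * C y)).prod =
      C ((l.map (fun t => 1 - t * y)).prod) := by
    rw [← map_C_prod, List.map_map]
    congr 2
    funext t
    simp
  rw [h1, h2] at h
  rw [zz, zz]
  have h3 : (x :: (l ++ [y])).map (C : F → F[X]) = C x :: (l.map C ++ [C y]) := by simp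
  rw [h3, h]
  have h4 : (1 + C x) * (1 + C y) * C ((l.map (fun t => 1 - x * t)).prod) *
      C ((l.map (fun t => 1 - t * y)).prod) * ZZ (X : F[X]) (l.map C) =
      C ((1 + x) * (1 + y) * ((l.map (fun t => 1 - x * t)).prod) *
      ((l.map (fun t => 1 - t * y)).prod)) * ZZ (X : F[X]) (l.map C) := by
    simp
  rw [h4, coeff_C_mul]

theorem two_sub_prod (l : List F) : ((l.map C).map (fun t : F[X] => 2 - t)).prod =
      C ((l.map (fun t => 2 - t)).prod) := by
  rw [← map_C_prod, List.map_map]
  congr 2
  funext t
  simp only [Function.comp_apply, C_sub]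
  rw [map_ofNat C 2]

theorem zz_neg_one_zero (l : List F) : zz 0 (-1 :: l) = 0 := by
  rw [zz]
  have h3 : (-1 :: l).map (C : F → F[X]) = -1 :: l.map C := by simp
  rw [h3, ZZ_neg_one, mul_assoc, coeff_X_mul_zero]

theorem zz_neg_one_succ (e : ℕ) (l : List F) :
    zz (e + 1) (-1 :: l) = (l.map (fun t => 2 - t)).prod * zz e l := by
  rw [zz, zz]
  have h3 : (-1 :: l).map (C : F → F[X]) = -1 :: l.map C := by simp
  rw [h3, ZZ_neg_one, mul_assoc, coeff_X_mul, two_sub_prod, coeff_C_mul]

theorem row_poly (l : List F) : ∀ (e : ℕ) (k : List Bool → F[X]),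
    ∃ P : F[X], (l = [] → P = 0) ∧ P.natDegree ≤ l.length - 1 ∧ ∀ x : F,
      (row (C x) (l.map C) false (zs l.length) k).coeff e = P.eval x := by
  induction l with
  | nil =>
    intro e k
    refine ⟨0, fun _ => rfl, by simp, fun x => ?_⟩
    simp [zs_zero, row_nil]
  | cons y l ih =>
    intro e k
    obtain ⟨P, hP0, hPd, hP⟩ := ih e (fun u => k (false :: u))
    refine ⟨(1 - X * C y) * P + (l.map (fun t => 1 - X - C t)).prod *
      C ((k (true :: zs l.length)).coeff e), by simp, ?_, fun x => ?_⟩
    · have hd2 : ((l.map (fun t => 1 - X - C t)).prod : F[X]).natDegree ≤ l.length := by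
        clear ih hP0 hPd hP
        induction l with
        | nil => simp
        | cons a l ih =>
          simp only [List.map_cons, List.prod_cons, List.length_cons]
          refine natDegree_mul_le.trans ?_
          have : (1 - X - C a : F[X]).natDegree ≤ 1 := by compute_degree
          omega
      simp only [List.length_cons, Nat.add_sub_cancel]
      refine natDegree_add_le_of_degree_le ?_ ?_
      · by_cases hl : l = []
        · rw [hP0 hl]; simp
        · have hl' : 1 ≤ l.length := List.length_pos_iff.2 hl
          refine natDegree_mul_le.trans ?_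
          have : (1 - X * C y : F[X]).natDegree ≤ 1 := by compute_degree
          omega
      · refine natDegree_mul_le.trans ?_
        rw [natDegree_C]
        simpa using hd2
    · have h1 := row_false_zs_cons (C x) (C y) (l.map C) k
      simp only [List.length_map] at h1
      simp only [List.map_cons, List.length_cons]
      rw [h1]
      have h2 : ((l.map C).map (fun t : F[X] => 1 - C x - t)).prod =
          C ((l.map (fun t => 1 - x - t)).prod) := by
        rw [← map_C_prod, List.map_map]
        congr 2
        funext t
        simp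
      have h3 : (1 - C x * C y : F[X]) = C (1 - x * y) := by simp
      rw [h2, h3, coeff_add, coeff_C_mul, coeff_C_mul, hP x]
      have h4 : ((l.map (fun t => 1 - X - C t)).prod : F[X]).eval x =
          (l.map (fun t => 1 - x - t)).prod := by
        rw [← coe_evalRingHom, map_list_prod, List.map_map]
        congr 2
        funext t
        simp
      simp only [eval_add, eval_mul, eval_sub, eval_one, eval_X, eval_C, h4]

/-- the zeroth component is `1 + x` times a polynomial in `x` -/
theorem zz_zero_poly (l : List F) : ∃ P : F[X], P.natDegree ≤ l.length - 1 ∧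
    ∀ x : F, zz 0 (x :: l) = (1 + x) * P.eval x := by
  obtain ⟨P, -, hPd, hP⟩ := row_poly l 0 (Z (X : F[X]) (l.map C))
  refine ⟨P, hPd, fun x => ?_⟩
  rw [zz, List.map_cons, ZZ_cons, List.length_map]
  have h3 : (1 + C x : F[X]) = C (1 + x) := by simp
  rw [h3, coeff_add, coeff_C_mul, hP x, mul_assoc, coeff_X_mul_zero, add_zero]

theorem zz_poly (e : ℕ) (l : List F) : ∃ P : F[X], P.natDegree ≤ l.length ∧
    ∀ x : F, zz e (x :: l) = P.eval x := by
  obtain ⟨P, hP0, hPd, hP⟩ := row_poly l e (Z (X : F[X]) (l.map C))
  refine ⟨(1 + X) * P + (l.map (fun t => 1 - X - C t)).prod *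
    C ((X * ZZ (X : F[X]) (l.map C)).coeff e), ?_, fun x => ?_⟩
  · have hd2 : ((l.map (fun t => 1 - X - C t)).prod : F[X]).natDegree ≤ l.length := by
      clear hP0 hPd hP
      induction l with
      | nil => simp
      | cons a l ih =>
        simp only [List.map_cons, List.prod_cons, List.length_cons]
        refine natDegree_mul_le.trans ?_
        have : (1 - X - C a : F[X]).natDegree ≤ 1 := by compute_degree
        omega
    refine natDegree_add_le_of_degree_le ?_ ?_
    · by_cases hl : l = []
      · rw [hP0 hl]; simp
      · have hl' : 1 ≤ l.length := List.length_pos_iff.2 hl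
        refine natDegree_mul_le.trans ?_
        have : (1 + X : F[X]).natDegree ≤ 1 := by compute_degree
        omega
    · refine natDegree_mul_le.trans ?_
      rw [natDegree_C]
      simpa using hd2
  · rw [zz, List.map_cons, ZZ_cons, List.length_map]
    have h3 : (1 + C x : F[X]) = C (1 + x) := by simp
    have h2 : ((l.map C).map (fun t : F[X] => 1 - C x - t)).prod =
        C ((l.map (fun t => 1 - x - t)).prod) := by
      rw [← map_C_prod, List.map_map]
      congr 2
      funext t
      simp
    have h5 : X * C ((l.map (fun t => 1 - x - t)).prod) * ZZ (X : F[X]) (l.map C) =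
        C ((l.map (fun t => 1 - x - t)).prod) * (X * ZZ (X : F[X]) (l.map C)) := by ring
    rw [h3, h2, coeff_add, coeff_C_mul, hP x, h5, coeff_C_mul]
    have h4 : ((l.map (fun t => 1 - X - C t)).prod : F[X]).eval x =
        (l.map (fun t => 1 - x - t)).prod := by
      rw [← coe_evalRingHom, map_list_prod, List.map_map]
      congr 2
      funext t
      simp
    simp [h4]

end Pool.Agent.K7.H27.OS
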