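import Pool.Agent.K7.H27.OS.Coef

/-!
The state sum at the homogeneous point counts symmetric alternating sign matrices.
-/

set_option autoImplicit false

namespace Pool.Agent.K7.H27.OS

open Polynomial

/-- integer value of a boolean -/
def bz (b : Bool) : ℤ := if b then 1 else 0

/-- zero or one -/
def isB (x : ℤ) : Prop := x = 0 ∨ x = 1

theorem isB_bz (b : Bool) : isB (bz b) := by cases b <;> simp [isB, bz]

theorem bz_inj {a b : Bool} (h : bz a = bz b) : a = b := by
  cases a <;> cases b <;> simp [bz] at h ⊢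

/-- boolean of an integer -/
def tb (x : ℤ) : Bool := decide (x = 1)

theorem bz_tb {x : ℤ} (h : isB x) : bz (tb x) = x := by
  rcases h with rfl | rfl <;> simp [bz, tb]

theorem tb_bz (b : Bool) : tb (bz b) = b := by cases b <;> simp [bz, tb]

theorem sum_Iic' {m : ℕ} (k : Fin m) (f : Fin m → ℤ) :
    ∑ j ∈ Finset.Iic k, f j = ∑ j, (if j ≤ k then f j else 0) := by
  rw [← Finset.sum_filter]
  congr 1
  ext j
  simp

theorem sum_Iic_zero {m : ℕ} (f : Fin (m + 1) → ℤ) : ∑ j ∈ Finset.Iic (0 : Fin (m + 1)), f j = f 0 := by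
  rw [sum_Iic', Fin.sum_univ_succ]
  simp

theorem sum_Iic_succ {m : ℕ} (k : Fin m) (f : Fin (m + 1) → ℤ) :
    ∑ j ∈ Finset.Iic k.succ, f j = f 0 + ∑ j ∈ Finset.Iic k, f j.succ := by
  rw [sum_Iic', sum_Iic', Fin.sum_univ_succ]
  simp

/-- admissible pairs of boundaries of a row -/
def V {m : ℕ} (h : Bool) (v v' : Fin m → Bool) : Prop :=
  (∀ k, isB (bz h + ∑ j ∈ Finset.Iic k, (bz (v' j) - bz (v j)))) ∧
    bz h + ∑ j, (bz (v' j) - bz (v j)) = 1

theorem V_cons {m : ℕ} (h : Bool) (v : Fin (m + 1) → Bool) (a : Bool) (u : Fin m → Bool) :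
    V h v (Fin.cons a u) ↔
      ∃ h' : Bool, bz h' - bz h = bz a - bz (v 0) ∧ V h' (fun j => v j.succ) u := by
  unfold V
  constructor
  · rintro ⟨h1, h2⟩
    have h3 := h1 0
    rw [sum_Iic_zero, Fin.cons_zero] at h3
    refine ⟨tb (bz h + (bz a - bz (v 0))), ?_, ?_, ?_⟩
    · rw [bz_tb h3]; ring
    · intro k
      have h4 := h1 k.succ
      rw [sum_Iic_succ, Fin.cons_zero] at h4
      simp only [Fin.cons_succ] at h4
      rw [bz_tb h3]
      rw [← add_assoc] at h4
      exact h4
    · rw [Fin.sum_univ_succ, Fin.cons_zero] at h2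
      simp only [Fin.cons_succ] at h2
      rw [bz_tb h3]
      rw [← add_assoc] at h2
      exact h2
  · rintro ⟨h', h1, h2, h3⟩
    refine ⟨fun k => ?_, ?_⟩
    · refine Fin.cases ?_ (fun k => ?_) k
      · rw [sum_Iic_zero, Fin.cons_zero]
        have : bz h + (bz a - bz (v 0)) = bz h' := by linear_combination -h1
        rw [this]
        exact isB_bz h'
      · rw [sum_Iic_succ, Fin.cons_zero]
        simp only [Fin.cons_succ]
        have := h2 k
        rw [← add_assoc]
        have h4 : bz h + (bz a - bz (v 0)) = bz h' := by linear_combination -h1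
        rw [h4]
        exact this
    · rw [Fin.sum_univ_succ, Fin.cons_zero]
      simp only [Fin.cons_succ]
      rw [← add_assoc]
      have h4 : bz h + (bz a - bz (v 0)) = bz h' := by linear_combination -h1
      rw [h4]
      exact h3

section

variable {R : Type*} [CommRing R]

theorem w_zero (h v h' v' : Bool) :
    w (0 : R) 0 h v h' v' = if bz h' - bz h = bz v' - bz v then 1 else 0 := by
  cases h <;> cases v <;> cases h' <;> cases v' <;> simp [w, ff, bz]

open Classical in
theorem row_zero_pt (m : ℕ) : ∀ (h : Bool) (v : Fin m → Bool) (k : List Bool → R),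
    row (0 : R) (List.replicate m 0) h (List.ofFn v) k =
      ∑ u : Fin m → Bool, if V h v u then k (List.ofFn u) else 0 := by
  induction m with
  | zero =>
    intro h v k
    have h1 : List.ofFn v = [] := List.ofFn_zero
    rw [h1, List.replicate_zero, row_nil, Fintype.sum_unique]
    have h2 : ∀ u : Fin 0 → Bool, List.ofFn u = [] := fun u => List.ofFn_zero
    rw [h2]
    cases h <;> simp [V, bz]
  | succ m ih =>
    intro h v k
    rw [List.replicate_succ, List.ofFn_succ, row_cons]
    have e1 : ∀ h' a : Bool, w (0 : R) 0 h (v 0) h' a *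
        row (0 : R) (List.replicate m 0) h' (List.ofFn fun i => v i.succ) (fun u => k (a :: u)) =
        ∑ u : Fin m → Bool, if (bz h' - bz h = bz a - bz (v 0) ∧ V h' (fun j => v j.succ) u) then
          k (a :: List.ofFn u) else 0 := by
      intro h' a
      rw [ih, w_zero, Finset.mul_sum]
      refine Finset.sum_congr rfl fun u _ => ?_
      by_cases c1 : bz h' - bz h = bz a - bz (v 0)
      · simp [c1]
      · simp [c1]
    simp only [e1]
    rw [← (Fin.consEquiv (fun _ : Fin (m + 1) => Bool)).sum_comp, Fintype.sum_prod_type,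
      Finset.sum_comm]
    refine Finset.sum_congr rfl fun a _ => ?_
    rw [Finset.sum_comm]
    refine Finset.sum_congr rfl fun u _ => ?_
    have e2 : (Fin.consEquiv (fun _ : Fin (m + 1) => Bool)) (a, u) = Fin.cons a u := rfl
    rw [e2, List.ofFn_succ]
    simp only [Fin.cons_zero, Fin.cons_succ]
    by_cases hV : V h v (Fin.cons a u)
    · rw [if_pos hV]
      obtain ⟨h', c1, c2⟩ := (V_cons h v a u).1 hV
      rw [Finset.sum_eq_single h']
      · rw [if_pos ⟨c1, c2⟩]
      · intro b _ hb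
        rw [if_neg]
        rintro ⟨c3, -⟩
        exact hb (bz_inj (by linear_combination c3 - c1))
      · intro hh; exact absurd (Finset.mem_univ _) hh
    · rw [if_neg hV]
      refine Finset.sum_eq_zero fun h' _ => ?_
      rw [if_neg]
      rintro ⟨c1, c2⟩
      exact hV ((V_cons h v a u).2 ⟨h', c1, c2⟩)

end

/-- symmetric alternating sign matrices with boundary `v` -/
structure IsT {m : ℕ} (v : Fin m → Bool) (B : Fin m → Fin m → ℤ) : Prop where
  sym : ∀ i j, B i j = B j i
  ent : ∀ i j, B i j = -1 ∨ B i j = 0 ∨ B i j = 1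
  par : ∀ i k, isB (bz (v i) + ∑ j ∈ Finset.Iic k, B i j)
  tot : ∀ i, bz (v i) + ∑ j, B i j = 1

theorem finite_T {m : ℕ} (v : Fin m → Bool) :
    Finite {B : Fin m → Fin m → ℤ // IsT v B} := by
  have h1 : Set.Finite {x : ℤ | x = -1 ∨ x = 0 ∨ x = 1} := by
    have : {x : ℤ | x = -1 ∨ x = 0 ∨ x = 1} = {-1, 0, 1} := by
      ext x; simp
    rw [this]
    exact Set.toFinite _
  have h2 : Set.Finite {B : Fin m → Fin m → ℤ | ∀ i j, B i j = -1 ∨ B i j = 0 ∨ B i j = 1} := by
    have : {B : Fin m → Fin m → ℤ | ∀ i j, B i j = -1 ∨ B i j = 0 ∨ B i j = 1} =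
        Set.pi Set.univ (fun _ => Set.pi Set.univ (fun _ => {x : ℤ | x = -1 ∨ x = 0 ∨ x = 1})) := by
      ext B; simp
    rw [this]
    exact Set.Finite.pi (t := fun _ => Set.pi Set.univ (fun _ => {x : ℤ | x = -1 ∨ x = 0 ∨ x = 1}))
      fun _ => Set.Finite.pi (t := fun _ => {x : ℤ | x = -1 ∨ x = 0 ∨ x = 1}) fun _ => h1
  exact (h2.subset fun B hB => hB.ent).to_subtype

noncomputable instance {m : ℕ} (v : Fin m → Bool) :
    Fintype {B : Fin m → Fin m → ℤ // IsT v B} :=
  @Fintype.ofFinite _ (finite_T v)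

/-- number of nonzero diagonal entries -/
noncomputable def dgn {m : ℕ} (B : Fin m → Fin m → ℤ) : ℕ :=
  ∑ i, if B i i = 0 then 0 else 1

/-- assembling a matrix from its first row and the rest -/
def asm {m : ℕ} (v : Fin (m + 1) → Bool) (r : Bool) (u : Fin m → Bool)
    (B : Fin m → Fin m → ℤ) : Fin (m + 1) → Fin (m + 1) → ℤ :=
  fun i j => Fin.cases (motive := fun _ => ℤ)
    (Fin.cases (motive := fun _ => ℤ) (bz r - bz (v 0)) (fun j' => bz (u j') - bz (v j'.succ)) j)
    (fun i' => Fin.cases (motive := fun _ => ℤ) (bz (u i') - bz (v i'.succ)) (fun j' => B i' j') j)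
    i

theorem asm_zz {m : ℕ} (v : Fin (m + 1) → Bool) (r : Bool) (u : Fin m → Bool)
    (B : Fin m → Fin m → ℤ) : asm v r u B 0 0 = bz r - bz (v 0) := rfl

theorem asm_zs {m : ℕ} (v : Fin (m + 1) → Bool) (r : Bool) (u : Fin m → Bool)
    (B : Fin m → Fin m → ℤ) (j : Fin m) :
    asm v r u B 0 j.succ = bz (u j) - bz (v j.succ) := rfl

theorem asm_sz {m : ℕ} (v : Fin (m + 1) → Bool) (r : Bool) (u : Fin m → Bool)
    (B : Fin m → Fin m → ℤ) (i : Fin m) :
    asm v r u B i.succ 0 = bz (u i) - bz (v i.succ) := rfl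

theorem asm_ss {m : ℕ} (v : Fin (m + 1) → Bool) (r : Bool) (u : Fin m → Bool)
    (B : Fin m → Fin m → ℤ) (i j : Fin m) :
    asm v r u B i.succ j.succ = B i j := rfl

theorem bz_sub (a b : Bool) : bz a - bz b = -1 ∨ bz a - bz b = 0 ∨ bz a - bz b = 1 := by
  cases a <;> cases b <;> simp [bz]

theorem asm_isT {m : ℕ} (v : Fin (m + 1) → Bool) (r : Bool) (u : Fin m → Bool)
    (B : Fin m → Fin m → ℤ) (hV : V r (fun j => v j.succ) u) (hB : IsT u B) :
    IsT v (asm v r u B) := by
  refine ⟨?_, ?_, ?_, ?_⟩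
  · intro i j
    refine Fin.cases ?_ (fun i => ?_) i
    · refine Fin.cases rfl (fun j => ?_) j
      rw [asm_zs, asm_sz]
    · refine Fin.cases ?_ (fun j => ?_) j
      · rw [asm_zs, asm_sz]
      · rw [asm_ss, asm_ss, hB.sym]
  · intro i j
    refine Fin.cases ?_ (fun i => ?_) i
    · refine Fin.cases (bz_sub _ _) (fun j => bz_sub _ _) j
    · refine Fin.cases (bz_sub _ _) (fun j => ?_) j
      rw [asm_ss]
      exact hB.ent i j
  · intro i k
    refine Fin.cases ?_ (fun i => ?_) i
    · refine Fin.cases ?_ (fun k => ?_) k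
      · rw [sum_Iic_zero, asm_zz, add_sub_cancel]
        exact isB_bz r
      · rw [sum_Iic_succ, asm_zz, ← add_assoc, add_sub_cancel]
        simp only [asm_zs]
        exact hV.1 k
    · refine Fin.cases ?_ (fun k => ?_) k
      · rw [sum_Iic_zero, asm_sz, add_sub_cancel]
        exact isB_bz _
      · rw [sum_Iic_succ, asm_sz, ← add_assoc, add_sub_cancel]
        simp only [asm_ss]
        exact hB.par i k
  · intro i
    refine Fin.cases ?_ (fun i => ?_) i
    · rw [Fin.sum_univ_succ, asm_zz, ← add_assoc, add_sub_cancel]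
      simp only [asm_zs]
      exact hV.2
    · rw [Fin.sum_univ_succ, asm_sz, ← add_assoc, add_sub_cancel]
      simp only [asm_ss]
      exact hB.tot i

theorem isT_zero {m : ℕ} {v : Fin (m + 1) → Bool} {B : Fin (m + 1) → Fin (m + 1) → ℤ}
    (hB : IsT v B) (i : Fin (m + 1)) : isB (bz (v i) + B i 0) := by
  have := hB.par i 0
  rwa [sum_Iic_zero] at this

theorem asm_eq {m : ℕ} {v : Fin (m + 1) → Bool} {B : Fin (m + 1) → Fin (m + 1) → ℤ}
    (hB : IsT v B) : asm v (tb (bz (v 0) + B 0 0)) (fun j => tb (bz (v j.succ) + B j.succ 0))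
      (fun i j => B i.succ j.succ) = B := by
  funext i j
  refine Fin.cases ?_ (fun i => ?_) i
  · refine Fin.cases ?_ (fun j => ?_) j
    · rw [asm_zz, bz_tb (isT_zero hB 0)]; ring
    · rw [asm_zs, bz_tb (isT_zero hB j.succ), hB.sym 0 j.succ]; ring
  · refine Fin.cases ?_ (fun j => ?_) j
    · rw [asm_sz, bz_tb (isT_zero hB i.succ)]; ring
    · rw [asm_ss]

theorem isT_V {m : ℕ} {v : Fin (m + 1) → Bool} {B : Fin (m + 1) → Fin (m + 1) → ℤ}
    (hB : IsT v B) : V (tb (bz (v 0) + B 0 0)) (fun j => v j.succ)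
      (fun j => tb (bz (v j.succ) + B j.succ 0)) := by
  have h1 : ∀ j : Fin m, bz (tb (bz (v j.succ) + B j.succ 0)) - bz (v j.succ) = B 0 j.succ := by
    intro j
    rw [bz_tb (isT_zero hB j.succ), hB.sym 0 j.succ]; ring
  refine ⟨fun k => ?_, ?_⟩
  · have := hB.par 0 k.succ
    rw [sum_Iic_succ, ← add_assoc] at this
    rw [bz_tb (isT_zero hB 0)]
    simp only [h1]
    exact this
  · have := hB.tot 0
    rw [Fin.sum_univ_succ, ← add_assoc] at this
    rw [bz_tb (isT_zero hB 0)]
    simp only [h1]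
    exact this

theorem isT_rest {m : ℕ} {v : Fin (m + 1) → Bool} {B : Fin (m + 1) → Fin (m + 1) → ℤ}
    (hB : IsT v B) : IsT (fun j => tb (bz (v j.succ) + B j.succ 0))
      (fun i j => B i.succ j.succ) := by
  refine ⟨fun i j => hB.sym _ _, fun i j => hB.ent _ _, fun i k => ?_, fun i => ?_⟩
  · have := hB.par i.succ k.succ
    rw [sum_Iic_succ, ← add_assoc] at this
    rw [bz_tb (isT_zero hB i.succ)]
    exact this
  · have := hB.tot i.succ
    rw [Fin.sum_univ_succ, ← add_assoc] at this
    rw [bz_tb (isT_zero hB i.succ)]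
    exact this

/-- assembling as a map -/
def asmMap {m : ℕ} (v : Fin (m + 1) → Bool) :
    (Σ p : {p : Bool × (Fin m → Bool) // V p.1 (fun j => v j.succ) p.2},
      {B : Fin m → Fin m → ℤ // IsT p.1.2 B}) →
    {B : Fin (m + 1) → Fin (m + 1) → ℤ // IsT v B} :=
  fun x => ⟨asm v x.1.1.1 x.1.1.2 x.2.1, asm_isT v _ _ _ x.1.2 x.2.2⟩

theorem asmMap_bij {m : ℕ} (v : Fin (m + 1) → Bool) : Function.Bijective (asmMap v) := by
  constructor
  · rintro ⟨⟨⟨r, u⟩, hV⟩, ⟨B, hB⟩⟩ ⟨⟨⟨r', u'⟩, hV'⟩, ⟨B', hB'⟩⟩ h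
    have h0 : asm v r u B = asm v r' u' B' := congrArg Subtype.val h
    have h1 : r = r' := by
      have := congrFun (congrFun h0 0) 0
      rw [asm_zz, asm_zz] at this
      exact bz_inj (by linear_combination this)
    have h2 : u = u' := by
      funext j
      have := congrFun (congrFun h0 j.succ) 0
      rw [asm_sz, asm_sz] at this
      exact bz_inj (by linear_combination this)
    have h3 : B = B' := by
      funext i j
      have := congrFun (congrFun h0 i.succ) j.succ
      rwa [asm_ss, asm_ss] at this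
    subst h1
    subst h2
    subst h3
    rfl
  · rintro ⟨B, hB⟩
    exact ⟨⟨⟨(tb (bz (v 0) + B 0 0), fun j => tb (bz (v j.succ) + B j.succ 0)),
      isT_V hB⟩, ⟨fun i j => B i.succ j.succ, isT_rest hB⟩⟩, Subtype.ext (asm_eq hB)⟩

theorem dgn_asm {m : ℕ} (v : Fin (m + 1) → Bool) (r : Bool) (u : Fin m → Bool)
    (B : Fin m → Fin m → ℤ) :
    dgn (asm v r u B) = (if r = v 0 then 0 else 1) + dgn B := by
  have h0 : (if asm v r u B 0 0 = 0 then 0 else 1 : ℕ) = if r = v 0 then 0 else 1 := by
    by_cases h : r = v 0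
    · rw [if_pos h, if_pos]
      rw [asm_zz, h]; ring
    · rw [if_neg h, if_neg]
      intro h'
      rw [asm_zz] at h'
      exact h (bz_inj (by linear_combination h'))
  rw [dgn, Fin.sum_univ_succ, h0, dgn]
  rfl

theorem kd_zero {R : Type*} [CommRing R] (e : R) (c r : Bool) :
    kd e 0 c r = e ^ (if r = c then 0 else 1) := by
  cases c <;> cases r <;> simp [kd, ff]

/-- the state sum with zero points is the generating function of the matrices -/
theorem Z_count {R : Type*} [CommRing R] (e : R) (m : ℕ) : ∀ v : Fin m → Bool,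
    Z e (List.replicate m 0) (List.ofFn v) =
      ∑ B : {B : Fin m → Fin m → ℤ // IsT v B}, e ^ (dgn B.1) := by
  classical
  induction m with
  | zero =>
    intro v
    have h1 : List.ofFn v = [] := List.ofFn_zero
    rw [h1, List.replicate_zero, Z_nil]
    have h2 : ∀ B : {B : Fin 0 → Fin 0 → ℤ // IsT v B}, e ^ (dgn B.1) = 1 := by
      intro B; simp [dgn]
    rw [Finset.sum_congr rfl (fun B _ => h2 B), Finset.sum_const, Finset.card_univ]
    have h3 : Fintype.card {B : Fin 0 → Fin 0 → ℤ // IsT v B} = 1 := by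
      rw [Fintype.card_eq_one_iff]
      refine ⟨⟨fun i => i.elim0, ⟨fun i => i.elim0, fun i => i.elim0, fun i => i.elim0,
        fun i => i.elim0⟩⟩, fun B => Subtype.ext (funext fun i => i.elim0)⟩
    rw [h3]
    simp
  | succ m ih =>
    intro v
    rw [List.replicate_succ, List.ofFn_succ, Z_cons]
    simp only [row_zero_pt, kd_zero, ih]
    rw [← (Equiv.ofBijective _ (asmMap_bij v)).sum_comp, Fintype.sum_sigma]
    have e1 : ∀ (p : {p : Bool × (Fin m → Bool) // V p.1 (fun j => v j.succ) p.2})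
        (B : {B : Fin m → Fin m → ℤ // IsT p.1.2 B}),
        e ^ dgn ((Equiv.ofBijective _ (asmMap_bij v)) ⟨p, B⟩).1 =
        e ^ (if p.1.1 = v 0 then 0 else 1) * e ^ dgn B.1 := by
      intro p B
      rw [← pow_add, ← dgn_asm]
      rfl
    simp only [e1]
    simp only [← Finset.mul_sum]
    rw [← Finset.sum_subtype (Finset.univ.filter
      (fun p : Bool × (Fin m → Bool) => V p.1 (fun j => v j.succ) p.2)) (by simp)
      (fun p => e ^ (if p.1 = v 0 then 0 else 1) *
        ∑ B : {B : Fin m → Fin m → ℤ // IsT p.2 B}, e ^ dgn B.1), Finset.sum_filter,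
      Fintype.sum_prod_type]
    refine Finset.sum_congr rfl fun r _ => ?_
    rw [Finset.mul_sum]
    refine Finset.sum_congr rfl fun u _ => ?_
    split_ifs <;> simp

/-- the boundary which is zero -/
def vz (N : ℕ) : Fin N → Bool := fun _ => false

theorem zz_count (e N : ℕ) : zz e (List.replicate N (0 : ℂ)) =
    (Nat.card {B : {B : Fin N → Fin N → ℤ // IsT (vz N) B} // dgn B.1 = e} : ℂ) := by
  classical
  have h1 : (List.replicate N (0 : ℂ)).map C = List.replicate N (0 : ℂ[X]) := by simp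
  have h2 : zs (List.replicate N (0 : ℂ[X])).length = List.ofFn (vz N) := by
    rw [List.length_replicate, zs]
    exact (List.ofFn_const N false).symm
  rw [zz, h1, ZZ, h2, Z_count, finsetSum_coeff]
  simp only [coeff_X_pow]
  rw [Finset.sum_ite, Finset.sum_const_zero, add_zero, Finset.sum_const, Nat.card_eq_fintype_card,
    Fintype.card_subtype]
  simp only [nsmul_eq_mul, mul_one, eq_comm]

end Pool.Agent.K7.H27.OS
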