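import Pool.Agent.K7.H27.OS.Values

/-!
Closed form of the odd state sum at the homogeneous point.
-/

set_option autoImplicit false

namespace Pool.Agent.K7.H27.OS

open Polynomial

/-- even numbers -/
noncomputable def En (n : ℕ) : ℂ := zz 0 (List.replicate (2 * n) (0 : ℂ))

/-- odd numbers -/
noncomputable def On (n : ℕ) : ℂ := zz 1 (List.replicate (2 * n + 1) (0 : ℂ))

theorem AB_fact (N : ℕ) : Apr N * Bpr N * 3 ^ N * (N.factorial : ℂ) = ((3 * N + 1).factorial : ℂ) := by
  induction N with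
  | zero => simp [Apr, Bpr]
  | succ N ih =>
    rw [Apr_succ, Bpr_succ, Nat.factorial_succ, show 3 * (N + 1) + 1 = (3 * N + 1) + 1 + 1 + 1 by ring,
      Nat.factorial_succ, Nat.factorial_succ, Nat.factorial_succ, pow_succ]
    push_cast
    linear_combination (3 * (N : ℂ) + 4) * (3 * N + 2) * 3 * (N + 1) * ih

theorem relations (n : ℕ) :
    En (n + 1) * (2 * ((4 * n + 2).factorial : ℂ) * ((4 * n + 3).factorial : ℂ)) =
      ((2 * n + 1).factorial : ℂ) * ((6 * n + 4).factorial : ℂ) * En n ∧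
    2 ^ (2 * n + 2) * On n * 3 ^ (2 * n + 1) =
      ((4 * n + 3).factorial : ℂ) * (-3) ^ n * En (n + 1) * QN (2 * n + 1) := by
  obtain ⟨P, hPd, hP⟩ := zz_zero_poly (List.replicate (2 * n + 1) (0 : ℂ))
  rw [List.length_replicate, Nat.add_sub_cancel] at hPd
  obtain ⟨v1, v2⟩ := values n P hPd hP
  have p0 : P.eval 0 = En (n + 1) := by
    have h := hP 0
    have h1 : (0 : ℂ) :: List.replicate (2 * n + 1) 0 = List.replicate (2 * (n + 1)) 0 := by
      rw [← List.replicate_succ]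
      rfl
    rw [h1] at h
    rw [En, h]
    ring
  have p1 : P.eval 1 = En n := by
    have h := hP 1
    have h1 : List.replicate (2 * n + 1) (0 : ℂ) = List.replicate (2 * n) 0 ++ [0] :=
      List.replicate_succ'
    rw [h1, zz_rec 0 1 0 (by ring)] at h
    have h2 : ((List.replicate (2 * n) (0 : ℂ)).map (fun t => 1 - 1 * t)).prod = 1 := by simp
    have h3 : ((List.replicate (2 * n) (0 : ℂ)).map (fun t => 1 - t * 0)).prod = 1 := by simp
    rw [h2, h3] at h
    rw [En]
    linear_combination -h / 2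
  have p2 : On n = 4 ^ n * P.eval 2 := by
    have h := hP 2
    have h1 := rel_one n
    rw [h] at h1
    rw [On]
    have : (2 : ℂ) ^ (2 * n + 1) = 2 * 4 ^ n := by
      rw [pow_succ, pow_mul]; norm_num; ring
    rw [this] at h1
    linear_combination h1 / 6
  have hV := VN_closed (2 * n + 1)
  have hAB := AB_fact (2 * n + 1)
  have h3 : (3 : ℂ) ^ (2 * n + 1) ≠ 0 := pow_ne_zero _ (by norm_num)
  have hm3 : ((-3 : ℂ)) ^ n ≠ 0 := pow_ne_zero _ (by norm_num)
  have h27 : ((-27 : ℂ)) ^ n = (-3) ^ n * 9 ^ n := by rw [← mul_pow]; norm_num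
  have h9 : (3 : ℂ) ^ (2 * n + 1) = 3 * 9 ^ n := by rw [pow_succ, pow_mul]; norm_num; ring
  rw [p0] at v1 v2
  rw [p1, h27] at v1
  constructor
  · have e1 : 2 * (2 * n + 1) = 4 * n + 2 := by ring
    have e2 : 3 * (2 * n + 1) + 1 = 6 * n + 4 := by ring
    rw [e1] at hV
    rw [e2] at hAB
    apply mul_left_cancel₀ (mul_ne_zero h3 hm3)
    rw [← hAB]
    have h8 : (3 : ℂ) * ((-3) ^ n * 9 ^ n) = (-3) ^ n * 3 ^ (2 * n + 1) := by rw [h9]; ring
    rw [h8] at v1
    generalize (3 : ℂ) ^ (2 * n + 1) = T at *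
    generalize ((-3 : ℂ)) ^ n = S at *
    generalize VN (2 * n + 1) = V at *
    generalize Apr (2 * n + 1) = A at *
    generalize Bpr (2 * n + 1) = B at *
    linear_combination -(((2 * n + 1).factorial : ℂ) ^ 2 * A * B) * v1 +
      (-(((4 * n + 3).factorial : ℂ) * (2 * (S * En (n + 1))))) * hV
  · rw [p2]
    have h4 : (2 : ℂ) ^ (4 * n + 3) = 2 * 4 ^ n * 2 ^ (2 * n + 2) := by
      rw [show 4 * n + 3 = 1 + 2 * n + (2 * n + 2) by ring, pow_add, pow_add, pow_mul]
      norm_num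
    rw [h4] at v2
    linear_combination v2 / 2

theorem En_zero : En 0 = 1 := by
  rw [En]
  exact zz_nil_zero

theorem En_one : En 1 = 1 := by
  have h := (relations 0).1
  rw [En_zero] at h
  norm_num [Nat.factorial] at h
  exact h

theorem On_zero : On 0 = 1 := by
  have h := (relations 0).2
  have h1 := En_one
  simp only [mul_zero, zero_add] at h
  rw [h1, QN_one] at h
  norm_num [Nat.factorial] at h
  linear_combination h / 12

theorem On_succ (n : ℕ) :
    6 * On (n + 1) * ((2 * n + 2) * (2 * n + 3) * (6 * n + 5) * (6 * n + 7)) *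
      (((4 * n + 6).factorial : ℂ) * ((4 * n + 3).factorial : ℂ)) =
      ((2 * n + 3).factorial : ℂ) * ((6 * n + 10).factorial : ℂ) * On n := by
  obtain ⟨-, r1⟩ := relations n
  obtain ⟨r2, r3⟩ := relations (n + 1)
  have r4 := QN_succ (2 * n + 1)
  have e1 : 2 * (n + 1) + 1 = 2 * n + 1 + 2 := by ring
  have e2 : 4 * (n + 1) + 2 = 4 * n + 6 := by ring
  have e3 : 4 * (n + 1) + 3 = 4 * n + 7 := by ring
  have e4 : 6 * (n + 1) + 4 = 6 * n + 10 := by ring
  have e5 : 2 * (n + 1) + 2 = 2 * n + 2 + 2 := by ring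
  rw [e1, e3, e5] at r3
  rw [e1, e2, e3, e4] at r2
  have f1 : (3 : ℂ) ^ (2 * n + 1 + 2) = 9 * 3 ^ (2 * n + 1) := by rw [pow_add]; ring
  have f2 : (2 : ℂ) ^ (2 * n + 2 + 2) = 4 * 2 ^ (2 * n + 2) := by rw [pow_add]; ring
  have f3 : ((-3 : ℂ)) ^ (n + 1) = -3 * (-3) ^ n := by rw [pow_succ]; ring
  rw [f1, f2, f3] at r3
  have e6 : 2 * n + 1 + 2 = 2 * n + 3 := by ring
  have hT : (3 : ℂ) ^ (2 * n + 1) ≠ 0 := pow_ne_zero _ (by norm_num)
  have hU : (2 : ℂ) ^ (2 * n + 2) ≠ 0 := pow_ne_zero _ (by norm_num)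
  push_cast at r4
  rw [show ((2 * n + 1 + 2).factorial) = (2 * n + 3).factorial from rfl] at r2
  generalize (3 : ℂ) ^ (2 * n + 1) = T at *
  generalize (2 : ℂ) ^ (2 * n + 2) = U at *
  generalize ((-3 : ℂ)) ^ n = S at *
  generalize QN (2 * n + 1) = Q1 at *
  generalize QN (2 * n + 1 + 2) = Q2 at *
  generalize ((4 * n + 7).factorial : ℂ) = a7 at *
  generalize ((4 * n + 6).factorial : ℂ) = a6 at *
  generalize ((4 * n + 3).factorial : ℂ) = a3 at *
  generalize ((2 * n + 3).factorial : ℂ) = b3 at *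
  generalize ((6 * n + 10).factorial : ℂ) = c10 at *
  generalize En (n + 1 + 1) = E2 at *
  generalize En (n + 1) = E1 at *
  generalize On (n + 1) = O1 at *
  generalize On n = O0 at *
  apply mul_left_cancel₀ (mul_ne_zero hT hU)
  -- r3 : 4 * U * O1 * (9 * T) = a7 * (-3 * S) * E2 * Q2
  -- r2 : E2 * (2 * a6 * a7) = b3 * c10 * E1
  -- r4 : (..) * Q2 = -4 * Q1
  -- r1 : U * O0 * T = a3 * S * E1 * Q1
  linear_combination (1 / 6 * ((2 * (n : ℂ) + 2) * (2 * n + 3) * (6 * n + 5) * (6 * n + 7)) *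
      (a6 * a3)) * r3 +
    (-(1 / 4) * S * Q2 * ((2 * (n : ℂ) + 2) * (2 * n + 3) * (6 * n + 5) * (6 * n + 7)) * a3) * r2 +
    (-(1 / 4) * S * a3 * b3 * c10 * E1) * r4 - (b3 * c10) * r1

/-- the product formula -/
noncomputable def Fc (n : ℕ) : ℂ := 2 ^ n / 2 * ((3 * n + 2).factorial : ℂ) /
  ((2 * n + 1).factorial : ℂ) *
  ∏ i ∈ Finset.range n, (((6 * i + 4).factorial : ℂ) / ((2 * n + 2 * i + 3).factorial : ℂ))

theorem On_eq (n : ℕ) : On n = Fc n := by
  induction n with
  | zero => rw [On_zero]; simp [Fc]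
  | succ n ih =>
    have h := On_succ n
    rw [ih] at h
    -- recursion of the product formula
    have hD : (∏ i ∈ Finset.range (n + 1), ((2 * (n + 1) + 2 * i + 3).factorial : ℂ)) *
        ((2 * n + 3).factorial : ℂ) =
        (∏ i ∈ Finset.range n, ((2 * n + 2 * i + 3).factorial : ℂ)) *
          ((4 * n + 3).factorial : ℂ) * ((4 * n + 5).factorial : ℂ) := by
      have h1 := Finset.prod_range_succ' (fun i => ((2 * n + 2 * i + 3).factorial : ℂ)) (n + 1)
      rw [Finset.prod_range_succ, Finset.prod_range_succ] at h1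
      have e1 : 2 * n + 2 * n + 3 = 4 * n + 3 := by ring
      have e2 : 2 * n + 2 * (n + 1) + 3 = 4 * n + 5 := by ring
      have e3 : 2 * n + 2 * 0 + 3 = 2 * n + 3 := by ring
      rw [e1, e2, e3] at h1
      rw [h1]
      congr 1
      refine Finset.prod_congr rfl fun i _ => ?_
      congr 2
      ring
    have g1 : (∏ i ∈ Finset.range n, ((2 * n + 2 * i + 3).factorial : ℂ)) ≠ 0 :=
      Finset.prod_ne_zero_iff.2 fun i _ => fac_ne _
    have g2 : (∏ i ∈ Finset.range (n + 1), ((2 * (n + 1) + 2 * i + 3).factorial : ℂ)) ≠ 0 :=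
      Finset.prod_ne_zero_iff.2 fun i _ => fac_ne _
    have hF0 : Fc n * (2 * ((2 * n + 1).factorial : ℂ) *
        (∏ i ∈ Finset.range n, ((2 * n + 2 * i + 3).factorial : ℂ))) =
        2 ^ n * ((3 * n + 2).factorial : ℂ) *
          (∏ i ∈ Finset.range n, ((6 * i + 4).factorial : ℂ)) := by
      rw [Fc, Finset.prod_div_distrib]
      have := fac_ne (2 * n + 1)
      field_simp
    have hF1 : Fc (n + 1) * (2 * ((2 * n + 3).factorial : ℂ) *
        (∏ i ∈ Finset.range (n + 1), ((2 * (n + 1) + 2 * i + 3).factorial : ℂ))) =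
        2 * 2 ^ n * ((3 * n + 5).factorial : ℂ) *
          ((∏ i ∈ Finset.range n, ((6 * i + 4).factorial : ℂ)) * ((6 * n + 4).factorial : ℂ)) := by
      rw [← Finset.prod_range_succ (fun i => ((6 * i + 4).factorial : ℂ)), Fc,
        Finset.prod_div_distrib, show 3 * (n + 1) + 2 = 3 * n + 5 by ring,
        show 2 * (n + 1) + 1 = 2 * n + 3 by ring, pow_succ]
      have := fac_ne (2 * n + 3)
      field_simp
    have e5 : ((3 * n + 5).factorial : ℂ) = (3 * n + 5) * (3 * n + 4) * (3 * n + 3) *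
        ((3 * n + 2).factorial : ℂ) := by
      rw [show 3 * n + 5 = (3 * n + 2) + 1 + 1 + 1 by ring, Nat.factorial_succ,
        Nat.factorial_succ, Nat.factorial_succ]
      push_cast
      ring
    have e6 : ((6 * n + 10).factorial : ℂ) = (6 * n + 10) * (6 * n + 9) * (6 * n + 8) *
        (6 * n + 7) * (6 * n + 6) * (6 * n + 5) * ((6 * n + 4).factorial : ℂ) := by
      rw [show 6 * n + 10 = (6 * n + 4) + 1 + 1 + 1 + 1 + 1 + 1 by ring, Nat.factorial_succ,
        Nat.factorial_succ, Nat.factorial_succ, Nat.factorial_succ, Nat.factorial_succ,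
        Nat.factorial_succ]
      push_cast
      ring
    have e7 : ((4 * n + 6).factorial : ℂ) = (4 * n + 6) * ((4 * n + 5).factorial : ℂ) := by
      rw [show 4 * n + 6 = (4 * n + 5) + 1 by ring, Nat.factorial_succ]
      push_cast
      ring
    have e8 : ((2 * n + 3).factorial : ℂ) = (2 * n + 3) * (2 * n + 2) *
        ((2 * n + 1).factorial : ℂ) := by
      rw [show 2 * n + 3 = (2 * n + 1) + 1 + 1 by ring, Nat.factorial_succ, Nat.factorial_succ]
      push_cast
      ring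
    rw [e5] at hF1
    rw [e6, e7] at h
    have c1 : ((6 : ℂ) * n + 5) ≠ 0 := by
      have : ((6 * n + 5 : ℕ) : ℂ) ≠ 0 := Nat.cast_ne_zero.2 (by omega)
      push_cast at this; exact this
    have c2 : ((6 : ℂ) * n + 7) ≠ 0 := by
      have : ((6 * n + 7 : ℕ) : ℂ) ≠ 0 := Nat.cast_ne_zero.2 (by omega)
      push_cast at this; exact this
    have c3 : ((2 : ℂ) * n + 2) ≠ 0 := by
      have : ((2 * n + 2 : ℕ) : ℂ) ≠ 0 := Nat.cast_ne_zero.2 (by omega)
      push_cast at this; exact this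
    have c4 : ((2 : ℂ) * n + 3) ≠ 0 := by
      have : ((2 * n + 3 : ℕ) : ℂ) ≠ 0 := Nat.cast_ne_zero.2 (by omega)
      push_cast at this; exact this
    have d1 := fac_ne (2 * n + 1)
    have d3 := fac_ne (2 * n + 3)
    have d4 := fac_ne (4 * n + 3)
    have d5 := fac_ne (4 * n + 5)
    have d6 := fac_ne (6 * n + 4)
    -- simplify h
    have h' : On (n + 1) * (((4 * n + 5).factorial : ℂ) * ((4 * n + 3).factorial : ℂ)) =
        2 * (3 * n + 3) * (3 * n + 4) * (3 * n + 5) * ((2 * n + 1).factorial : ℂ) *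
          ((6 * n + 4).factorial : ℂ) * Fc n := by
      apply mul_left_cancel₀ (mul_ne_zero (mul_ne_zero c1 c2) (mul_ne_zero c3
        (mul_ne_zero c4 c4)))
      rw [e8] at h
      linear_combination h / 12
    -- conclusion
    apply mul_right_cancel₀ (mul_ne_zero (mul_ne_zero (two_ne_zero (α := ℂ)) d3) g2)
    rw [hF1]
    have k1 : On (n + 1) * (2 * ((2 * n + 3).factorial : ℂ) *
        (∏ i ∈ Finset.range (n + 1), ((2 * (n + 1) + 2 * i + 3).factorial : ℂ))) =
        2 * (On (n + 1) * (((4 * n + 5).factorial : ℂ) * ((4 * n + 3).factorial : ℂ))) *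
        (∏ i ∈ Finset.range n, ((2 * n + 2 * i + 3).factorial : ℂ)) := by
      linear_combination 2 * On (n + 1) * hD
    rw [k1, h']
    linear_combination (2 * (3 * (n : ℂ) + 3) * (3 * n + 4) * (3 * n + 5) *
      ((6 * n + 4).factorial : ℂ)) * hF0

end Pool.Agent.K7.H27.OS
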