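import Pool.Agent.K7.H27.OS.Model

/-!
Exchange lemma: the state sum is symmetric.
-/

set_option autoImplicit false

namespace Pool.Agent.K7.H27.OS

variable {R : Type*} [CommRing R]

/-- double row -/
def DD (x y : R) (l : List R) (h1 h2 : Bool) (v : List Bool) (k : List Bool → R) : R :=
  row x l h1 v (fun u => row y l h2 u k)

theorem DD_cons (x y p : R) (l : List R) (h1 h2 v : Bool) (vs : List Bool) (k : List Bool → R) :
    DD x y (p :: l) h1 h2 (v :: vs) k =
      ∑ g1 : Bool, ∑ a : Bool, ∑ g2 : Bool, ∑ b : Bool,
        w x p h1 v g1 a * w y p h2 a g2 b * DD x y l g1 g2 vs (fun u => k (b :: u)) := by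
  unfold DD
  simp only [row_cons, Fintype.sum_bool, row_add, row_mul]
  ring

theorem DD_nil (x y : R) (h1 h2 : Bool) (k : List Bool → R) :
    DD x y [] h1 h2 [] k = if h1 then (if h2 then k [] else 0) else 0 := by
  unfold DD
  simp only [row_nil]

theorem ybeH (x y p : R) (h1 h2 v g1 g2 b : Bool) :
    ∑ c : Bool, ∑ d : Bool, ∑ a : Bool, Rm x y h1 h2 c d * w x p c v g1 a * w y p d a g2 b =
    ∑ c : Bool, ∑ d : Bool, ∑ a : Bool, w y p h1 v c a * w x p h2 a d b * Rm x y c d g1 g2 := by
  have h := ybe x y p v h1 h2 b g1 g2
  simp only [Fintype.sum_bool] at h ⊢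
  simp only [w_symm p x, w_symm p y] at h
  linear_combination h

theorem DD_swap (x y : R) (l : List R) : ∀ (h1 h2 : Bool) (v : List Bool) (k : List Bool → R),
    ∑ c : Bool, ∑ d : Bool, Rm x y h1 h2 c d * DD x y l c d v k =
      (1 - y + x * y) * DD y x l h1 h2 v k := by
  induction l with
  | nil =>
    intro h1 h2 v k
    cases v with
    | nil =>
      simp only [DD_nil, Fintype.sum_bool]
      rcases h1 <;> rcases h2 <;> simp [Rm]
    | cons a v => simp [DD, row_nil_cons]
  | cons p l ih =>
    intro h1 h2 v k
    cases v with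
    | nil => simp [DD, row_cons_nil]
    | cons v vs =>
      have key : ∀ g1 g2 b : Bool,
          (∑ c : Bool, ∑ d : Bool, ∑ a : Bool,
            Rm x y h1 h2 c d * w x p c v g1 a * w y p d a g2 b) =
          ∑ c : Bool, ∑ d : Bool, ∑ a : Bool,
            w y p h1 v c a * w x p h2 a d b * Rm x y c d g1 g2 :=
        fun g1 g2 b => ybeH x y p h1 h2 v g1 g2 b
      calc ∑ c : Bool, ∑ d : Bool, Rm x y h1 h2 c d * DD x y (p :: l) c d (v :: vs) k
          = ∑ g1 : Bool, ∑ g2 : Bool, ∑ b : Bool, (∑ c : Bool, ∑ d : Bool, ∑ a : Bool,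
              Rm x y h1 h2 c d * w x p c v g1 a * w y p d a g2 b) *
                DD x y l g1 g2 vs (fun u => k (b :: u)) := by
            simp only [DD_cons, Fintype.sum_bool]
            ring
        _ = ∑ g1 : Bool, ∑ g2 : Bool, ∑ b : Bool, (∑ c : Bool, ∑ d : Bool, ∑ a : Bool,
            w y p h1 v c a * w x p h2 a d b * Rm x y c d g1 g2) *
                DD x y l g1 g2 vs (fun u => k (b :: u)) := by
            simp only [key]
        _ = ∑ c : Bool, ∑ a : Bool, ∑ d : Bool, ∑ b : Bool,
              w y p h1 v c a * w x p h2 a d b *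
              (∑ g1 : Bool, ∑ g2 : Bool, Rm x y c d g1 g2 *
                DD x y l g1 g2 vs (fun u => k (b :: u))) := by
            simp only [Fintype.sum_bool]
            ring
        _ = ∑ c : Bool, ∑ a : Bool, ∑ d : Bool, ∑ b : Bool,
              w y p h1 v c a * w x p h2 a d b *
              ((1 - y + x * y) * DD y x l c d vs (fun u => k (b :: u))) := by
            simp only [ih]
        _ = (1 - y + x * y) * DD y x (p :: l) h1 h2 (v :: vs) k := by
            simp only [DD_cons, Fintype.sum_bool]
            ring

/-- the crossing acting on two adjacent vertical edges at position `n` -/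
def act (x y : R) : ℕ → (List Bool → R) → List Bool → R
  | 0, k, (c :: d :: u) => ∑ a : Bool, ∑ b : Bool, Rm x y c d a b * k (a :: b :: u)
  | (n + 1), k, (p :: u) => act x y n (fun u' => k (p :: u')) u
  | _, _, _ => 0

theorem act_zero (x y : R) (k : List Bool → R) (c d : Bool) (u : List Bool) :
    act x y 0 k (c :: d :: u) = ∑ a : Bool, ∑ b : Bool, Rm x y c d a b * k (a :: b :: u) := by
  rw [act]

theorem act_zero_nil (x y : R) (k : List Bool → R) : act x y 0 k [] = 0 := by
  rw [act] <;> simp

theorem act_zero_one (x y : R) (k : List Bool → R) (c : Bool) : act x y 0 k [c] = 0 := by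
  rw [act] <;> simp

theorem act_succ (x y : R) (n : ℕ) (k : List Bool → R) (p : Bool) (u : List Bool) :
    act x y (n + 1) k (p :: u) = act x y n (fun u' => k (p :: u')) u := by
  rw [act]

theorem act_succ_nil (x y : R) (n : ℕ) (k : List Bool → R) :
    act x y (n + 1) k [] = 0 := by
  rw [act] <;> simp

theorem act_add (x y : R) : ∀ (n : ℕ) (k k' : List Bool → R) (u : List Bool),
    act x y n (fun u => k u + k' u) u = act x y n k u + act x y n k' u := by
  intro n
  induction n with
  | zero =>
    intro k k' u
    rcases u with _ | ⟨c, _ | ⟨d, u⟩⟩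
    · simp [act_zero_nil]
    · simp [act_zero_one]
    · simp only [act_zero, Fintype.sum_bool]
      ring
  | succ n ih =>
    intro k k' u
    cases u with
    | nil => simp [act_succ_nil]
    | cons p u => simp only [act_succ, ih]

theorem act_mul (x y : R) : ∀ (n : ℕ) (a : R) (k : List Bool → R) (u : List Bool),
    act x y n (fun u => a * k u) u = a * act x y n k u := by
  intro n
  induction n with
  | zero =>
    intro a k u
    rcases u with _ | ⟨c, _ | ⟨d, u⟩⟩
    · simp [act_zero_nil]
    · simp [act_zero_one]
    · simp only [act_zero, Fintype.sum_bool]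
      ring
  | succ n ih =>
    intro a k u
    cases u with
    | nil => simp [act_succ_nil]
    | cons p u => simp only [act_succ, ih]

theorem row_two (p x y : R) (l : List R) (h c d : Bool) (u : List Bool) (k : List Bool → R) :
    row p (x :: y :: l) h (c :: d :: u) k =
      ∑ g : Bool, ∑ a : Bool, ∑ h' : Bool, ∑ b : Bool,
        w p x h c g a * w p y g d h' b * row p l h' u (fun u' => k (a :: b :: u')) := by
  simp only [row_cons, Fintype.sum_bool]
  ring

theorem row_act_zero (p x y : R) (l : List R) (h : Bool) (u : List Bool) (k : List Bool → R) :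
    act x y 0 (fun u' => row p (x :: y :: l) h u' k) u =
      row p (y :: x :: l) h u (act x y 0 k) := by
  rcases u with _ | ⟨c, _ | ⟨d, u⟩⟩
  · simp [act_zero_nil, row_cons_nil]
  · simp [act_zero_one, row_cons, row_cons_nil]
  · have key : ∀ h' c' d' : Bool,
          (∑ a : Bool, ∑ b : Bool, ∑ g : Bool, Rm x y c d a b * w p x h a g c' * w p y g b h' d') =
          ∑ a : Bool, ∑ b : Bool, ∑ g : Bool, w p y h c g a * w p x g d h' b * Rm x y a b c' d' :=
        fun h' c' d' => ybe x y p h c d h' c' d'
    calc act x y 0 (fun u' => row p (x :: y :: l) h u' k) (c :: d :: u)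
        = ∑ h' : Bool, ∑ c' : Bool, ∑ d' : Bool,
            (∑ a : Bool, ∑ b : Bool, ∑ g : Bool,
              Rm x y c d a b * w p x h a g c' * w p y g b h' d') *
              row p l h' u (fun u' => k (c' :: d' :: u')) := by
          simp only [act_zero, row_two, Fintype.sum_bool]
          ring
      _ = ∑ h' : Bool, ∑ c' : Bool, ∑ d' : Bool,
            (∑ a : Bool, ∑ b : Bool, ∑ g : Bool,
              w p y h c g a * w p x g d h' b * Rm x y a b c' d') *
              row p l h' u (fun u' => k (c' :: d' :: u')) := by
          simp only [key]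
      _ = row p (y :: x :: l) h (c :: d :: u) (act x y 0 k) := by
          simp only [act_zero, row_two, Fintype.sum_bool, row_add, row_mul]
          ring

theorem row_act (p x y : R) (Q : List R) (P : List R) : ∀ (h : Bool) (u : List Bool)
    (k : List Bool → R),
    act x y P.length (fun u' => row p (P ++ x :: y :: Q) h u' k) u =
      row p (P ++ y :: x :: Q) h u (act x y P.length k) := by
  induction P with
  | nil =>
    intro h u k
    simpa using row_act_zero p x y Q h u k
  | cons q P ih =>
    intro h u k
    cases u with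
    | nil => simp [act_succ_nil, row_cons_nil]
    | cons c u =>
      simp only [List.length_cons, List.cons_append, act_succ, row_cons, Fintype.sum_bool,
        act_add, act_mul, ih]

theorem Z_two (e x y : R) (l : List R) (c d : Bool) (u : List Bool) :
    Z e (x :: y :: l) (c :: d :: u) =
      ∑ r : Bool, ∑ g1 : Bool, ∑ s : Bool, ∑ g2 : Bool,
        kd e x c r * w x y r d g1 s * kd e y s g2 * DD x y l g1 g2 u (Z e l) := by
  simp only [Z_cons, row_cons, Fintype.sum_bool, DD, row_add, row_mul]
  ring

theorem Z_act_zero (e x y : R) (l : List R) (v : List Bool) :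
    act x y 0 (Z e (x :: y :: l)) v = (1 - y + x * y) * Z e (y :: x :: l) v := by
  rcases v with _ | ⟨c, _ | ⟨d, u⟩⟩
  · simp [act_zero_nil, Z_cons_nil]
  · simp [act_zero_one, Z_cons, row_cons_nil]
  · have key : ∀ g1 g2 : Bool,
        (∑ a : Bool, ∑ b : Bool, ∑ r : Bool, ∑ s : Bool,
          Rm x y c d a b * kd e x a r * w x y r b g1 s * kd e y s g2) =
        ∑ r : Bool, ∑ s : Bool, ∑ a : Bool, ∑ b : Bool,
          kd e y c r * w y x r d a s * kd e x s b * Rm x y a b g1 g2 :=
      fun g1 g2 => refl e x y c d g1 g2
    calc act x y 0 (Z e (x :: y :: l)) (c :: d :: u)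
        = ∑ g1 : Bool, ∑ g2 : Bool,
            (∑ a : Bool, ∑ b : Bool, ∑ r : Bool, ∑ s : Bool,
              Rm x y c d a b * kd e x a r * w x y r b g1 s * kd e y s g2) *
            DD x y l g1 g2 u (Z e l) := by
          simp only [act_zero, Z_two, Fintype.sum_bool]
          ring
      _ = ∑ g1 : Bool, ∑ g2 : Bool,
            (∑ r : Bool, ∑ s : Bool, ∑ a : Bool, ∑ b : Bool,
              kd e y c r * w y x r d a s * kd e x s b * Rm x y a b g1 g2) *
            DD x y l g1 g2 u (Z e l) := by
          simp only [key]
      _ = ∑ r : Bool, ∑ s : Bool, ∑ a : Bool, ∑ b : Bool,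
            kd e y c r * w y x r d a s * kd e x s b *
              (∑ g1 : Bool, ∑ g2 : Bool, Rm x y a b g1 g2 * DD x y l g1 g2 u (Z e l)) := by
          simp only [Fintype.sum_bool]
          ring
      _ = ∑ r : Bool, ∑ s : Bool, ∑ a : Bool, ∑ b : Bool,
            kd e y c r * w y x r d a s * kd e x s b *
              ((1 - y + x * y) * DD y x l a b u (Z e l)) := by
          simp only [DD_swap]
      _ = (1 - y + x * y) * Z e (y :: x :: l) (c :: d :: u) := by
          simp only [Z_two, Fintype.sum_bool]
          ring

theorem Z_act (e x y : R) (Q : List R) (P : List R) : ∀ (v : List Bool),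
    act x y P.length (Z e (P ++ x :: y :: Q)) v =
      (1 - y + x * y) * Z e (P ++ y :: x :: Q) v := by
  induction P with
  | nil =>
    intro v
    simpa using Z_act_zero e x y Q v
  | cons p P ih =>
    intro v
    cases v with
    | nil => simp [act_succ_nil, Z_cons_nil]
    | cons c u =>
      have h1 : (act x y P.length (Z e (P ++ x :: y :: Q))) =
          fun v => (1 - y + x * y) * Z e (P ++ y :: x :: Q) v := funext ih
      simp only [List.length_cons, List.cons_append, act_succ, Z_cons, Fintype.sum_bool,
        act_add, act_mul, row_act, h1, row_mul]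
      ring

/-- the zero boundary -/
def zs (n : ℕ) : List Bool := List.replicate n false

theorem act_zs (x y : R) (k : List Bool → R) : ∀ (n m : ℕ),
    (act x y n k (zs (n + (m + 2)))) = (1 - y + x * y) * k (zs (n + (m + 2))) := by
  intro n
  induction n generalizing k with
  | zero =>
    intro m
    have : zs (0 + (m + 2)) = false :: false :: zs m := by
      simp [zs, List.replicate_succ]
    rw [this, act_zero]
    simp [Rm]
  | succ n ih =>
    intro m
    have : zs (n + 1 + (m + 2)) = false :: zs (n + (m + 2)) := by
      simp only [zs]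
      rw [show n + 1 + (m + 2) = (n + (m + 2)) + 1 by ring, List.replicate_succ]
    rw [this, act_succ, ih]

end Pool.Agent.K7.H27.OS
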