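import Pool.Agent.K7.H27.OS.Three

/-!
The three-term relation at the homogeneous point.
-/

set_option autoImplicit false

namespace Pool.Agent.K7.H27.OS

open Polynomial Filter Topology

/-- parameters -/
noncomputable def PD : ℕ → List (ℂ × ℂ)
  | 0 => []
  | (n + 1) => ((n + 1 : ℂ), 0) :: PD n

theorem PD_length (n : ℕ) : (PD n).length = n := by
  induction n with
  | zero => rfl
  | succ n ih => simp only [PD, List.length_cons, ih]

theorem PD_fst (n : ℕ) : ∀ p ∈ PD n, ∃ k : ℕ, k ≤ n ∧ p.1 = k := by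
  induction n with
  | zero => intro p hp; simp [PD] at hp
  | succ n ih =>
    intro p hp
    simp only [PD, List.mem_cons] at hp
    rcases hp with rfl | hp
    · exact ⟨n + 1, le_rfl, by push_cast; ring⟩
    · obtain ⟨k, hk, hk'⟩ := ih p hp
      exact ⟨k, by omega, hk'⟩

theorem PD_nodup (n : ℕ) : ((PD n).map Prod.fst).Nodup := by
  induction n with
  | zero => simp [PD]
  | succ n ih =>
    simp only [PD, List.map_cons, List.nodup_cons]
    refine ⟨?_, ih⟩
    intro h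
    rw [List.mem_map] at h
    obtain ⟨p, hp, hpk⟩ := h
    obtain ⟨j, hj, hpj⟩ := PD_fst n p hp
    rw [hpj] at hpk
    have : (j : ℂ) = ((n + 1 : ℕ) : ℂ) := by push_cast; exact hpk
    have := Nat.cast_injective this
    omega

theorem rel_three (n : ℕ) (z : ℂ) (hz : z ≠ 0) (hz1 : 1 - z ≠ 0) (hz2 : 1 + z ≠ 0)
    (hz3 : 2 - z ≠ 0) (hz4 : 2 * z - 1 ≠ 0) :
    gg z / (1 + z) * zz 0 (z :: List.replicate (2 * n + 1) 0) * (-z * z) ^ (2 * n + 1) +
    gg (1 / (1 - z)) / (1 + 1 / (1 - z)) * zz 0 (1 / (1 - z) :: List.replicate (2 * n + 1) 0) *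
      ((1 / (1 - z)) * (1 - z) ^ 2) ^ (2 * n + 1) +
    gg ((z - 1) / z) / (1 + (z - 1) / z) * zz 0 ((z - 1) / z :: List.replicate (2 * n + 1) 0) *
      (-((z - 1) / z) * z ^ 2 * (1 - z)) ^ (2 * n + 1) = 0 := by
  set N := 2 * n + 1 with hN
  set T : List CA := (PD N).map ptc with hT
  -- constants as elements of CA
  set k : ℂ → CA := fun a => ⟨fun _ => a, continuousAt_const⟩ with hk
  have hke : ∀ ε a, evc ε (k a) = a := fun ε a => rfl
  set D : CA := k (gg z / (1 + z)) * zz 0 (k z :: T) *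
      (T.map (fun y => (y - k z) * (k z + y - k z * y))).prod +
    k (gg (1 / (1 - z)) / (1 + 1 / (1 - z))) * zz 0 (k (1 / (1 - z)) :: T) *
      (T.map (fun y => (y - k (1 / (1 - z))) * k (-(1 - z) ^ 2) * (1 - k z * y))).prod +
    k (gg ((z - 1) / z) / (1 + (z - 1) / z)) * zz 0 (k ((z - 1) / z) :: T) *
      (T.map (fun y => (y - k ((z - 1) / z)) * k (z ^ 2) * (1 - k z - y))).prod with hD
  have hev : ∀ ε : ℂ, evc ε D =
      gg z / (1 + z) * zz 0 (z :: (PD N).map (fun p => pt p ε)) *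
        (((PD N).map (fun p => pt p ε)).map (fun y => (y - z) * (z + y - z * y))).prod +
      gg (1 / (1 - z)) / (1 + 1 / (1 - z)) *
        zz 0 (1 / (1 - z) :: (PD N).map (fun p => pt p ε)) *
        (((PD N).map (fun p => pt p ε)).map
          (fun y => (y - 1 / (1 - z)) * (-(1 - z) ^ 2) * (1 - z * y))).prod +
      gg ((z - 1) / z) / (1 + (z - 1) / z) *
        zz 0 ((z - 1) / z :: (PD N).map (fun p => pt p ε)) *
        (((PD N).map (fun p => pt p ε)).map
          (fun y => (y - (z - 1) / z) * z ^ 2 * (1 - z - y))).prod := by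
    intro ε
    rw [hD, map_add, map_add, map_mul, map_mul, map_mul, map_mul, map_mul, map_mul, zz_map, zz_map,
      zz_map, list_prod_evc, list_prod_evc, list_prod_evc,
      List.map_cons, List.map_cons, List.map_cons, hT, map_evc_ptc, hke, hke, hke, hke, hke, hke]
    simp only [List.map_map, Function.comp_def, map_mul, map_sub, map_one, map_add, hke]
    rfl
  have hle : 𝓝[≠] (0 : ℂ) ≤ 𝓝 0 := nhdsWithin_le_nhds
  have h0 := ca_zero D (by
    have g1 : ∀ᶠ ε in 𝓝[≠] (0 : ℂ), ∀ p ∈ PD N, 1 - z * pt p ε ≠ 0 :=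
      ev_all _ _ fun p _ => hle (ContinuousAt.eventually_ne
        (continuousAt_const.sub (continuousAt_const.mul (pt_cont p))) (by simp [pt_zero]))
    have g2 : ∀ᶠ ε in 𝓝[≠] (0 : ℂ), ∀ p ∈ PD N, 1 - z - pt p ε ≠ 0 :=
      ev_all _ _ fun p _ => hle (ContinuousAt.eventually_ne
        (continuousAt_const.sub (pt_cont p)) (by simpa [pt_zero] using hz1))
    have g3 : ∀ᶠ ε in 𝓝[≠] (0 : ℂ), ∀ p ∈ PD N, z + pt p ε - z * pt p ε ≠ 0 :=
      ev_all _ _ fun p _ => hle (ContinuousAt.eventually_ne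
        ((continuousAt_const.add (pt_cont p)).sub (continuousAt_const.mul (pt_cont p)))
        (by simpa [pt_zero] using hz))
    filter_upwards [gen_eventually (PD N) (PD_nodup N), g1, g2, g3] with ε hε k1 k2 k3
    rw [hev]
    refine three_list _ hε n (by rw [List.length_map, PD_length]) z hz hz1 hz2 hz3 hz4 ?_
    intro y hy
    rw [List.mem_map] at hy
    obtain ⟨p, hp, rfl⟩ := hy
    exact ⟨k1 p hp, k2 p hp, k3 p hp⟩)
  rw [hev, map_pt_zero, PD_length] at h0
  simp only [List.map_replicate, List.prod_replicate] at h0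
  have e1 : ((0 : ℂ) - z) * (z + 0 - z * 0) = -z * z := by ring
  have e2 : ((0 : ℂ) - 1 / (1 - z)) * (-(1 - z) ^ 2) * (1 - z * 0) =
    (1 / (1 - z)) * (1 - z) ^ 2 := by ring
  have e3 : ((0 : ℂ) - (z - 1) / z) * z ^ 2 * (1 - z - 0) = -((z - 1) / z) * z ^ 2 * (1 - z) := by
    ring
  rw [e1, e2, e3] at h0
  exact h0

/-- the three-term relation for the polynomial `P` with `zz 0 (z :: 0 ...) = (1 + z) P z` -/
theorem rel_poly (n : ℕ) (P : ℂ[X])
    (hP : ∀ x : ℂ, zz 0 (x :: List.replicate (2 * n + 1) 0) = (1 + x) * P.eval x)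
    (z : ℂ) (hz : z ≠ 0) (hz1 : 1 - z ≠ 0) (hz2 : 1 + z ≠ 0)
    (hz3 : 2 - z ≠ 0) (hz4 : 2 * z - 1 ≠ 0) :
    gg z * P.eval z * (z / (1 - z)) ^ (2 * n + 1) +
    gg (1 / (1 - z)) * P.eval (1 / (1 - z)) *
      ((1 / (1 - z)) / (1 - 1 / (1 - z))) ^ (2 * n + 1) +
    gg ((z - 1) / z) * P.eval ((z - 1) / z) *
      (((z - 1) / z) / (1 - (z - 1) / z)) ^ (2 * n + 1) = 0 := by
  have h := rel_three n z hz hz1 hz2 hz3 hz4
  rw [hP, hP, hP] at h
  have hr1 : 1 + 1 / (1 - z) ≠ 0 := by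
    have : 1 + 1 / (1 - z) = (2 - z) / (1 - z) := by field_simp; ring
    rw [this]
    exact div_ne_zero hz3 hz1
  have hr2 : 1 + (z - 1) / z ≠ 0 := by
    have : 1 + (z - 1) / z = (2 * z - 1) / z := by field_simp; ring
    rw [this]
    exact div_ne_zero hz4 hz
  have c1 : ∀ x : ℂ, 1 + x ≠ 0 → gg x / (1 + x) * ((1 + x) * P.eval x) = gg x * P.eval x := by
    intro x hx
    field_simp
  rw [c1 z hz2, c1 _ hr1, c1 _ hr2] at h
  have hodd : ((-1 : ℂ)) ^ (2 * n + 1) = -1 := by rw [pow_succ, pow_mul]; simp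
  have hneg : ∀ a : ℂ, -(a ^ (2 * n + 1)) = (-a) ^ (2 * n + 1) := by
    intro a; rw [neg_pow a, hodd]; ring
  have d1 : (-z * z) ^ (2 * n + 1) =
      - ((z * (1 - z)) ^ (2 * n + 1) * (z / (1 - z)) ^ (2 * n + 1)) := by
    rw [← mul_pow, hneg]
    congr 1
    field_simp
  have d2 : ((1 / (1 - z)) * (1 - z) ^ 2) ^ (2 * n + 1) =
      - ((z * (1 - z)) ^ (2 * n + 1) * ((1 / (1 - z)) / (1 - 1 / (1 - z))) ^ (2 * n + 1)) := by
    rw [← mul_pow, hneg]
    congr 1
    have : 1 - 1 / (1 - z) = - z / (1 - z) := by field_simp; ring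
    rw [this]
    field_simp
  have d3 : (-((z - 1) / z) * z ^ 2 * (1 - z)) ^ (2 * n + 1) =
      - ((z * (1 - z)) ^ (2 * n + 1) *
        (((z - 1) / z) / (1 - (z - 1) / z)) ^ (2 * n + 1)) := by
    rw [← mul_pow, hneg]
    congr 1
    have : 1 - (z - 1) / z = 1 / z := by field_simp; ring
    rw [this]
    field_simp
  rw [d1, d2, d3] at h
  have hne : (z * (1 - z)) ^ (2 * n + 1) ≠ 0 := pow_ne_zero _ (mul_ne_zero hz hz1)
  apply mul_left_cancel₀ hne
  linear_combination -h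

end Pool.Agent.K7.H27.OS
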