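import Pool.Agent.K7.H27.OS.Enum
import Pool.Agent.K7.H27.OS.Count

/-!
The number of odd order off-diagonally symmetric alternating sign matrices.
-/

set_option autoImplicit false

namespace Pool.Agent.K7.H27.OS

/-- the property in the frozen statement -/
def PP (N : ℕ) (A : Matrix (Fin N) (Fin N) ℤ) : Prop :=
  (∀ i j, A i j = -1 ∨ A i j = 0 ∨ A i j = 1) ∧
  (∀ i k, (∑ j ∈ Finset.Iic k, A i j) = 0 ∨ (∑ j ∈ Finset.Iic k, A i j) = 1) ∧
  (∀ i, (∑ j, A i j) = 1) ∧
  (∀ j k, (∑ i ∈ Finset.Iic k, A i j) = 0 ∨ (∑ i ∈ Finset.Iic k, A i j) = 1) ∧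
  (∀ j, (∑ i, A i j) = 1) ∧
  (∀ i j, A i j = A j i) ∧
  (∃ d : Fin N, ∀ i, i ≠ d → A i i = 0)

theorem sum_even {N : ℕ} (A : Fin N → Fin N → ℤ) (hs : ∀ i j, A i j = A j i)
    (h0 : ∀ i, A i i = 0) : ((∑ i, ∑ j, A i j : ℤ) : ZMod 2) = 0 := by
  push_cast
  rw [← Finset.sum_product']
  refine Finset.sum_involution (fun p _ => (p.2, p.1)) ?_ ?_ ?_ ?_
  · rintro ⟨i, j⟩ _
    simp only
    rw [hs j i]
    have : ((A i j : ℤ) : ZMod 2) + ((A i j : ℤ) : ZMod 2) = 2 * ((A i j : ℤ) : ZMod 2) := by ring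
    rw [this]
    have h2 : (2 : ZMod 2) = 0 := by decide
    rw [h2, zero_mul]
  · rintro ⟨i, j⟩ _ hne heq
    simp only [Prod.mk.injEq] at heq
    apply hne
    simp only
    rw [heq.1, h0]
    simp
  · rintro ⟨i, j⟩ _
    simp
  · rintro ⟨i, j⟩ _
    rfl

theorem PP_iff (n : ℕ) (A : Fin (2 * n + 1) → Fin (2 * n + 1) → ℤ) :
    PP (2 * n + 1) A ↔ (IsT (vz (2 * n + 1)) A ∧ dgn A = 1) := by
  constructor
  · rintro ⟨h1, h2, h3, -, -, h6, d, hd⟩
    refine ⟨⟨h6, h1, fun i k => ?_, fun i => ?_⟩, ?_⟩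
    · have := h2 i k
      simp only [vz, bz, Bool.false_eq_true, if_false, zero_add]
      exact this
    · simp only [vz, bz, Bool.false_eq_true, if_false, zero_add]
      exact h3 i
    · have hne : A d d ≠ 0 := by
        intro h0
        have h00 : ∀ i, A i i = 0 := by
          intro i
          by_cases hi : i = d
          · rw [hi]; exact h0
          · exact hd i hi
        have h7 := sum_even A h6 h00
        have h8 : (∑ i, ∑ j, A i j) = ((2 * n + 1 : ℕ) : ℤ) := by
          rw [Finset.sum_congr rfl (fun i _ => h3 i)]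
          simp
        rw [h8] at h7
        have h9 : (((2 * n + 1 : ℕ) : ℤ) : ZMod 2) = 1 := by
          push_cast
          have h2 : (2 : ZMod 2) = 0 := by decide
          rw [h2, zero_mul, zero_add]
        rw [h9] at h7
        exact absurd h7 (by decide)
      rw [dgn, Finset.sum_eq_single d]
      · rw [if_neg hne]
      · intro i _ hi
        rw [if_pos (hd i hi)]
      · intro h; exact absurd (Finset.mem_univ _) h
  · rintro ⟨⟨h6, h1, h2, h3⟩, hd⟩
    have h2' : ∀ i k, (∑ j ∈ Finset.Iic k, A i j) = 0 ∨ (∑ j ∈ Finset.Iic k, A i j) = 1 := by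
      intro i k
      have := h2 i k
      simp only [vz, bz, Bool.false_eq_true, if_false, zero_add] at this
      exact this
    have h3' : ∀ i, (∑ j, A i j) = 1 := by
      intro i
      have := h3 i
      simp only [vz, bz, Bool.false_eq_true, if_false, zero_add] at this
      exact this
    refine ⟨h1, h2', h3', ?_, ?_, h6, ?_⟩
    · intro j k
      have := h2' j k
      rwa [Finset.sum_congr rfl (fun i _ => h6 j i)] at this
    · intro j
      have := h3' j
      rwa [Finset.sum_congr rfl (fun i _ => h6 j i)] at this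
    · -- exactly one nonzero diagonal entry
      have hex : ∃ d, A d d ≠ 0 := by
        by_contra hcon
        push Not at hcon
        rw [dgn, Finset.sum_eq_zero] at hd
        · exact absurd hd (by norm_num)
        · intro i _
          rw [if_pos (hcon i)]
      obtain ⟨d, hdd⟩ := hex
      refine ⟨d, fun i hi => ?_⟩
      by_contra hii
      rw [dgn] at hd
      have h5 : ∑ k ∈ ({d, i} : Finset (Fin (2 * n + 1))), (if A k k = 0 then 0 else 1) ≤
          ∑ k, (if A k k = 0 then 0 else 1) :=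
        Finset.sum_le_sum_of_subset (Finset.subset_univ _)
      rw [Finset.sum_pair (Ne.symm hi), if_neg hdd, if_neg hii, hd] at h5
      omega

theorem card_eq (n : ℕ) :
    (Nat.card {A : Matrix (Fin (2 * n + 1)) (Fin (2 * n + 1)) ℤ // PP (2 * n + 1) A} : ℂ) =
      Fc n := by
  rw [← On_eq, On, zz_count]
  congr 1
  refine Nat.card_congr ?_
  refine Equiv.trans ?_ (Equiv.subtypeSubtypeEquivSubtypeInter
    (fun B : Fin (2 * n + 1) → Fin (2 * n + 1) → ℤ => IsT (vz (2 * n + 1)) B)
    (fun B => dgn B = 1)).symm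
  exact Equiv.subtypeEquivRight (fun A => PP_iff n A)

end Pool.Agent.K7.H27.OS
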