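import Pool.Agent.K7.H27.OS.Exch

/-!
Symmetry of the state sum with zero boundary and its forced specialisations.
-/

set_option autoImplicit false

namespace Pool.Agent.K7.H27.OS

variable {R : Type*} [CommRing R]

/-- the state sum with zero boundary -/
def ZZ (e : R) (l : List R) : R := Z e l (zs l.length)

theorem ZZ_swap [IsDomain R] (e x y : R) (P Q : List R) :
    ZZ e (P ++ x :: y :: Q) = ZZ e (P ++ y :: x :: Q) := by
  have key : ∀ a b : R, (1 - b + a * b) * ZZ e (P ++ a :: b :: Q) =
      (1 - b + a * b) * ZZ e (P ++ b :: a :: Q) := by
    intro a b
    have h1 := Z_act e a b Q P (zs (P.length + (Q.length + 2)))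
    rw [act_zs] at h1
    have h2 : (P ++ a :: b :: Q).length = P.length + (Q.length + 2) := by simp
    have h3 : (P ++ b :: a :: Q).length = P.length + (Q.length + 2) := by simp
    rw [ZZ, ZZ, h2, h3]
    exact h1
  by_cases h1 : (1 - y + x * y) = 0
  · by_cases h2 : (1 - x + y * x) = 0
    · have : x = y := by linear_combination h1 - h2
      rw [this]
    · exact (mul_left_cancel₀ h2 (key y x)).symm
  · exact mul_left_cancel₀ h1 (key x y)

theorem ZZ_perm_aux [IsDomain R] (e : R) {l l' : List R} (h : l.Perm l') :
    ∀ P : List R, ZZ e (P ++ l) = ZZ e (P ++ l') := by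
  induction h with
  | nil => intro P; rfl
  | cons x _ ih =>
    intro P
    have := ih (P ++ [x])
    simpa using this
  | swap x y l => intro P; exact ZZ_swap e y x P l
  | trans _ _ ih1 ih2 => intro P; exact (ih1 P).trans (ih2 P)

theorem ZZ_perm [IsDomain R] (e : R) {l l' : List R} (h : l.Perm l') : ZZ e l = ZZ e l' := by
  simpa using ZZ_perm_aux e h []

theorem row_congr (x : R) (l : List R) : ∀ (h : Bool) (v : List Bool) (k k' : List Bool → R),
    (∀ u : List Bool, u.length = v.length → k u = k' u) → row x l h v k = row x l h v k' := by
  induction l with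
  | nil =>
    intro h v k k' hk
    cases v with
    | nil => simp only [row_nil]; rw [hk [] rfl]
    | cons a v => simp only [row_nil_cons]
  | cons y l ih =>
    intro h v k k' hk
    cases v with
    | nil => simp only [row_cons_nil]
    | cons a v =>
      simp only [row_cons]
      refine Finset.sum_congr rfl fun h' _ => Finset.sum_congr rfl fun v' _ => ?_
      rw [ih h' v (fun u => k (v' :: u)) (fun u => k' (v' :: u))
        (fun u hu => hk (v' :: u) (by simp [hu]))]

theorem zs_succ (n : ℕ) : zs (n + 1) = false :: zs n := by
  simp [zs, List.replicate_succ]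

theorem zs_zero : zs 0 = [] := rfl

theorem row_true_zs (x : R) (l : List R) : ∀ (k : List Bool → R),
    row x l true (zs l.length) k = (l.map (fun t => 1 - x - t)).prod * k (zs l.length) := by
  induction l with
  | nil => intro k; simp [zs_zero, row_nil]
  | cons y l ih =>
    intro k
    simp only [List.length_cons, zs_succ, row_cons, Fintype.sum_bool, w, ih, List.map_cons,
      List.prod_cons]
    ring

theorem row_false_zs_cons (x y : R) (l : List R) (k : List Bool → R) :
    row x (y :: l) false (zs (l.length + 1)) k =
      (1 - x * y) * row x l false (zs l.length) (fun u => k (false :: u)) +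
        (l.map (fun t => 1 - x - t)).prod * k (true :: zs l.length) := by
  simp only [zs_succ, row_cons, Fintype.sum_bool, w, row_true_zs]
  ring

theorem row_last_true (x y : R) (hxy : x + y = 1) (l : List R) (k : List Bool → R) :
    row x (l ++ [y]) true (zs (l.length + 1)) k = 0 := by
  have h := row_true_zs x (l ++ [y]) k
  simp only [List.length_append, List.length_cons, List.length_nil, List.map_append,
    List.prod_append, List.map_cons, List.map_nil, List.prod_cons, List.prod_nil] at h
  have : 1 - x - y = 0 := by linear_combination -hxy
  rw [this] at h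
  simpa using h

theorem row_last_false (x y : R) (hxy : x + y = 1) (l : List R) : ∀ (k : List Bool → R),
    row x (l ++ [y]) false (zs (l.length + 1)) k =
      (l.map (fun t => 1 - x * t)).prod * k (zs l.length ++ [true]) := by
  induction l with
  | nil =>
    intro k
    have h := row_false_zs_cons x y [] k
    simpa [zs_zero, row_nil] using h
  | cons t l ih =>
    intro k
    have h := row_false_zs_cons x t (l ++ [y]) k
    have h1 : (l ++ [y]).length = l.length + 1 := by simp
    have h2 : 1 - x - y = 0 := by linear_combination -hxy
    rw [h1] at h
    simp only [List.length_cons, List.cons_append]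
    rw [h, ih]
    simp [h2, zs_succ, mul_assoc]

theorem row_append_true (x y : R) (l : List R) : ∀ (h : Bool) (v : List Bool),
    v.length = l.length → ∀ (k : List Bool → R),
    row x (l ++ [y]) h (v ++ [true]) k =
      (1 - x * y) * row x l h v (fun u => k (u ++ [true])) := by
  induction l with
  | nil =>
    intro h v hv k
    have : v = [] := by simpa using hv
    subst this
    rcases h <;> simp [row_cons, row_nil, w]
  | cons t l ih =>
    intro h v hv k
    cases v with
    | nil => simp at hv
    | cons a v =>
      have hv' : v.length = l.length := by simpa using hv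
      simp only [List.cons_append, row_cons, Fintype.sum_bool, ih _ _ hv']
      ring

theorem row_const_zero (x : R) (l : List R) (h : Bool) (v : List Bool) (k : List Bool → R)
    (hk : ∀ u, k u = 0) : row x l h v k = 0 := by
  have : k = fun _ => 0 := funext hk
  rw [this, row_zero]

theorem Z_append_true (e y : R) (l : List R) : ∀ (v : List Bool), v.length = l.length →
    Z e (l ++ [y]) (v ++ [true]) =
      (l.map (fun t => 1 - t * y)).prod * (1 + y) * Z e l v := by
  induction l with
  | nil =>
    intro v hv
    have : v = [] := by simpa using hv
    subst this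
    simp [Z_cons, Z_nil, row_nil, kd]
  | cons x l ih =>
    intro v hv
    cases v with
    | nil => simp at hv
    | cons c v =>
      have hv' : v.length = l.length := by simpa using hv
      have h1 : ∀ r : Bool, row x l r v (fun u => Z e (l ++ [y]) (u ++ [true])) =
          (l.map (fun t => 1 - t * y)).prod * (1 + y) * row x l r v (Z e l) := by
        intro r
        rw [← row_mul]
        exact row_congr _ _ _ _ _ _ (fun u hu => ih u (by rw [hu, hv']))
      simp only [List.cons_append, Z_cons, Fintype.sum_bool, row_append_true _ _ _ _ _ hv', h1,
        List.map_cons, List.prod_cons]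
      ring

theorem ZZ_cons (e x : R) (l : List R) :
    ZZ e (x :: l) = (1 + x) * row x l false (zs l.length) (Z e l) +
      e * (l.map (fun t => 1 - x - t)).prod * ZZ e l := by
  simp only [ZZ, List.length_cons, zs_succ, Z_cons, Fintype.sum_bool, kd, row_true_zs]
  ring

/-- the recursion at `x + y = 1` -/
theorem ZZ_rec (e x y : R) (hxy : x + y = 1) (l : List R) :
    ZZ e (x :: (l ++ [y])) = (1 + x) * (1 + y) * (l.map (fun t => 1 - x * t)).prod *
      (l.map (fun t => 1 - t * y)).prod * ZZ e l := by
  have h1 : (l ++ [y]).length = l.length + 1 := by simp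
  have h2 : 1 - x - y = 0 := by linear_combination -hxy
  rw [ZZ_cons, h1, row_last_false x y hxy, Z_append_true e y l _ (by simp [zs])]
  simp [h2, ZZ]
  ring

theorem ZZ_neg_one (e : R) (l : List R) :
    ZZ e (-1 :: l) = e * (l.map (fun t => 2 - t)).prod * ZZ e l := by
  rw [ZZ_cons]
  have : (fun t : R => 1 - -1 - t) = fun t => 2 - t := by
    funext t; ring
  rw [this]
  ring

end Pool.Agent.K7.H27.OS
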