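import Pool.Agent.K7.H27.OS.Tau

/-!
Naturality and passage to the limit where all points are zero.
-/

set_option autoImplicit false

namespace Pool.Agent.K7.H27.OS

open Polynomial Filter Topology

section nat

variable {R S : Type*} [CommRing R] [CommRing S]

theorem w_map (φ : R →+* S) (s t : R) (h v h' v' : Bool) :
    φ (w s t h v h' v') = w (φ s) (φ t) h v h' v' := by
  rcases h <;> rcases v <;> rcases h' <;> rcases v' <;> simp [w, ff]

theorem row_map (φ : R →+* S) (x : R) (l : List R) : ∀ (h : Bool) (v : List Bool)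
    (k : List Bool → R),
    φ (row x l h v k) = row (φ x) (l.map φ) h v (fun u => φ (k u)) := by
  induction l with
  | nil =>
    intro h v k
    cases v with
    | nil => simp only [row_nil, List.map_nil]; split_ifs <;> simp
    | cons a v => simp [row_nil_cons]
  | cons y l ih =>
    intro h v k
    cases v with
    | nil => simp [row_cons_nil]
    | cons a v =>
      simp only [List.map_cons, row_cons, Fintype.sum_bool, map_add, map_mul, w_map, ih]

theorem Z_map (φ : R →+* S) (e : R) (l : List R) : ∀ (v : List Bool),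
    φ (Z e l v) = Z (φ e) (l.map φ) v := by
  induction l with
  | nil =>
    intro v
    cases v with
    | nil => simp [Z_nil]
    | cons a v => simp [Z]
  | cons x l ih =>
    intro v
    cases v with
    | nil => simp [Z_cons_nil]
    | cons c v =>
      simp only [List.map_cons, Z_cons, Fintype.sum_bool, map_add, map_mul, row_map, ih]
      rcases c <;> simp [kd, ff]

theorem zz_map (φ : R →+* S) (e : ℕ) (l : List R) : φ (zz e l) = zz e (l.map φ) := by
  rw [zz, zz, ZZ, ZZ, ← coeff_map, ← coe_mapRingHom, Z_map]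
  simp [List.map_map, Function.comp_def]

end nat

/-- functions continuous at zero -/
def CA : Subring (ℂ → ℂ) where
  carrier := {f | ContinuousAt f 0}
  mul_mem' := fun ha hb => ContinuousAt.mul ha hb
  one_mem' := continuousAt_const
  add_mem' := fun ha hb => ContinuousAt.add ha hb
  zero_mem' := continuousAt_const
  neg_mem' := fun ha => ContinuousAt.neg ha

/-- evaluation -/
def evc (ε : ℂ) : CA →+* ℂ := (Pi.evalRingHom (fun _ : ℂ => ℂ) ε).comp CA.subtype

theorem evc_apply (ε : ℂ) (f : CA) : evc ε f = f.1 ε := rfl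

theorem ca_zero (D : CA) (h : ∀ᶠ ε in 𝓝[≠] (0 : ℂ), evc ε D = 0) : evc 0 D = 0 := by
  have h1 : Tendsto D.1 (𝓝[≠] (0 : ℂ)) (𝓝 (D.1 0)) := by
    have : ContinuousAt D.1 0 := D.2
    exact this.tendsto.mono_left nhdsWithin_le_nhds
  have h2 : Tendsto D.1 (𝓝[≠] (0 : ℂ)) (𝓝 0) := by
    refine (tendsto_congr' ?_).2 tendsto_const_nhds
    exact h
  exact tendsto_nhds_unique h1 h2

/-- the points -/
noncomputable def pt (p : ℂ × ℂ) (ε : ℂ) : ℂ := p.1 * ε / (1 - p.2 * ε)

theorem pt_cont (p : ℂ × ℂ) : ContinuousAt (pt p) 0 := by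
  unfold pt
  refine ContinuousAt.div ?_ ?_ (by simp)
  · fun_prop
  · fun_prop

/-- the points as continuous functions -/
noncomputable def ptc (p : ℂ × ℂ) : CA := ⟨pt p, pt_cont p⟩

theorem pt_zero (p : ℂ × ℂ) : pt p 0 = 0 := by simp [pt]

theorem ev_all {α β : Type*} {f : Filter α} (l : List β) (P : β → α → Prop)
    (h : ∀ b ∈ l, ∀ᶠ a in f, P b a) : ∀ᶠ a in f, ∀ b ∈ l, P b a := by
  induction l with
  | nil => simp
  | cons x l ih =>
    have h1 := h x (by simp)
    have h2 := ih (fun b hb => h b (by simp [hb]))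
    filter_upwards [h1, h2] with a ha hb b hb'
    rcases List.mem_cons.1 hb' with rfl | h
    · exact ha
    · exact hb b h

theorem gen_eventually (ps : List (ℂ × ℂ)) (hnd : (ps.map Prod.fst).Nodup) :
    ∀ᶠ ε in 𝓝[≠] (0 : ℂ), Gen (ps.map (fun p => pt p ε)) := by
  have hle : 𝓝[≠] (0 : ℂ) ≤ 𝓝 0 := nhdsWithin_le_nhds
  have h1 : ∀ᶠ ε in 𝓝[≠] (0 : ℂ), ∀ p ∈ ps, ∀ q ∈ ps, pt p ε * pt q ε ≠ 1 :=
    ev_all _ _ fun p _ => ev_all _ _ fun q _ =>
      hle (((pt_cont p).mul (pt_cont q)).eventually_ne (by simp [pt_zero]))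
  have h2 : ∀ᶠ ε in 𝓝[≠] (0 : ℂ), ∀ p ∈ ps, ∀ q ∈ ps, pt p ε + pt q ε ≠ 1 :=
    ev_all _ _ fun p _ => ev_all _ _ fun q _ =>
      hle (((pt_cont p).add (pt_cont q)).eventually_ne (by simp [pt_zero]))
  have h3 : ∀ᶠ ε in 𝓝[≠] (0 : ℂ), ∀ p ∈ ps, pt p ε ≠ -1 :=
    ev_all _ _ fun p _ => hle ((pt_cont p).eventually_ne (by simp [pt_zero]))
  have h4 : ∀ᶠ ε in 𝓝[≠] (0 : ℂ), ∀ p ∈ ps, pt p ε ≠ 2 :=
    ev_all _ _ fun p _ => hle ((pt_cont p).eventually_ne (by simp [pt_zero]))
  have h5 : ∀ᶠ ε in 𝓝[≠] (0 : ℂ), ∀ p ∈ ps, 1 - p.2 * ε ≠ 0 :=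
    ev_all _ _ fun p _ => hle (ContinuousAt.eventually_ne (by fun_prop) (by simp))
  have h6 : ∀ᶠ ε in 𝓝[≠] (0 : ℂ), ∀ p ∈ ps, ∀ q ∈ ps, p.1 ≠ q.1 →
      p.1 * (1 - q.2 * ε) - q.1 * (1 - p.2 * ε) ≠ 0 := by
    refine ev_all _ _ fun p _ => ev_all _ _ fun q _ => ?_
    by_cases hpq : p.1 = q.1
    · filter_upwards with ε h
      exact absurd hpq h
    · have : ∀ᶠ ε in 𝓝 (0 : ℂ), p.1 * (1 - q.2 * ε) - q.1 * (1 - p.2 * ε) ≠ 0 :=
        ContinuousAt.eventually_ne (by fun_prop) (by simpa [sub_eq_zero] using hpq)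
      filter_upwards [hle this] with ε h _
      exact h
  have h7 : ∀ᶠ ε in 𝓝[≠] (0 : ℂ), ε ≠ 0 := eventually_mem_nhdsWithin
  filter_upwards [h1, h2, h3, h4, h5, h6, h7] with ε g1 g2 g3 g4 g5 g6 g7
  refine ⟨?_, ?_, ?_, ?_, ?_⟩
  · refine List.Nodup.map_on ?_ (List.Nodup.of_map _ hnd)
    intro p hp q hq hpq
    by_contra hne
    have hne1 : p.1 ≠ q.1 := fun h => hne (List.inj_on_of_nodup_map hnd hp hq h)
    apply g6 p hp q hq hne1
    unfold pt at hpq
    rw [div_eq_div_iff (g5 p hp) (g5 q hq)] at hpq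
    apply mul_left_cancel₀ g7
    linear_combination hpq
  · intro a ha b hb
    rw [List.mem_map] at ha hb
    obtain ⟨p, hp, rfl⟩ := ha
    obtain ⟨q, hq, rfl⟩ := hb
    exact g1 p hp q hq
  · intro a ha b hb
    rw [List.mem_map] at ha hb
    obtain ⟨p, hp, rfl⟩ := ha
    obtain ⟨q, hq, rfl⟩ := hb
    exact g2 p hp q hq
  · intro a ha
    rw [List.mem_map] at ha
    obtain ⟨p, hp, rfl⟩ := ha
    exact g3 p hp
  · intro a ha
    rw [List.mem_map] at ha
    obtain ⟨p, hp, rfl⟩ := ha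
    exact g4 p hp

/-- parameters of the symmetric point set -/
noncomputable def PT : ℕ → List (ℂ × ℂ)
  | 0 => [(0, 0)]
  | (n + 1) => ((n + 1 : ℂ), 0) :: (-(n + 1 : ℂ), (n + 1 : ℂ)) :: PT n

/-- half of the symmetric point set -/
noncomputable def QT (ε : ℂ) : ℕ → List ℂ
  | 0 => []
  | (n + 1) => ((n + 1 : ℂ) * ε) :: QT ε n

theorem tp_QT (ε : ℂ) (n : ℕ) : tp (QT ε n) = (PT n).map (fun p => pt p ε) := by
  induction n with
  | zero => simp [QT, PT, tp, pt]
  | succ n ih =>
    simp only [QT, PT, tp, List.map_cons, ih, pt, tau]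
    simp
    ring

theorem PT_length (n : ℕ) : (PT n).length = 2 * n + 1 := by
  induction n with
  | zero => rfl
  | succ n ih => simp only [PT, List.length_cons, ih]; ring

theorem PT_fst (n : ℕ) : ∀ p ∈ PT n, ∃ k : ℤ, |k| ≤ n ∧ p.1 = k := by
  induction n with
  | zero =>
    intro p hp
    simp only [PT, List.mem_singleton] at hp
    subst hp
    exact ⟨0, by simp, by simp⟩
  | succ n ih =>
    intro p hp
    simp only [PT, List.mem_cons] at hp
    rcases hp with rfl | rfl | hp
    · refine ⟨n + 1, ?_, by push_cast; ring⟩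
      rw [abs_of_nonneg (by positivity)]
      push_cast
      rfl
    · refine ⟨-(n + 1), ?_, by push_cast; ring⟩
      rw [abs_neg, abs_of_nonneg (by positivity)]
      push_cast
      rfl
    · obtain ⟨k, hk, hk'⟩ := ih p hp
      exact ⟨k, hk.trans (by push_cast; omega), hk'⟩

theorem PT_nodup (n : ℕ) : ((PT n).map Prod.fst).Nodup := by
  induction n with
  | zero => simp [PT]
  | succ n ih =>
    have h0 : ∀ k : ℤ, (n : ℤ) < |k| → (k : ℂ) ∉ (PT n).map Prod.fst := by
      intro k hk h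
      rw [List.mem_map] at h
      obtain ⟨p, hp, hpk⟩ := h
      obtain ⟨j, hj, hpj⟩ := PT_fst n p hp
      rw [hpj] at hpk
      have : j = k := by exact_mod_cast hpk
      subst this
      omega
    simp only [PT, List.map_cons, List.nodup_cons, List.mem_cons, not_or]
    refine ⟨⟨?_, ?_⟩, ?_, ih⟩
    · intro h
      have h1 : ((n : ℂ) + 1) + ((n : ℂ) + 1) = 0 := by
        linear_combination h
      have h2 : (((n + 1) + (n + 1) : ℕ) : ℂ) = 0 := by push_cast; exact h1
      rw [Nat.cast_eq_zero] at h2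
      omega
    · have := h0 ((n : ℤ) + 1) (by rw [abs_of_nonneg (by positivity)]; omega)
      push_cast at this
      exact this
    · have := h0 (-((n : ℤ) + 1)) (by rw [abs_neg, abs_of_nonneg (by positivity)]; omega)
      push_cast at this
      exact this

theorem list_prod_evc {A : Type*} (ε : ℂ) (l : List A) (f : A → CA) :
    evc ε ((l.map f).prod) = (l.map (fun a => evc ε (f a))).prod := by
  rw [map_list_prod, List.map_map]
  rfl

theorem map_evc_ptc (ε : ℂ) (ps : List (ℂ × ℂ)) :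
    (ps.map ptc).map (evc ε) = ps.map (fun p => pt p ε) := by
  rw [List.map_map]
  rfl

theorem map_pt_zero (ps : List (ℂ × ℂ)) :
    ps.map (fun p => pt p 0) = List.replicate ps.length 0 := by
  induction ps with
  | nil => rfl
  | cons p ps ih => simp [ih, pt_zero, List.replicate_succ]

/-- the first relation at the homogeneous point -/
theorem rel_one (n : ℕ) :
    6 * zz 1 (List.replicate (2 * n + 1) (0 : ℂ)) =
      2 ^ (2 * n + 1) * zz 0 ((2 : ℂ) :: List.replicate (2 * n + 1) 0) := by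
  set T : List CA := (PT n).map ptc with hT
  set D : CA := 6 * zz 1 T * (T.map (fun y => (1 - 2 * y) * (1 - 2 - y))).prod -
    zz 0 (2 :: T) * (T.map (fun y => y - 2)).prod with hD
  have hev : ∀ ε : ℂ, evc ε D = 6 * zz 1 ((PT n).map (fun p => pt p ε)) *
      (((PT n).map (fun p => pt p ε)).map (fun y => (1 - 2 * y) * (1 - 2 - y))).prod -
      zz 0 (2 :: (PT n).map (fun p => pt p ε)) *
        (((PT n).map (fun p => pt p ε)).map (fun y => y - 2)).prod := by
    intro ε
    rw [hD, map_sub, map_mul, map_mul, map_mul, zz_map, zz_map, list_prod_evc, list_prod_evc,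
      List.map_cons, hT, map_evc_ptc]
    simp only [List.map_map, Function.comp_def, map_mul, map_sub, map_one, map_ofNat]
    rfl
  have h0 := ca_zero D (by
    filter_upwards [gen_eventually (PT n) (PT_nodup n)] with ε hε
    rw [hev, ← tp_QT] at *
    exact sub_eq_zero.2 (tau_identity _ hε))
  rw [hev, map_pt_zero, PT_length] at h0
  simp only [List.map_replicate, List.prod_replicate] at h0
  have h1 : ((-1 : ℂ) ^ (2 * n + 1)) = -1 := by rw [pow_succ, pow_mul]; simp
  have h2 : ((1 - 2 * (0 : ℂ)) * (1 - 2 - 0)) = -1 := by ring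
  have h3 : ((0 : ℂ) - 2) = (-1) * 2 := by ring
  rw [h2, h3, mul_pow, h1] at h0
  linear_combination -h0

end Pool.Agent.K7.H27.OS
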