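import Mathlib

/-!
A six-vertex model with rational weights for symmetric alternating sign matrices: the state sum
and its symmetry in the spectral parameters (Yang-Baxter and reflection equations).
-/

set_option autoImplicit false

namespace Pool.Agent.K7.H27.OS

variable {R : Type*} [CommRing R]

/-- the quadratic `1 - s + s^2` -/
def ff (s : R) : R := 1 - s + s ^ 2

/-- bulk weight: incoming horizontal and vertical edge `h v`, outgoing `h' v'` -/
def w (s t : R) (h v h' v' : Bool) : R :=
  match h, v, h', v' with
  | false, false, false, false => 1 - s * t
  | true, true, true, true => 1 - s * t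
  | true, false, true, false => 1 - s - t
  | false, true, false, true => 1 - s - t
  | false, false, true, true => 1
  | true, true, false, false => ff s * ff t
  | _, _, _, _ => 0

/-- boundary weight: incoming vertical edge `c`, outgoing horizontal edge `r` -/
def kd (e s : R) (c r : Bool) : R :=
  match c, r with
  | false, false => 1 + s
  | true, true => 1 + s
  | false, true => e
  | true, false => e * ff s

/-- the crossing matrix -/
def Rm (x y : R) (c d c' d' : Bool) : R :=
  match c, d, c', d' with
  | false, false, false, false => 1 - y + x * y
  | true, true, true, true => 1 - y + x * y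
  | false, true, false, true => ff x
  | true, false, true, false => ff y
  | false, true, true, false => x - y
  | true, false, false, true => x - y
  | _, _, _, _ => 0

/-- transfer along one row -/
def row (x : R) : List R → Bool → List Bool → (List Bool → R) → R
  | [], h, [], k => if h then k [] else 0
  | (y :: l), h, (v :: vs), k =>
      ∑ h' : Bool, ∑ v' : Bool, w x y h v h' v' * row x l h' vs (fun u => k (v' :: u))
  | _, _, _, _ => 0

/-- the state sum of the triangle -/
def Z (e : R) : List R → List Bool → R
  | [], [] => 1
  | (x :: l), (c :: v) => ∑ r : Bool, kd e x c r * row x l r v (Z e l)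
  | _, _ => 0

theorem row_nil (x : R) (h : Bool) (k : List Bool → R) :
    row x [] h [] k = if h then k [] else 0 := by rw [row]

theorem row_cons (x y : R) (l : List R) (h v : Bool) (vs : List Bool) (k : List Bool → R) :
    row x (y :: l) h (v :: vs) k =
      ∑ h' : Bool, ∑ v' : Bool, w x y h v h' v' * row x l h' vs (fun u => k (v' :: u)) := by
  rw [row]

theorem row_cons_nil (x y : R) (l : List R) (h : Bool) (k : List Bool → R) :
    row x (y :: l) h [] k = 0 := by
  rw [row] <;> simp

theorem row_nil_cons (x : R) (h v : Bool) (vs : List Bool) (k : List Bool → R) :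
    row x [] h (v :: vs) k = 0 := by
  rw [row] <;> simp

theorem Z_nil (e : R) : Z e [] [] = 1 := by rw [Z]

theorem Z_cons (e x : R) (l : List R) (c : Bool) (v : List Bool) :
    Z e (x :: l) (c :: v) = ∑ r : Bool, kd e x c r * row x l r v (Z e l) := by rw [Z]

theorem Z_cons_nil (e x : R) (l : List R) : Z e (x :: l) [] = 0 := by
  rw [Z] <;> simp

theorem row_zero (x : R) (l : List R) : ∀ (h : Bool) (v : List Bool),
    row x l h v (fun _ => 0) = 0 := by
  induction l with
  | nil =>
    intro h v
    cases v with
    | nil => simp [row_nil]
    | cons a v => rw [row_nil_cons]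
  | cons y l ih =>
    intro h v
    cases v with
    | nil => rw [row_cons_nil]
    | cons a v => simp [row_cons, ih]

theorem row_add (x : R) (l : List R) : ∀ (h : Bool) (v : List Bool) (k k' : List Bool → R),
    row x l h v (fun u => k u + k' u) = row x l h v k + row x l h v k' := by
  induction l with
  | nil =>
    intro h v k k'
    cases v with
    | nil => simp only [row_nil]; split_ifs <;> simp
    | cons a v => simp [row_nil_cons]
  | cons y l ih =>
    intro h v k k'
    cases v with
    | nil => simp [row_cons_nil]
    | cons a v =>
      simp only [row_cons, Fintype.sum_bool, ih]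
      ring

theorem row_mul (x : R) (l : List R) : ∀ (h : Bool) (v : List Bool) (a : R) (k : List Bool → R),
    row x l h v (fun u => a * k u) = a * row x l h v k := by
  induction l with
  | nil =>
    intro h v a k
    cases v with
    | nil => simp only [row_nil]; split_ifs <;> simp
    | cons b v => simp [row_nil_cons]
  | cons y l ih =>
    intro h v a k
    cases v with
    | nil => simp [row_cons_nil]
    | cons b v =>
      simp only [row_cons, Fintype.sum_bool, ih]
      ring

/-- Yang-Baxter equation -/
theorem ybe (x y p : R) (h c d h' c' d' : Bool) :
    ∑ a : Bool, ∑ b : Bool, ∑ g : Bool, Rm x y c d a b * w p x h a g c' * w p y g b h' d' =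
    ∑ a : Bool, ∑ b : Bool, ∑ g : Bool, w p y h c g a * w p x g d h' b * Rm x y a b c' d' := by
  rcases h <;> rcases c <;> rcases d <;> rcases h' <;> rcases c' <;> rcases d' <;>
    simp only [Fintype.sum_bool, Rm, w, ff] <;> ring

/-- reflection equation -/
theorem refl (e x y : R) (c d g1 g2 : Bool) :
    ∑ a : Bool, ∑ b : Bool, ∑ r : Bool, ∑ s : Bool,
      Rm x y c d a b * kd e x a r * w x y r b g1 s * kd e y s g2 =
    ∑ r : Bool, ∑ s : Bool, ∑ a : Bool, ∑ b : Bool,
      kd e y c r * w y x r d a s * kd e x s b * Rm x y a b g1 g2 := by
  rcases c <;> rcases d <;> rcases g1 <;> rcases g2 <;>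
    simp only [Fintype.sum_bool, Rm, w, kd, ff] <;> ring

theorem w_symm (s t : R) (h v h' v' : Bool) : w s t h v h' v' = w t s v h v' h' := by
  rcases h <;> rcases v <;> rcases h' <;> rcases v' <;> simp only [w] <;> ring

end Pool.Agent.K7.H27.OS
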