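import Mathlib

/-!
Polynomials with few terms and a high order zero at 1.
-/

set_option autoImplicit false

namespace Pool.Agent.K7.H27.OS

open Polynomial

/-- moments -/
noncomputable def Mo (D r : ℕ) (F : ℂ[X]) : ℂ := ∑ m ∈ Finset.range D, F.coeff m * (m : ℂ) ^ r

theorem coeff_theta (F : ℂ[X]) (m : ℕ) : (X * derivative F).coeff m = m * F.coeff m := by
  cases m with
  | zero => simp
  | succ m =>
    rw [coeff_X_mul, coeff_derivative]
    push_cast
    ring

theorem Mo_succ (D r : ℕ) (F : ℂ[X]) : Mo D (r + 1) F = Mo D r (X * derivative F) := by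
  unfold Mo
  refine Finset.sum_congr rfl fun m _ => ?_
  rw [coeff_theta, pow_succ]
  ring

theorem Mo_zero (D : ℕ) (F : ℂ[X]) (h : F.natDegree < D) : Mo D 0 F = F.eval 1 := by
  unfold Mo
  rw [eval_eq_sum_range' h]
  simp

theorem theta_deg (F : ℂ[X]) : (X * derivative F).natDegree ≤ F.natDegree := by
  rw [natDegree_le_iff_coeff_eq_zero]
  intro N hN
  rw [coeff_theta, coeff_eq_zero_of_natDegree_lt hN, mul_zero]

theorem theta_mul (K : ℕ) (A : ℂ[X]) :
    X * derivative ((X - 1) ^ (K + 1) * A) =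
      (X - 1) ^ K * (X * (C ((K : ℂ) + 1) * A + (X - 1) * derivative A)) := by
  rw [derivative_mul, derivative_pow]
  simp only [derivative_sub, derivative_X, derivative_one, sub_zero, mul_one,
    Nat.add_sub_cancel, Nat.cast_add, Nat.cast_one, C_add, C_1]
  have : (C (K : ℂ) : ℂ[X]) = (K : ℂ[X]) := by simp
  rw [this]
  ring

theorem Mo_vanish (D : ℕ) : ∀ (r K : ℕ) (A : ℂ[X]), r < K →
    ((X - 1) ^ K * A).natDegree < D → Mo D r ((X - 1) ^ K * A) = 0 := by
  intro r
  induction r with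
  | zero =>
    intro K A hK hD
    rw [Mo_zero D _ hD]
    obtain ⟨K, rfl⟩ : ∃ K', K = K' + 1 := ⟨K - 1, by omega⟩
    simp [pow_succ]
  | succ r ih =>
    intro K A hK hD
    obtain ⟨K, rfl⟩ : ∃ K', K = K' + 1 := ⟨K - 1, by omega⟩
    rw [Mo_succ, theta_mul]
    refine ih K _ (by omega) ?_
    rw [← theta_mul]
    exact (theta_deg _).trans_lt hD

theorem Mo_top (D : ℕ) : ∀ (K : ℕ) (A : ℂ[X]),
    ((X - 1) ^ K * A).natDegree < D → Mo D K ((X - 1) ^ K * A) = (K.factorial : ℂ) * A.eval 1 := by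
  intro K
  induction K with
  | zero =>
    intro A hD
    rw [Mo_zero D _ hD]
    simp
  | succ K ih =>
    intro A hD
    rw [Mo_succ, theta_mul, ih _ (by rw [← theta_mul]; exact (theta_deg _).trans_lt hD)]
    rw [Nat.factorial_succ]
    simp
    ring

theorem Mo_monic (D K : ℕ) (A q : ℂ[X]) (hq : q.Monic) (hqd : q.natDegree = K)
    (hD : ((X - 1) ^ K * A).natDegree < D) :
    ∑ m ∈ Finset.range D, ((X - 1) ^ K * A).coeff m * q.eval (m : ℂ) =
      (K.factorial : ℂ) * A.eval 1 := by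
  have h1 : ∀ m : ℕ, q.eval (m : ℂ) = ∑ r ∈ Finset.range (K + 1), q.coeff r * (m : ℂ) ^ r :=
    fun m => eval_eq_sum_range' (by omega) _
  have h2 : ∑ m ∈ Finset.range D, ((X - 1) ^ K * A).coeff m * q.eval (m : ℂ) =
      ∑ r ∈ Finset.range (K + 1), q.coeff r * Mo D r ((X - 1) ^ K * A) := by
    simp only [h1, Mo, Finset.mul_sum]
    rw [Finset.sum_comm]
    refine Finset.sum_congr rfl fun r _ => Finset.sum_congr rfl fun m _ => ?_
    ring
  rw [h2, Finset.sum_range_succ, Finset.sum_eq_zero, zero_add, Mo_top D K A hD]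
  · have : q.coeff K = 1 := by
      rw [← hqd]
      exact hq
    rw [this, one_mul]
  · intro r hr
    rw [Mo_vanish D r K A (Finset.mem_range.1 hr) hD, mul_zero]

theorem sum_range_three (n : ℕ) (f : ℕ → ℂ) : ∑ m ∈ Finset.range (3 * n), f m =
    ∑ i ∈ Finset.range n, (f (3 * i) + f (3 * i + 1) + f (3 * i + 2)) := by
  induction n with
  | zero => simp
  | succ n ih =>
    rw [Finset.sum_range_succ _ n, ← ih, show 3 * (n + 1) = 3 * n + 1 + 1 + 1 by ring,
      Finset.sum_range_succ, Finset.sum_range_succ, Finset.sum_range_succ]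
    ring

/-- products of the numbers `3 j + 4` -/
noncomputable def Apr (k : ℕ) : ℂ := ∏ j ∈ Finset.range k, (3 * (j : ℂ) + 4)

/-- products of the numbers `3 j + 2` -/
noncomputable def Bpr (k : ℕ) : ℂ := ∏ j ∈ Finset.range k, (3 * (j : ℂ) + 2)

theorem prod_refl (k : ℕ) (g : ℕ → ℂ) :
    ∏ i ∈ Finset.range k, g (k - i) = ∏ j ∈ Finset.range k, g (j + 1) := by
  rw [← Finset.prod_range_reflect]
  refine Finset.prod_congr rfl fun i hi => ?_
  rw [Finset.mem_range] at hi
  congr 1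
  omega

theorem prod_fact (k : ℕ) : ∏ j ∈ Finset.range k, ((j : ℂ) + 1) = (k.factorial : ℂ) := by
  rw [← Finset.prod_range_add_one_eq_factorial]
  push_cast
  rfl

/-- first coefficient formula -/
theorem coef_one (N i0 j0 : ℕ) (h : i0 + j0 = N) (A : ℂ[X])
    (hD : ((X - 1) ^ (2 * N + 1) * A).natDegree < 3 * (N + 1))
    (h0 : ∀ k, ((X - 1) ^ (2 * N + 1) * A).coeff (3 * k) = 0) :
    ((X - 1) ^ (2 * N + 1) * A).coeff (3 * i0 + 1) *
      (-(3 ^ N * (i0.factorial : ℂ) * (j0.factorial : ℂ) * Bpr i0 * Apr j0)) =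
      ((2 * N + 1).factorial : ℂ) * A.eval 1 := by
  set q : ℂ[X] := (∏ i ∈ Finset.range i0, (X - C (3 * (i : ℂ) + 1))) *
    (∏ j ∈ Finset.range j0, (X - C (3 * ((i0 + 1 + j : ℕ) : ℂ) + 1))) *
    (∏ i ∈ Finset.range (N + 1), (X - C (3 * (i : ℂ) + 2))) with hq
  have hm1 : (∏ i ∈ Finset.range i0, (X - C (3 * (i : ℂ) + 1))).Monic :=
    monic_prod_of_monic _ _ fun i _ => monic_X_sub_C _
  have hm2 : (∏ j ∈ Finset.range j0, (X - C (3 * ((i0 + 1 + j : ℕ) : ℂ) + 1))).Monic :=
    monic_prod_of_monic _ _ fun i _ => monic_X_sub_C _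
  have hm3 : (∏ i ∈ Finset.range (N + 1), (X - C (3 * (i : ℂ) + 2))).Monic :=
    monic_prod_of_monic _ _ fun i _ => monic_X_sub_C _
  have hqm : q.Monic := (hm1.mul hm2).mul hm3
  have hqd : q.natDegree = 2 * N + 1 := by
    rw [hq, (hm1.mul hm2).natDegree_mul hm3, hm1.natDegree_mul hm2,
      natDegree_prod_of_monic _ _ (fun i _ => monic_X_sub_C _),
      natDegree_prod_of_monic _ _ (fun i _ => monic_X_sub_C _),
      natDegree_prod_of_monic _ _ (fun i _ => monic_X_sub_C _)]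
    simp only [natDegree_X_sub_C, Finset.sum_const, Finset.card_range, smul_eq_mul, mul_one]
    omega
  have hmain := Mo_monic (3 * (N + 1)) (2 * N + 1) A q hqm hqd hD
  rw [sum_range_three] at hmain
  have hev : ∀ x : ℂ, q.eval x = (∏ i ∈ Finset.range i0, (x - (3 * (i : ℂ) + 1))) *
    (∏ j ∈ Finset.range j0, (x - (3 * ((i0 + 1 + j : ℕ) : ℂ) + 1))) *
    (∏ i ∈ Finset.range (N + 1), (x - (3 * (i : ℂ) + 2))) := by
    intro x
    rw [hq, eval_mul, eval_mul, eval_prod, eval_prod, eval_prod]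
    simp only [eval_sub, eval_X, eval_C]
  have h2 : ∀ i ∈ Finset.range (N + 1), q.eval (((3 * i + 2 : ℕ)) : ℂ) = 0 := by
    intro i hi
    rw [hev]
    have : ∏ i' ∈ Finset.range (N + 1), (((3 * i + 2 : ℕ) : ℂ) - (3 * (i' : ℂ) + 2)) = 0 :=
      Finset.prod_eq_zero hi (by push_cast; ring)
    rw [this, mul_zero]
  have h1 : ∀ i ∈ Finset.range (N + 1), i ≠ i0 → q.eval (((3 * i + 1 : ℕ)) : ℂ) = 0 := by
    intro i hi hne
    rw [hev]
    rw [Finset.mem_range] at hi
    rcases lt_or_gt_of_ne hne with hlt | hgt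
    · have : ∏ i' ∈ Finset.range i0, (((3 * i + 1 : ℕ) : ℂ) - (3 * (i' : ℂ) + 1)) = 0 :=
        Finset.prod_eq_zero (Finset.mem_range.2 hlt) (by push_cast; ring)
      rw [this]
      ring
    · have : ∏ j ∈ Finset.range j0,
          (((3 * i + 1 : ℕ) : ℂ) - (3 * ((i0 + 1 + j : ℕ) : ℂ) + 1)) = 0 := by
        refine Finset.prod_eq_zero (i := i - i0 - 1) (Finset.mem_range.2 (by omega)) ?_
        have : i0 + 1 + (i - i0 - 1) = i := by omega
        rw [this]
        push_cast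
        ring
      rw [this]
      ring
  rw [Finset.sum_eq_single i0] at hmain
  · rw [h0, h2 i0 (Finset.mem_range.2 (by omega)), mul_zero, add_zero, zero_mul, zero_add] at hmain
    rw [← hmain]
    congr 1
    rw [hev]
    -- evaluate the three products
    have p1 : ∏ i ∈ Finset.range i0, (((3 * i0 + 1 : ℕ) : ℂ) - (3 * (i : ℂ) + 1)) =
        3 ^ i0 * (i0.factorial : ℂ) := by
      have : ∏ i ∈ Finset.range i0, (((3 * i0 + 1 : ℕ) : ℂ) - (3 * (i : ℂ) + 1)) =
          ∏ i ∈ Finset.range i0, (fun k : ℕ => 3 * (k : ℂ)) (i0 - i) := by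
        refine Finset.prod_congr rfl fun i hi => ?_
        rw [Finset.mem_range] at hi
        simp only
        rw [Nat.cast_sub hi.le]
        push_cast
        ring
      rw [this, prod_refl i0 (fun k : ℕ => 3 * (k : ℂ)), Finset.prod_mul_distrib,
        Finset.prod_const, Finset.card_range, ← prod_fact]
      push_cast
      rfl
    have p2 : ∏ j ∈ Finset.range j0,
        (((3 * i0 + 1 : ℕ) : ℂ) - (3 * ((i0 + 1 + j : ℕ) : ℂ) + 1)) =
        (-3) ^ j0 * (j0.factorial : ℂ) := by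
      rw [← prod_fact]
      have : ((-3 : ℂ)) ^ j0 = ∏ j ∈ Finset.range j0, (-3 : ℂ) := by simp
      rw [this, ← Finset.prod_mul_distrib]
      refine Finset.prod_congr rfl fun j _ => ?_
      push_cast
      ring
    have p3 : ∏ i ∈ Finset.range (N + 1), (((3 * i0 + 1 : ℕ) : ℂ) - (3 * (i : ℂ) + 2)) =
        Bpr i0 * (-1) * ((-1) ^ j0 * Apr j0) := by
      have hN : N + 1 = (i0 + 1) + j0 := by omega
      rw [hN, Finset.prod_range_add, Finset.prod_range_succ]
      congr 1
      · congr 1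
        · have : ∏ i ∈ Finset.range i0, (((3 * i0 + 1 : ℕ) : ℂ) - (3 * (i : ℂ) + 2)) =
              ∏ i ∈ Finset.range i0, (fun k : ℕ => 3 * (k : ℂ) - 1) (i0 - i) := by
            refine Finset.prod_congr rfl fun i hi => ?_
            rw [Finset.mem_range] at hi
            simp only
            rw [Nat.cast_sub hi.le]
            push_cast
            ring
          rw [this, prod_refl i0 (fun k : ℕ => 3 * (k : ℂ) - 1), Bpr]
          refine Finset.prod_congr rfl fun i _ => ?_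
          push_cast
          ring
        · push_cast
          ring
      · have : ((-1 : ℂ)) ^ j0 = ∏ j ∈ Finset.range j0, (-1 : ℂ) := by simp
        rw [this, Apr, ← Finset.prod_mul_distrib]
        refine Finset.prod_congr rfl fun j _ => ?_
        push_cast
        ring
    rw [p1, p2, p3]
    have e1 : ((-3 : ℂ)) ^ j0 = (-1) ^ j0 * 3 ^ j0 := by rw [← mul_pow]; norm_num
    have e2 : ((-1 : ℂ)) ^ j0 * (-1) ^ j0 = 1 := by rw [← mul_pow]; norm_num
    have e3 : (3 : ℂ) ^ N = 3 ^ i0 * 3 ^ j0 := by rw [← pow_add, h]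
    rw [e1, e3]
    linear_combination (3 ^ i0 * 3 ^ j0 * (i0.factorial : ℂ) * (j0.factorial : ℂ) * Bpr i0 *
      Apr j0) * e2
  · intro i hi hne
    rw [h0, h2 i hi, h1 i hi hne]
    ring
  · intro hi
    exact absurd (Finset.mem_range.2 (by omega)) hi

/-- second coefficient formula -/
theorem coef_two (N i0 j0 : ℕ) (h : i0 + j0 = N) (A : ℂ[X])
    (hD : ((X - 1) ^ (2 * N + 1) * A).natDegree < 3 * (N + 1))
    (h0 : ∀ k, ((X - 1) ^ (2 * N + 1) * A).coeff (3 * k) = 0) :
    ((X - 1) ^ (2 * N + 1) * A).coeff (3 * i0 + 2) *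
      (3 ^ N * (i0.factorial : ℂ) * (j0.factorial : ℂ) * Apr i0 * Bpr j0) =
      ((2 * N + 1).factorial : ℂ) * A.eval 1 := by
  set q : ℂ[X] := (∏ i ∈ Finset.range i0, (X - C (3 * (i : ℂ) + 2))) *
    (∏ j ∈ Finset.range j0, (X - C (3 * ((i0 + 1 + j : ℕ) : ℂ) + 2))) *
    (∏ i ∈ Finset.range (N + 1), (X - C (3 * (i : ℂ) + 1))) with hq
  have hm1 : (∏ i ∈ Finset.range i0, (X - C (3 * (i : ℂ) + 2))).Monic :=
    monic_prod_of_monic _ _ fun i _ => monic_X_sub_C _
  have hm2 : (∏ j ∈ Finset.range j0, (X - C (3 * ((i0 + 1 + j : ℕ) : ℂ) + 2))).Monic :=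
    monic_prod_of_monic _ _ fun i _ => monic_X_sub_C _
  have hm3 : (∏ i ∈ Finset.range (N + 1), (X - C (3 * (i : ℂ) + 1))).Monic :=
    monic_prod_of_monic _ _ fun i _ => monic_X_sub_C _
  have hqm : q.Monic := (hm1.mul hm2).mul hm3
  have hqd : q.natDegree = 2 * N + 1 := by
    rw [hq, (hm1.mul hm2).natDegree_mul hm3, hm1.natDegree_mul hm2,
      natDegree_prod_of_monic _ _ (fun i _ => monic_X_sub_C _),
      natDegree_prod_of_monic _ _ (fun i _ => monic_X_sub_C _),
      natDegree_prod_of_monic _ _ (fun i _ => monic_X_sub_C _)]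
    simp only [natDegree_X_sub_C, Finset.sum_const, Finset.card_range, smul_eq_mul, mul_one]
    omega
  have hmain := Mo_monic (3 * (N + 1)) (2 * N + 1) A q hqm hqd hD
  rw [sum_range_three] at hmain
  have hev : ∀ x : ℂ, q.eval x = (∏ i ∈ Finset.range i0, (x - (3 * (i : ℂ) + 2))) *
    (∏ j ∈ Finset.range j0, (x - (3 * ((i0 + 1 + j : ℕ) : ℂ) + 2))) *
    (∏ i ∈ Finset.range (N + 1), (x - (3 * (i : ℂ) + 1))) := by
    intro x
    rw [hq, eval_mul, eval_mul, eval_prod, eval_prod, eval_prod]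
    simp only [eval_sub, eval_X, eval_C]
  have h2 : ∀ i ∈ Finset.range (N + 1), q.eval (((3 * i + 1 : ℕ)) : ℂ) = 0 := by
    intro i hi
    rw [hev]
    have : ∏ i' ∈ Finset.range (N + 1), (((3 * i + 1 : ℕ) : ℂ) - (3 * (i' : ℂ) + 1)) = 0 :=
      Finset.prod_eq_zero hi (by push_cast; ring)
    rw [this, mul_zero]
  have h1 : ∀ i ∈ Finset.range (N + 1), i ≠ i0 → q.eval (((3 * i + 2 : ℕ)) : ℂ) = 0 := by
    intro i hi hne
    rw [hev]
    rw [Finset.mem_range] at hi
    rcases lt_or_gt_of_ne hne with hlt | hgt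
    · have : ∏ i' ∈ Finset.range i0, (((3 * i + 2 : ℕ) : ℂ) - (3 * (i' : ℂ) + 2)) = 0 :=
        Finset.prod_eq_zero (Finset.mem_range.2 hlt) (by push_cast; ring)
      rw [this]
      ring
    · have : ∏ j ∈ Finset.range j0,
          (((3 * i + 2 : ℕ) : ℂ) - (3 * ((i0 + 1 + j : ℕ) : ℂ) + 2)) = 0 := by
        refine Finset.prod_eq_zero (i := i - i0 - 1) (Finset.mem_range.2 (by omega)) ?_
        have : i0 + 1 + (i - i0 - 1) = i := by omega
        rw [this]
        push_cast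
        ring
      rw [this]
      ring
  rw [Finset.sum_eq_single i0] at hmain
  · rw [h0, h2 i0 (Finset.mem_range.2 (by omega)), mul_zero, add_zero, zero_mul, zero_add] at hmain
    rw [← hmain]
    congr 1
    rw [hev]
    -- evaluate the three products
    have p1 : ∏ i ∈ Finset.range i0, (((3 * i0 + 2 : ℕ) : ℂ) - (3 * (i : ℂ) + 2)) =
        3 ^ i0 * (i0.factorial : ℂ) := by
      have : ∏ i ∈ Finset.range i0, (((3 * i0 + 2 : ℕ) : ℂ) - (3 * (i : ℂ) + 2)) =
          ∏ i ∈ Finset.range i0, (fun k : ℕ => 3 * (k : ℂ)) (i0 - i) := by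
        refine Finset.prod_congr rfl fun i hi => ?_
        rw [Finset.mem_range] at hi
        simp only
        rw [Nat.cast_sub hi.le]
        push_cast
        ring
      rw [this, prod_refl i0 (fun k : ℕ => 3 * (k : ℂ)), Finset.prod_mul_distrib,
        Finset.prod_const, Finset.card_range, ← prod_fact]
      push_cast
      rfl
    have p2 : ∏ j ∈ Finset.range j0,
        (((3 * i0 + 2 : ℕ) : ℂ) - (3 * ((i0 + 1 + j : ℕ) : ℂ) + 2)) =
        (-3) ^ j0 * (j0.factorial : ℂ) := by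
      rw [← prod_fact]
      have : ((-3 : ℂ)) ^ j0 = ∏ j ∈ Finset.range j0, (-3 : ℂ) := by simp
      rw [this, ← Finset.prod_mul_distrib]
      refine Finset.prod_congr rfl fun j _ => ?_
      push_cast
      ring
    have p3 : ∏ i ∈ Finset.range (N + 1), (((3 * i0 + 2 : ℕ) : ℂ) - (3 * (i : ℂ) + 1)) =
        Apr i0 * ((-1) ^ j0 * Bpr j0) := by
      have hN : N + 1 = (i0 + 1) + j0 := by omega
      rw [hN, Finset.prod_range_add, Finset.prod_range_succ]
      congr 1
      · have e0 : (((3 * i0 + 2 : ℕ) : ℂ) - (3 * (i0 : ℂ) + 1)) = 1 := by push_cast; ring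
        rw [e0, mul_one]
        have : ∏ i ∈ Finset.range i0, (((3 * i0 + 2 : ℕ) : ℂ) - (3 * (i : ℂ) + 1)) =
              ∏ i ∈ Finset.range i0, (fun k : ℕ => 3 * (k : ℂ) + 1) (i0 - i) := by
            refine Finset.prod_congr rfl fun i hi => ?_
            rw [Finset.mem_range] at hi
            simp only
            rw [Nat.cast_sub hi.le]
            push_cast
            ring
        rw [this, prod_refl i0 (fun k : ℕ => 3 * (k : ℂ) + 1), Apr]
        refine Finset.prod_congr rfl fun i _ => ?_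
        push_cast
        ring
      · have : ((-1 : ℂ)) ^ j0 = ∏ j ∈ Finset.range j0, (-1 : ℂ) := by simp
        rw [this, Bpr, ← Finset.prod_mul_distrib]
        refine Finset.prod_congr rfl fun j _ => ?_
        push_cast
        ring
    rw [p1, p2, p3]
    have e1 : ((-3 : ℂ)) ^ j0 = (-1) ^ j0 * 3 ^ j0 := by rw [← mul_pow]; norm_num
    have e2 : ((-1 : ℂ)) ^ j0 * (-1) ^ j0 = 1 := by rw [← mul_pow]; norm_num
    have e3 : (3 : ℂ) ^ N = 3 ^ i0 * 3 ^ j0 := by rw [← pow_add, h]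
    rw [e1, e3]
    linear_combination (-(3 ^ i0 * 3 ^ j0 * (i0.factorial : ℂ) * (j0.factorial : ℂ) * Apr i0 *
      Bpr j0)) * e2
  · intro i hi hne
    rw [h0, h2 i hi, h1 i hi hne]
    ring
  · intro hi
    exact absurd (Finset.mem_range.2 (by omega)) hi

end Pool.Agent.K7.H27.OS
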