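import Mathlib

/-!
Alternating expansions along lists and Pfaffians of lists.
-/

set_option autoImplicit false

namespace Pool.Agent.K7.H27.OS

section EX

variable {A : Type*} {R : Type*} [AddCommGroup R]

/-- alternating expansion of a list: the sum over all elements `z` of the list, with the sign of
the position of `z`, of `h z r` where `r` is the list without `z` -/
def EX : (A → List A → R) → List A → R
  | _, [] => 0
  | h, (z :: l) => h z l - EX (fun z' r => h z' (z :: r)) l

theorem EX_nil (h : A → List A → R) : EX h [] = 0 := by rw [EX]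

theorem EX_cons (h : A → List A → R) (z : A) (l : List A) :
    EX h (z :: l) = h z l - EX (fun z' r => h z' (z :: r)) l := by rw [EX]

theorem EX_add (l : List A) : ∀ (h h' : A → List A → R),
    EX (fun z r => h z r + h' z r) l = EX h l + EX h' l := by
  induction l with
  | nil => intro h h'; simp [EX_nil]
  | cons z l ih =>
    intro h h'
    simp only [EX_cons, ih]
    abel

theorem EX_sub (l : List A) : ∀ (h h' : A → List A → R),
    EX (fun z r => h z r - h' z r) l = EX h l - EX h' l := by
  induction l with
  | nil => intro h h'; simp [EX_nil]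
  | cons z l ih =>
    intro h h'
    simp only [EX_cons, ih]
    abel

theorem EX_neg (l : List A) : ∀ (h : A → List A → R),
    EX (fun z r => - h z r) l = - EX h l := by
  induction l with
  | nil => intro h; simp [EX_nil]
  | cons z l ih =>
    intro h
    simp only [EX_cons, ih]
    abel

theorem EX_mem (S : AddSubgroup R) (l : List A) : ∀ (h : A → List A → R),
    (∀ z r, (z :: r).Perm l → h z r ∈ S) → EX h l ∈ S := by
  induction l with
  | nil => intro h _; rw [EX_nil]; exact S.zero_mem
  | cons z l ih =>
    intro h hh
    rw [EX_cons]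
    refine S.sub_mem (hh z l (List.Perm.refl _)) (ih _ fun z' r hr => hh z' (z :: r) ?_)
    exact (List.Perm.swap z z' r).trans (hr.cons z)

theorem EX_congr (l : List A) (h h' : A → List A → R)
    (hh : ∀ z r, (z :: r).Perm l → h z r = h' z r) : EX h l = EX h' l := by
  have h1 : EX (fun z r => h z r - h' z r) l ∈ (⊥ : AddSubgroup R) :=
    EX_mem ⊥ l _ fun z r hr => by rw [hh z r hr, sub_self]; exact AddSubgroup.zero_mem _
  rw [EX_sub, AddSubgroup.mem_bot, sub_eq_zero] at h1
  exact h1

theorem EX_zero (l : List A) (h : A → List A → R)
    (hh : ∀ z r, (z :: r).Perm l → h z r = 0) : EX h l = 0 := by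
  have h1 : EX h l ∈ (⊥ : AddSubgroup R) :=
    EX_mem ⊥ l _ fun z r hr => by rw [hh z r hr]; exact AddSubgroup.zero_mem _
  simpa using h1

theorem EX_map {S : Type*} [AddCommGroup S] (f : R →+ S) (l : List A) :
    ∀ (h : A → List A → R), f (EX h l) = EX (fun z r => f (h z r)) l := by
  induction l with
  | nil => intro h; simp [EX_nil]
  | cons z l ih =>
    intro h
    simp only [EX_cons, map_sub, ih]

/-- the expansion of a mapped list -/
theorem EX_map_list {B : Type*} (g : B → A) (l : List B) : ∀ (h : A → List A → R),
    EX h (l.map g) = EX (fun z r => h (g z) (r.map g)) l := by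
  induction l with
  | nil => intro h; simp [EX_nil]
  | cons z l ih =>
    intro h
    simp only [List.map_cons, EX_cons, ih]

/-- expansion of a list with a last element -/
theorem EX_concat (l : List A) (y : A) : ∀ (h : A → List A → R),
    EX h (l ++ [y]) = EX (fun z r => h z (r ++ [y])) l + (-1 : ℤ) ^ l.length • h y l := by
  induction l with
  | nil => intro h; simp [EX_nil, EX_cons]
  | cons z l ih =>
    intro h
    simp only [List.cons_append, EX_cons, ih, List.length_cons, pow_succ]
    simp only [mul_neg, mul_one, neg_smul]
    abel

theorem EX_double (l : List A) : ∀ (h : A → A → List A → R),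
    EX (fun z r => EX (fun z' r' => h z z' r') r) l +
      EX (fun z r => EX (fun z' r' => h z' z r') r) l = 0 := by
  induction l with
  | nil => intro h; simp [EX_nil]
  | cons z0 l ih =>
    intro h
    have := ih (fun z z' r => h z z' (z0 :: r))
    simp only [EX_cons, EX_sub]
    rw [← this]
    abel

/-- alternating functions of lists -/
def Alt (g : List A → R) : Prop := ∀ (P : List A) (x y : A) (Q : List A),
  g (P ++ x :: y :: Q) = - g (P ++ y :: x :: Q)

theorem Alt.cons {g : List A → R} (hg : Alt g) (z : A) : Alt (fun l => g (z :: l)) := by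
  intro P x y Q
  exact hg (z :: P) x y Q

theorem Alt.EX (P : List A) : ∀ {h : A → List A → R} (_ : ∀ z, Alt (h z)) (x y : A) (Q : List A),
    OS.EX h (P ++ x :: y :: Q) = - OS.EX h (P ++ y :: x :: Q) := by
  induction P with
  | nil =>
    intro h hh x y Q
    simp only [List.nil_append, EX_cons]
    have h1 : OS.EX (fun z r => h z (x :: y :: r)) Q = - OS.EX (fun z r => h z (y :: x :: r)) Q := by
      rw [← EX_neg]
      exact EX_congr _ _ _ fun z r _ => hh z [] x y r
    rw [h1]
    abel
  | cons p P ih =>
    intro h hh x y Q
    simp only [List.cons_append, EX_cons]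
    rw [hh p P x y Q, ih (fun z => (hh z).cons p) x y Q]
    abel

theorem Alt.move {g : List A → R} (hg : Alt g) (z : A) (Q : List A) : ∀ (P : List A),
    g (P ++ z :: Q) = (-1 : ℤ) ^ P.length • g (z :: (P ++ Q)) := by
  intro P
  induction P generalizing g with
  | nil => simp
  | cons p P ih =>
    have h1 := ih (hg.cons p)
    have h2 : g (p :: z :: (P ++ Q)) = - g (z :: p :: (P ++ Q)) := hg [] p z (P ++ Q)
    simp only [List.cons_append, List.length_cons, pow_succ]
    rw [h1, h2]
    simp

end EX

section Pf

variable {A : Type*} {F : Type*} [Field F]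

/-- Pfaffian of a kernel on a list with `2 m` elements -/
def pf (K : A → A → F) : ℕ → List A → F
  | 0, [] => 1
  | 0, (_ :: _) => 0
  | (_ + 1), [] => 0
  | (m + 1), (x :: l) => EX (fun z r => K x z * pf K m r) l

theorem pf_zero_nil (K : A → A → F) : pf K 0 [] = 1 := by rw [pf]

theorem pf_zero_cons (K : A → A → F) (x : A) (l : List A) : pf K 0 (x :: l) = 0 := by rw [pf]

theorem pf_succ_nil (K : A → A → F) (m : ℕ) : pf K (m + 1) [] = 0 := by rw [pf]

theorem pf_succ_cons (K : A → A → F) (m : ℕ) (x : A) (l : List A) :
    pf K (m + 1) (x :: l) = EX (fun z r => K x z * pf K m r) l := by rw [pf]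

theorem EX_mul (a : F) (l : List A) : ∀ (h : A → List A → F),
    EX (fun z r => a * h z r) l = a * EX h l := by
  induction l with
  | nil => intro h; simp [EX_nil]
  | cons z l ih =>
    intro h
    simp only [EX_cons, ih]
    ring

theorem Alt.mul_left {g : List A → F} (hg : Alt g) (a : F) : Alt (fun l => a * g l) := by
  intro P x y Q
  simp only
  rw [hg P x y Q]
  ring

theorem pf_alt (K : A → A → F) (hK : ∀ x y, K x y = - K y x) : ∀ m, Alt (pf K m) := by
  intro m
  induction m with
  | zero =>
    intro P x y Q
    cases P <;> simp [pf_zero_cons]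
  | succ m ih =>
    intro P x y Q
    cases P with
    | cons p P =>
      simp only [List.cons_append, pf_succ_cons]
      exact Alt.EX P (fun z => ih.mul_left _) x y Q
    | nil =>
      simp only [List.nil_append, pf_succ_cons, EX_cons]
      have h1 : EX (fun z r => K x z * pf K m (y :: r)) Q +
          EX (fun z r => K y z * pf K m (x :: r)) Q = 0 := by
        cases m with
        | zero =>
          rw [EX_zero Q _ (fun z r _ => by rw [pf_zero_cons, mul_zero]),
            EX_zero Q _ (fun z r _ => by rw [pf_zero_cons, mul_zero]), add_zero]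
        | succ m =>
          have := EX_double Q (fun z z' r => K x z * (K y z' * pf K m r))
          rw [← this]
          congr 1
          · refine EX_congr _ _ _ fun z r _ => ?_
            rw [pf_succ_cons, ← EX_mul]
          · refine EX_congr _ _ _ fun z r _ => ?_
            rw [pf_succ_cons, ← EX_mul]
            refine EX_congr _ _ _ fun z' r' _ => ?_
            ring
      rw [hK x y]
      linear_combination - h1

theorem pf_repeat [NeZero (2 : F)] (K : A → A → F) (hK : ∀ x y, K x y = - K y x) (m : ℕ) (x : A)
    (P Q : List A) : pf K m (x :: (P ++ x :: Q)) = 0 := by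
  have h1 := ((pf_alt K hK m).cons x).move x Q P
  have h2 : pf K m (x :: x :: (P ++ Q)) = 0 := by
    have h3 := pf_alt K hK m [] x x (P ++ Q)
    simp only [List.nil_append] at h3
    have h4 : (2 : F) * pf K m (x :: x :: (P ++ Q)) = 0 := by linear_combination h3
    exact (mul_eq_zero.1 h4).resolve_left (NeZero.ne 2)
  rw [h1, h2, smul_zero]

theorem EX_prod (f : A → F) (l : List A) : ∀ (h : A → List A → F),
    EX (fun z r => (f z * (r.map f).prod) * h z r) l = (l.map f).prod * EX h l := by
  induction l with
  | nil => intro h; simp [EX_nil]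
  | cons z l ih =>
    intro h
    simp only [EX_cons, List.map_cons, List.prod_cons]
    have h1 := ih (fun z' r => f z * h z' (z :: r))
    have h2 : EX (fun z' r => f z' * (f z * (r.map f).prod) * h z' (z :: r)) l =
        EX (fun z' r => f z' * (r.map f).prod * (f z * h z' (z :: r))) l :=
      EX_congr _ _ _ fun z' r _ => by ring
    rw [h2, h1, EX_mul]
    ring

/-- scaling -/
theorem pf_scale (K K' : A → A → F) (c : F) (μ : A → F)
    (h : ∀ x y, K' x y = c * (μ x * μ y) * K x y) : ∀ (m : ℕ) (l : List A),
    pf K' m l = c ^ m * (l.map μ).prod * pf K m l := by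
  intro m
  induction m with
  | zero =>
    intro l
    cases l with
    | nil => simp [pf_zero_nil]
    | cons x l => simp [pf_zero_cons]
  | succ m ih =>
    intro l
    cases l with
    | nil => simp [pf_succ_nil]
    | cons x l =>
      rw [pf_succ_cons, pf_succ_cons]
      have h1 : EX (fun z r => K' x z * pf K' m r) l =
          EX (fun z r => (μ z * (r.map μ).prod) * ((c ^ (m + 1) * μ x) * (K x z * pf K m r))) l := by
        refine EX_congr _ _ _ fun z r _ => ?_
        rw [h x z, ih r]
        ring
      rw [h1, EX_prod, EX_mul]
      simp only [List.map_cons, List.prod_cons]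
      ring

/-- mapping the points -/
theorem pf_map {B : Type*} (g : B → A) (K : A → A → F) : ∀ (m : ℕ) (l : List B),
    pf K m (l.map g) = pf (fun x y => K (g x) (g y)) m l := by
  intro m
  induction m with
  | zero => intro l; cases l <;> simp [pf_zero_nil, pf_zero_cons]
  | succ m ih =>
    intro l
    cases l with
    | nil => simp [pf_succ_nil]
    | cons x l =>
      rw [List.map_cons, pf_succ_cons, pf_succ_cons, EX_map_list]
      exact EX_congr _ _ _ fun z r _ => by rw [ih]

end Pf

end Pool.Agent.K7.H27.OS
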