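import Pool.Agent.K7.H27.OS.Coef
import Pool.Agent.K7.H27.OS.Pf

/-!
The Pfaffian formula for the components of the state sum.
-/

set_option autoImplicit false

namespace Pool.Agent.K7.H27.OS

open Polynomial

variable {F : Type*} [Field F]

/-- the kernel -/
def K0 (s t : F) : F := (t - s) / ((1 - s * t) * (1 - s - t))

/-- the kernel with a border -/
def KK (φ : F → F) : Option F → Option F → F
  | some s, some t => K0 s t
  | some s, none => φ s
  | none, some s => - φ s
  | none, none => 0

theorem K0_skew (s t : F) : K0 s t = - K0 t s := by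
  unfold K0
  rw [← neg_div]
  congr 1
  · ring
  · ring

theorem KK_skew (φ : F → F) (x y : Option F) : KK φ x y = - KK φ y x := by
  rcases x with _ | x <;> rcases y with _ | y <;> simp [KK]
  exact K0_skew x y

/-- the border function -/
def phi (s : F) : F := 1 / (1 + s)

/-- denominators -/
def wt (x : F) : Option F → F
  | some y => (1 - x * y) * (1 - x - y)
  | none => 1 + x

/-- numerators -/
def num (x : F) : Option F → F
  | some y => y - x
  | none => 1

theorem num_eq (x : F) (z : Option F) (h : wt x z ≠ 0) :
    num x z = wt x z * KK phi (some x) z := by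
  cases z with
  | none =>
    simp only [wt] at h
    simp only [num, wt, KK, phi]
    field_simp
  | some y =>
    simp only [wt] at h
    simp only [num, wt, KK, K0]
    rw [← mul_div_assoc, mul_div_cancel_left₀ _ h]

/-- Vandermonde product -/
def Dl : List F → F
  | [] => 1
  | (x :: l) => (l.map (fun y => y - x)).prod * Dl l

/-- product of the denominators -/
def Nl : List F → F
  | [] => 1
  | (x :: l) => (l.map (fun y => (1 - x * y) * (1 - x - y))).prod * Nl l

/-- border -/
def tl (b : Bool) : List (Option F) := if b then [none] else []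

/-- extra factor -/
def cb (b : Bool) (x : F) : F := if b then 1 else 1 + x

theorem Alt_sym_mul {A : Type*} {s g : List A → F} (hs : ∀ l l', l.Perm l' → s l = s l')
    (hg : Alt g) : Alt (fun l => s l * g l) := by
  intro P x y Q
  simp only
  rw [hg P x y Q, hs (P ++ x :: y :: Q) (P ++ y :: x :: Q)]
  · ring
  · exact (List.Perm.swap y x Q).append_left P

theorem Dl_alt : Alt (Dl : List F → F) := by
  intro P x y Q
  induction P with
  | nil => simp only [List.nil_append, Dl, List.map_cons, List.prod_cons]; ring
  | cons p P ih =>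
    simp only [List.cons_append, Dl]
    rw [ih]
    have : ((P ++ x :: y :: Q).map (fun y => y - p)).prod =
        ((P ++ y :: x :: Q).map (fun y => y - p)).prod :=
      (((List.Perm.swap y x Q).append_left P).map _).prod_eq
    rw [this]
    ring

theorem Nl_perm_aux {l l' : List F} (h : l.Perm l') : Nl l = Nl l' := by
  induction h with
  | nil => rfl
  | cons x h ih =>
    simp only [Nl]
    rw [ih, (h.map _).prod_eq]
  | swap x y l =>
    simp only [Nl, List.map_cons, List.prod_cons]
    ring
  | trans _ _ ih1 ih2 => exact ih1.trans ih2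

/-- the expansion appearing in the Pfaffian formula, with the denominators cleared -/
noncomputable def RH (m : ℕ) (x : F) (L : List (Option F)) : F :=
  EX (fun z r => num x z * ((r.map (wt x)).prod * pf (KK phi) m r)) L

theorem RH_eq (m : ℕ) (x : F) (L : List (Option F)) (hx : ∀ z ∈ L, wt x z ≠ 0) :
    RH m x L = (L.map (wt x)).prod * pf (KK phi) (m + 1) (some x :: L) := by
  rw [RH, pf_succ_cons, ← EX_prod]
  refine EX_congr _ _ _ fun z r hr => ?_
  rw [num_eq x z (hx z (hr.subset (by simp)))]
  ring

theorem RH_alt (m : ℕ) (x : F) : Alt (RH m x : List (Option F) → F) := by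
  intro P a b Q
  refine Alt.EX P (fun z => ?_) a b Q
  refine Alt.mul_left ?_ _
  exact Alt_sym_mul (fun l l' h => (h.map _).prod_eq) (pf_alt _ (KK_skew phi) m)

theorem prod_zero_of_mem {A : Type*} (f : A → F) (l : List A) (a : A) (ha : a ∈ l)
    (hf : f a = 0) : (l.map f).prod = 0 := by
  apply List.prod_eq_zero
  rw [List.mem_map]
  exact ⟨a, ha, hf⟩

theorem RH_cons_zero (m : ℕ) (x z : F) (L : List (Option F)) (h : wt x (some z) = 0) :
    RH m x (some z :: L) = (z - x) * ((L.map (wt x)).prod * pf (KK phi) m L) := by
  rw [RH, EX_cons, EX_zero, sub_zero]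
  · rfl
  · intro z' r _
    rw [List.map_cons, List.prod_cons, h]
    ring

/-- generic lists -/
structure Gen (t : List F) : Prop where
  nd : t.Nodup
  mul : ∀ a ∈ t, ∀ b ∈ t, a * b ≠ 1
  add : ∀ a ∈ t, ∀ b ∈ t, a + b ≠ 1
  neg : ∀ a ∈ t, a ≠ -1
  two : ∀ a ∈ t, a ≠ 2

theorem Gen.sub {t t' : List F} (h : Gen t) (hs : t'.Sublist t) : Gen t' :=
  ⟨h.nd.sublist hs, fun a ha b hb => h.mul a (hs.subset ha) b (hs.subset hb),
    fun a ha b hb => h.add a (hs.subset ha) b (hs.subset hb),
    fun a ha => h.neg a (hs.subset ha), fun a ha => h.two a (hs.subset ha)⟩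

theorem Gen.perm {t t' : List F} (h : Gen t) (hs : t.Perm t') : Gen t' :=
  ⟨hs.nodup_iff.1 h.nd, fun a ha b hb => h.mul a (hs.symm.subset ha) b (hs.symm.subset hb),
    fun a ha b hb => h.add a (hs.symm.subset ha) b (hs.symm.subset hb),
    fun a ha => h.neg a (hs.symm.subset ha), fun a ha => h.two a (hs.symm.subset ha)⟩

/-- the Pfaffian formula for the list `t` -/
def PF (t : List F) : Prop := ∀ (b : Bool) (m : ℕ), t.length + b.toNat = 2 * m →
  zz b.toNat t * Dl t = (t.map (fun y => 1 + y)).prod * Nl t *
    pf (KK phi) m (t.map some ++ tl b)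

/-- left hand side -/
noncomputable def LH (e : ℕ) (x : F) (t : List F) : F :=
  zz e (x :: t) * Dl t * (t.map (fun y => y - x)).prod

theorem LH_alt (e : ℕ) (x : F) : Alt (LH e x : List F → F) := by
  have h1 : Alt (fun l : List F => (zz e (x :: l) * (l.map (fun y => y - x)).prod) * Dl l) :=
    Alt_sym_mul (fun l l' h => by rw [zz_perm e (h.cons x), (h.map _).prod_eq]) Dl_alt
  intro P a b Q
  have := h1 P a b Q
  simp only at this
  rw [LH, LH]
  linear_combination this

/-- evaluation at a point of `t` -/
theorem eval_mem [NeZero (2 : F)] (t : List F) (ht : Gen t) (e m : ℕ) (b : Bool) (x : F)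
    (hx : x ∈ t) : LH e x t = 0 ∧ RH m x (t.map some ++ tl b) = 0 := by
  constructor
  · rw [LH, prod_zero_of_mem (fun y => y - x) t x hx (sub_self x), mul_zero]
  · rw [RH_eq]
    · obtain ⟨P, Q, rfl⟩ := List.append_of_mem hx
      have : (P ++ x :: Q).map some ++ tl b = P.map some ++ some x :: (Q.map some ++ tl b) := by
        simp
      rw [this, pf_repeat _ (KK_skew phi), mul_zero]
    · intro z hz
      rw [List.mem_append, List.mem_map] at hz
      rcases hz with ⟨y, hy, rfl⟩ | hz
      · simp only [wt]
        refine mul_ne_zero (sub_ne_zero.2 (ht.mul x hx y hy).symm) ?_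
        intro h
        exact ht.add x hx y hy (by linear_combination -h)
      · rcases b with _ | _
        · simp [tl] at hz
        · simp only [tl, if_true, List.mem_singleton] at hz
          subst hz
          simp only [wt]
          intro h
          exact ht.neg x hx (by linear_combination h)

theorem tl_wt (b : Bool) (x : F) : cb b x * ((tl b).map (wt x)).prod = 1 + x := by
  rcases b with _ | _ <;> simp [tl, cb, wt]

/-- evaluation at `1 - z`, first element -/
theorem eval_one_sub_aux (z : F) (t : List F) (b : Bool) (m : ℕ)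
    (hm : t.length + b.toNat = 2 * m) (h : PF t) (x : F) (hx : x = 1 - z) :
    LH b.toNat x (z :: t) = cb b x * ((z :: t).map (fun y => 1 + y)).prod * Nl (z :: t) *
      RH m x ((z :: t).map some ++ tl b) := by
  have h0 : wt x (some z) = 0 := by
    simp only [wt]
    rw [hx]
    ring
  have h1 : (z :: t).map some ++ tl b = some z :: (t.map some ++ tl b) := by simp
  have h2 : zz b.toNat (x :: z :: t) = (1 + x) * (1 + z) * (t.map (fun t => 1 - x * t)).prod *
      (t.map (fun t => 1 - t * z)).prod * zz b.toNat t := by
    rw [← zz_rec _ x z (by rw [hx]; ring)]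
    exact zz_perm _ (List.Perm.cons x (List.perm_append_singleton z t).symm)
  have h3 := h b m hm
  rw [h1, RH_cons_zero m x z _ h0, LH, h2]
  simp only [Dl, Nl, List.map_cons, List.prod_cons, List.map_append, List.prod_append,
    List.map_map]
  have h4 : (t.map (wt x ∘ some)).prod = (t.map (fun y => 1 - x * y)).prod *
      (t.map (fun y => 1 - x - y)).prod := by
    rw [← List.prod_map_mul]
    rfl
  have h5 : (t.map (fun y => (1 - z * y) * (1 - z - y))).prod =
      (t.map (fun y => 1 - y * z)).prod * (t.map (fun y => 1 - z - y)).prod := by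
    rw [← List.prod_map_mul]
    congr 2
    funext y
    ring
  have h6 : (t.map (fun y => y - z)).prod * (t.map (fun y => y - x)).prod =
      (t.map (fun y => 1 - z - y)).prod * (t.map (fun y => 1 - x - y)).prod := by
    rw [← List.prod_map_mul, ← List.prod_map_mul]
    congr 2
    funext y
    rw [hx]
    ring
  have h7 := tl_wt b x
  rw [h4, h5]
  generalize (t.map (fun y => 1 - x * y)).prod = A1 at *
  generalize (t.map (fun y => 1 - x - y)).prod = A2 at *
  generalize (t.map (fun y => 1 - y * z)).prod = A3 at *
  generalize (t.map (fun y => 1 - z - y)).prod = A4 at *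
  generalize (t.map (fun y => y - z)).prod = A5 at *
  generalize (t.map (fun y => y - x)).prod = A6 at *
  generalize (t.map (fun y => 1 + y)).prod = A7 at *
  generalize ((tl b).map (wt x)).prod = A8 at *
  generalize pf (KK phi) m (List.map some t ++ tl b) = A9 at *
  calc (1 + x) * (1 + z) * A1 * A3 * zz b.toNat t * (A5 * Dl t) * ((z - x) * A6)
      = (1 + x) * (1 + z) * A1 * A3 * (z - x) * (zz b.toNat t * Dl t) * (A5 * A6) := by ring
    _ = (1 + x) * (1 + z) * A1 * A3 * (z - x) * (A7 * Nl t * A9) * (A4 * A2) := by
        rw [h3, h6]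
    _ = (cb b x * A8) * (1 + z) * A1 * A3 * (z - x) * (A7 * Nl t * A9) * (A4 * A2) := by
        rw [h7]
    _ = _ := by ring

theorem eval_one_sub (t : List F) (b : Bool) (m : ℕ) (hm : t.length + b.toNat = 2 * m + 1)
    (z : F) (hz : z ∈ t) (h : ∀ t' : List F, t'.Sublist t → t'.length < t.length → PF t')
    (x : F) (hx : x = 1 - z) :
    LH b.toNat x t = cb b x * (t.map (fun y => 1 + y)).prod * Nl t *
      RH m x (t.map some ++ tl b) := by
  obtain ⟨P, Q, rfl⟩ := List.append_of_mem hz
  have h1 : PF (P ++ Q) := by
    apply h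
    · exact List.Sublist.append_left (List.sublist_cons_self z Q) P
    · simp
  have h2 := eval_one_sub_aux z (P ++ Q) b m (by simp at hm ⊢; omega) h1 x hx
  have h3 := (LH_alt b.toNat x).move z Q P
  have h4 : (P ++ z :: Q).map some ++ tl b = P.map some ++ some z :: (Q.map some ++ tl b) := by
    simp
  have h5 := (RH_alt m x).move (some z) (Q.map some ++ tl b) (P.map some)
  have h6 : some z :: (P.map some ++ (Q.map some ++ tl b)) =
      (z :: (P ++ Q)).map some ++ tl b := by simp
  have hp : (z :: (P ++ Q)).Perm (P ++ z :: Q) := List.perm_middle.symm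
  rw [h3, h2, h4, h5, h6, List.length_map, (hp.map (fun y => 1 + y)).prod_eq, Nl_perm_aux hp]
  simp only [zsmul_eq_mul]
  ring

theorem eval_neg_one (t : List F) (b : Bool) (m : ℕ) (hm : t.length + b.toNat = 2 * m + 1)
    (h : PF t) :
    LH b.toNat (-1) t = cb b (-1) * (t.map (fun y => 1 + y)).prod * Nl t *
      RH m (-1) (t.map some ++ tl b) := by
  rcases b with _ | _
  · simp only [LH, Bool.toNat_false, zz_neg_one_zero, cb]
    simp
  · simp only [LH, Bool.toNat_true, cb, if_true, tl]
    rw [show (1 : ℕ) = 0 + 1 from rfl, zz_neg_one_succ]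
    have h1 := h false m (by simp at hm ⊢; exact hm)
    simp only [Bool.toNat_false, tl] at h1
    have hl : t.length = 2 * m := by simpa using hm
    rw [RH, EX_concat, EX_zero, List.length_map, hl]
    · have h2 : ((t.map some).map (wt (-1 : F))).prod = (t.map (fun y => 2 - y)).prod *
        (t.map (fun y => 1 + y)).prod := by
        rw [← List.prod_map_mul, List.map_map]
        congr 2
        funext y
        simp only [Function.comp_apply, wt]
        ring
      have h3 : (t.map (fun y => y - (-1 : F))).prod = (t.map (fun y => 1 + y)).prod := by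
        congr 2
        funext y
        ring
      rw [h2, h3]
      simp only [num]
      have h4 : ((-1 : ℤ) ^ (2 * m)) = 1 := by rw [pow_mul]; simp
      rw [h4, one_smul]
      have h5 : zz 0 t * Dl t = (t.map (fun y => 1 + y)).prod * Nl t *
          pf (KK phi) m (t.map some) := by simpa using h1
      linear_combination ((t.map (fun y => 2 - y)).prod * (t.map (fun y => 1 + y)).prod) * h5
    · intro z r _
      have : ((r ++ [none]).map (wt (-1 : F))).prod = 0 :=
        prod_zero_of_mem _ _ none (by simp) (by simp [wt])
      rw [this]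
      ring

end Pool.Agent.K7.H27.OS
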