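import Pool.Agent.K7.H27.OS.PfForm

/-!
The Pfaffian formula: interpolation.
-/

set_option autoImplicit false

namespace Pool.Agent.K7.H27.OS

open Polynomial

variable {F : Type*} [Field F]

/-- polynomial versions -/
noncomputable def wtp : Option F → F[X]
  | some y => (1 - X * C y) * (1 - X - C y)
  | none => 1 + X

/-- polynomial versions -/
noncomputable def nump : Option F → F[X]
  | some y => C y - X
  | none => 1

/-- degrees -/
def dg : Option F → ℕ
  | some _ => 2
  | none => 1

theorem wtp_eval (x : F) (z : Option F) : (wtp z).eval x = wt x z := by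
  cases z with
  | none => simp [wtp, wt]
  | some y => simp only [wtp, wt, eval_mul, eval_sub, eval_one, eval_X, eval_C]

theorem nump_eval (x : F) (z : Option F) : (nump z).eval x = num x z := by
  cases z <;> simp [nump, num]

theorem wtp_deg (z : Option F) : (wtp z).natDegree ≤ dg z := by
  cases z with
  | none => simp only [wtp, dg]; compute_degree
  | some y =>
    simp only [wtp, dg]
    refine natDegree_mul_le.trans ?_
    have h1 : (1 - X * C y : F[X]).natDegree ≤ 1 := by compute_degree
    have h2 : (1 - X - C y : F[X]).natDegree ≤ 1 := by compute_degree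
    omega

theorem nump_deg (z : Option F) : (nump z).natDegree + 1 ≤ dg z := by
  cases z with
  | none => simp [nump, dg]
  | some y =>
    simp only [nump, dg]
    have h1 : (C y - X : F[X]).natDegree ≤ 1 := by compute_degree
    omega

theorem prod_wtp_deg (r : List (Option F)) : (r.map wtp).prod.natDegree ≤ (r.map dg).sum := by
  induction r with
  | nil => simp
  | cons z r ih =>
    simp only [List.map_cons, List.prod_cons, List.sum_cons]
    exact natDegree_mul_le.trans (add_le_add (wtp_deg z) ih)

theorem prod_eval {A : Type*} (x : F) (r : List A) (f : A → F[X]) (g : A → F)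
    (h : ∀ a, (f a).eval x = g a) : (r.map f).prod.eval x = (r.map g).prod := by
  rw [← coe_evalRingHom, map_list_prod, List.map_map]
  congr 2
  funext t
  simp [h]

/-- polynomial version of the right hand side -/
noncomputable def RHp (m : ℕ) (L : List (Option F)) : F[X] :=
  EX (fun z r => nump z * ((r.map wtp).prod * C (pf (KK phi) m r))) L

theorem RHp_eval (m : ℕ) (L : List (Option F)) (x : F) : (RHp m L).eval x = RH m x L := by
  rw [RHp, RH]
  have := EX_map (evalRingHom x).toAddMonoidHom L
    (fun z r => nump z * ((r.map wtp).prod * C (pf (KK phi) m r)))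
  have h2 : (evalRingHom x).toAddMonoidHom (EX (fun z r => nump z * ((r.map wtp).prod *
    C (pf (KK phi) m r))) L) = eval x (EX (fun z r => nump z * ((r.map wtp).prod *
    C (pf (KK phi) m r))) L) := rfl
  rw [h2] at this
  rw [this]
  refine EX_congr _ _ _ fun z r _ => ?_
  have h3 : (evalRingHom x).toAddMonoidHom (nump z * ((r.map wtp).prod * C (pf (KK phi) m r))) =
    eval x (nump z * ((r.map wtp).prod * C (pf (KK phi) m r))) := rfl
  rw [h3, eval_mul, eval_mul, eval_C, nump_eval, prod_eval x r wtp (wt x) (wtp_eval x)]

theorem RHp_deg (m : ℕ) (L : List (Option F)) : (RHp m L) ∈ degreeLT F ((L.map dg).sum) := by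
  have h := EX_mem (degreeLT F ((L.map dg).sum)).toAddSubgroup L
    (fun z r => nump z * ((r.map wtp).prod * C (pf (KK phi) m r))) (fun z r hr => ?_)
  · exact h
  · rw [Submodule.mem_toAddSubgroup, mem_degreeLT]
    have h1 : (nump z * ((r.map wtp).prod * C (pf (KK phi) m r))).natDegree <
        (L.map dg).sum := by
      have h2 : (L.map dg).sum = dg z + (r.map dg).sum := by
        rw [← (hr.map dg).sum_eq]; simp
      have h3 : (nump z * ((r.map wtp).prod * C (pf (KK phi) m r))).natDegree ≤
          (nump z).natDegree + (r.map dg).sum := by
        refine natDegree_mul_le.trans (add_le_add le_rfl ?_)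
        refine natDegree_mul_le.trans ?_
        rw [natDegree_C, add_zero]
        exact prod_wtp_deg r
      have h4 := nump_deg z
      omega
    exact degree_le_natDegree.trans_lt (by exact_mod_cast h1)

/-- extra factor, polynomial version -/
noncomputable def cbp (b : Bool) : F[X] := if b then 1 else 1 + X

theorem cbp_eval (b : Bool) (x : F) : (cbp b).eval x = cb b x := by
  rcases b with _ | _ <;> simp [cbp, cb]

theorem cbp_deg (b : Bool) : (cbp b : F[X]).natDegree + b.toNat ≤ 1 := by
  rcases b with _ | _
  · simp only [cbp, Bool.toNat_false]
    have : (1 + X : F[X]).natDegree ≤ 1 := by compute_degree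
    simpa using this
  · simp [cbp]

omit [Field F] in
theorem dg_sum (t : List F) (b : Bool) :
    ((t.map some ++ tl b).map dg).sum = 2 * t.length + b.toNat := by
  rw [List.map_append, List.sum_append, List.map_map]
  have h1 : ∀ t : List F, (t.map (dg ∘ some)).sum = 2 * t.length := by
    intro t
    induction t with
    | nil => simp
    | cons x t ih => simp only [List.map_cons, List.sum_cons, ih, List.length_cons,
        Function.comp_apply, dg]; ring
  rw [h1]
  rcases b with _ | _ <;> simp [tl, dg]

theorem pts_card [NeZero (2 : F)] [DecidableEq F] (t : List F) (ht : Gen t) :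
    2 * t.length < (t.toFinset ∪ (t.map (fun z => 1 - z)).toFinset ∪ {-1}).card + 0 := by
  have h1 : (t.toFinset).card = t.length := List.toFinset_card_of_nodup ht.nd
  have h2 : ((t.map (fun z => 1 - z)).toFinset).card = t.length := by
    rw [List.toFinset_card_of_nodup, List.length_map]
    exact ht.nd.map (fun a b h => by simpa using h)
  have h3 : Disjoint t.toFinset (t.map (fun z => 1 - z)).toFinset := by
    rw [Finset.disjoint_left]
    intro a ha hb
    rw [List.mem_toFinset] at ha hb
    rw [List.mem_map] at hb
    obtain ⟨z, hz, hza⟩ := hb
    exact ht.add a ha z hz (by rw [← hza]; ring)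
  have h4 : Disjoint (t.toFinset ∪ (t.map (fun z => 1 - z)).toFinset) {-1} := by
    rw [Finset.disjoint_singleton_right, Finset.mem_union, List.mem_toFinset, List.mem_toFinset,
      List.mem_map]
    rintro (h | ⟨z, hz, hza⟩)
    · exact ht.neg _ h rfl
    · exact ht.two z hz (by linear_combination -hza)
  rw [Finset.card_union_of_disjoint h4, Finset.card_union_of_disjoint h3, h1, h2,
    Finset.card_singleton]
  omega

/-- the main polynomial identity -/
theorem main_poly [NeZero (2 : F)] (t : List F) (ht : Gen t) (b : Bool) (m : ℕ)
    (hm : t.length + b.toNat = 2 * m + 1)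
    (h : ∀ t' : List F, t'.Sublist t → PF t') (x : F) :
    LH b.toNat x t = cb b x * (t.map (fun y => 1 + y)).prod * Nl t *
      RH m x (t.map some ++ tl b) := by
  classical
  obtain ⟨P, hPd, hP⟩ := zz_poly b.toNat t
  have hprod : ((t.map (fun y => C y - X)).prod : F[X]).natDegree ≤ t.length := by
    clear hm h hP hPd ht
    induction t with
    | nil => simp
    | cons a l ih =>
      simp only [List.map_cons, List.prod_cons, List.length_cons]
      refine natDegree_mul_le.trans ?_
      have : (C a - X : F[X]).natDegree ≤ 1 := by compute_degree
      omega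
  set D : F[X] := P * C (Dl t) * (t.map (fun y => C y - X)).prod -
    cbp b * C ((t.map (fun y => 1 + y)).prod * Nl t) * RHp m (t.map some ++ tl b) with hD
  have hDx : ∀ x, D.eval x = LH b.toNat x t - cb b x * (t.map (fun y => 1 + y)).prod * Nl t *
      RH m x (t.map some ++ tl b) := by
    intro x
    rw [hD, eval_sub, eval_mul, eval_mul, eval_mul, eval_mul, eval_C, eval_C, RHp_eval, cbp_eval,
      ← hP, prod_eval x t (fun y => C y - X) (fun y => y - x) (by simp), LH]
    ring
  have hdeg : D.natDegree < (t.toFinset ∪ (t.map (fun z => 1 - z)).toFinset ∪ {-1}).card := by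
    have hc := pts_card t ht
    have h1 : (P * C (Dl t) * (t.map (fun y => C y - X)).prod).natDegree ≤ 2 * t.length := by
      refine natDegree_mul_le.trans ?_
      have : (P * C (Dl t)).natDegree ≤ t.length :=
        natDegree_mul_le.trans (by rw [natDegree_C]; simpa using hPd)
      omega
    have h2 : (cbp b * C ((t.map (fun y => 1 + y)).prod * Nl t) *
        RHp m (t.map some ++ tl b)).natDegree ≤ 2 * t.length := by
      refine natDegree_mul_le.trans ?_
      have h3 : (cbp b * C ((t.map (fun y => 1 + y)).prod * Nl t) : F[X]).natDegree ≤
          (cbp b : F[X]).natDegree :=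
        natDegree_mul_le.trans (by rw [natDegree_C]; simp)
      have h4 := RHp_deg m (t.map some ++ tl b)
      rw [mem_degreeLT, dg_sum] at h4
      have h5 : (RHp m (t.map some ++ tl b)).natDegree ≤ 2 * t.length + b.toNat - 1 := by
        by_cases h0 : RHp m (t.map some ++ tl b) = 0
        · rw [h0]; simp
        · rw [degree_eq_natDegree h0] at h4
          have : (RHp m (t.map some ++ tl b)).natDegree < 2 * t.length + b.toNat := by
            exact_mod_cast h4
          omega
      have h6 := cbp_deg (F := F) b
      omega
    have := natDegree_sub_le (P * C (Dl t) * (t.map (fun y => C y - X)).prod)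
      (cbp b * C ((t.map (fun y => 1 + y)).prod * Nl t) * RHp m (t.map some ++ tl b))
    rw [← hD] at this
    have h7 : D.natDegree ≤ 2 * t.length := this.trans (max_le h1 h2)
    omega
  have hD0 : D = 0 := by
    refine Polynomial.eq_zero_of_natDegree_lt_card_of_eval_eq_zero' D _ (fun y hy => ?_) hdeg
    rw [hDx, sub_eq_zero]
    rw [Finset.mem_union, Finset.mem_union, List.mem_toFinset, List.mem_toFinset,
      List.mem_map, Finset.mem_singleton] at hy
    rcases hy with (hy | ⟨z, hz, hza⟩) | hy
    · obtain ⟨h1, h2⟩ := eval_mem t ht b.toNat m b y hy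
      rw [h1, h2, mul_zero]
    · exact eval_one_sub t b m hm z hz (fun t' ht' _ => h t' ht') y hza.symm
    · rw [hy]
      exact eval_neg_one t b m hm (h t (List.Sublist.refl t))
  have := hDx x
  rw [hD0, eval_zero] at this
  exact (sub_eq_zero.1 this.symm)

/-- the Pfaffian formula -/
theorem pf_formula [NeZero (2 : F)] : ∀ (n : ℕ) (t : List F), t.length ≤ n → Gen t → PF t := by
  intro n
  induction n with
  | zero =>
    intro t ht _
    have : t = [] := by simpa using ht
    subst this
    intro b m hm
    rcases b with _ | _
    · have : m = 0 := by simpa using hm.symm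
      subst this
      simp [zz_nil_zero, Dl, Nl, tl, pf_zero_nil]
    · simp at hm
      omega
  | succ n ih =>
    intro t htn ht
    cases t with
    | nil => exact ih [] (by simp) ht
    | cons x t =>
      have htn' : t.length ≤ n := by simpa using htn
      have ht' : Gen t := ht.sub (List.sublist_cons_self x t)
      intro b m hm
      obtain ⟨m, rfl⟩ : ∃ m', m = m' + 1 := ⟨m - 1, by simp at hm; omega⟩
      have h1 := main_poly t ht' b m (by simp at hm; omega)
        (fun t' hs => ih t' (hs.length_le.trans htn') (ht'.sub hs)) x
      have h2 : ∀ z ∈ t.map some ++ tl b, wt x z ≠ 0 := by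
        intro z hz
        rw [List.mem_append, List.mem_map] at hz
        rcases hz with ⟨y, hy, rfl⟩ | hz
        · simp only [wt]
          refine mul_ne_zero (sub_ne_zero.2 (ht.mul x (by simp) y (by simp [hy])).symm) ?_
          intro h
          exact ht.add x (by simp) y (by simp [hy]) (by linear_combination -h)
        · rcases b with _ | _
          · simp [tl] at hz
          · simp only [tl, if_true, List.mem_singleton] at hz
            subst hz
            simp only [wt]
            intro h
            exact ht.neg x (by simp) (by linear_combination h)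
      rw [RH_eq m x _ h2, List.map_append, List.prod_append, List.map_map, LH] at h1
      have h3 : (t.map (wt x ∘ some)).prod =
          (t.map (fun y => (1 - x * y) * (1 - x - y))).prod := rfl
      rw [h3] at h1
      have h4 := tl_wt b x
      simp only [Dl, Nl, List.map_cons, List.prod_cons, List.cons_append]
      generalize (t.map (fun y => (1 - x * y) * (1 - x - y))).prod = A1 at *
      generalize ((tl b).map (wt x)).prod = A8 at *
      generalize pf (KK phi) (m + 1) (some x :: (List.map some t ++ tl b)) = A9 at *
      calc zz b.toNat (x :: t) * ((t.map (fun y => y - x)).prod * Dl t)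
          = zz b.toNat (x :: t) * Dl t * (t.map (fun y => y - x)).prod := by ring
        _ = (cb b x * A8) * (t.map (fun y => 1 + y)).prod * Nl t * (A1 * A9) := by
            rw [h1]; ring
        _ = _ := by rw [h4]; ring

end Pool.Agent.K7.H27.OS
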