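import Pool.Agent.K7.H27.OS.FE

/-!
The three-term relation in the rotation variable.
-/

set_option autoImplicit false

namespace Pool.Agent.K7.H27.OS

open Polynomial

/-- homogenisation of `P` in the rotation variable -/
noncomputable def Yh (ω : ℂ) (n : ℕ) (P : ℂ[X]) : ℂ[X] :=
  ∑ k ∈ Finset.range (2 * n + 1),
    C (P.coeff k) * (X - 1) ^ k * (C (-ω) * (C ω * X - 1)) ^ (2 * n - k)

theorem Yh_eval (ω : ℂ) (n : ℕ) (P : ℂ[X]) (hP : P.natDegree ≤ 2 * n) (U : ℂ)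
    (hv : -ω * (ω * U - 1) ≠ 0) :
    (Yh ω n P).eval U = (-ω * (ω * U - 1)) ^ (2 * n) *
      P.eval ((U - 1) / (-ω * (ω * U - 1))) := by
  have h1 : ∀ x : ℂ, P.eval x = ∑ k ∈ Finset.range (2 * n + 1), P.coeff k * x ^ k :=
    fun x => eval_eq_sum_range' (by omega) x
  rw [h1, Yh, eval_finsetSum, Finset.mul_sum]
  refine Finset.sum_congr rfl fun k hk => ?_
  have hk' : k ≤ 2 * n := by rw [Finset.mem_range] at hk; omega
  simp only [eval_mul, eval_pow, eval_sub, eval_C, eval_X, eval_one]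
  set v := -ω * (ω * U - 1) with hvd
  have h2 : v ^ (2 * n) = v ^ (2 * n - k) * v ^ k := by
    rw [← pow_add]; congr 1; omega
  rw [h2, div_pow]
  field_simp

/-- the rotated polynomial -/
noncomputable def Ft (ω : ℂ) (n : ℕ) (P : ℂ[X]) : ℂ[X] :=
  X * (X + 1) * (X - 1) ^ (4 * n + 3) * Yh ω n P

theorem Ft_eval (ω : ℂ) (n : ℕ) (P : ℂ[X]) (U : ℂ) :
    (Ft ω n P).eval U = U * (U + 1) * (U - 1) ^ (4 * n + 3) * (Yh ω n P).eval U := by
  simp [Ft]

/-- the four basic relations -/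
theorem basic (ω U z : ℂ) (hω : ω ^ 2 + ω + 1 = 0) (hb : ω * U - 1 ≠ 0)
    (hz : z = (U - 1) / (-ω * (ω * U - 1))) :
    z * (ω * U - 1) = - ω ^ 2 * (U - 1) ∧
    (1 - z) * (ω * U - 1) = - ω * (ω ^ 2 * U - 1) ∧
    (1 - z + z ^ 2) * (ω * U - 1) ^ 2 = - 3 * ω * U ∧
    (2 - z) * (ω * U - 1) = (ω - 1) * (U + 1) ∧
    (1 + z) * (ω * U - 1) = (ω - ω ^ 2) * (U + ω) ∧
    (2 * z - 1) * (ω * U - 1) = (1 - ω ^ 2) * (U + ω ^ 2) := by
  have hω0 : ω ≠ 0 := by
    rintro rfl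
    simp at hω
  have hv : -ω * (ω * U - 1) ≠ 0 := mul_ne_zero (neg_ne_zero.2 hω0) hb
  have h3 : ω ^ 3 = 1 := by linear_combination (ω - 1) * hω
  have hz' : z * (-ω * (ω * U - 1)) = U - 1 := by
    rw [hz, div_mul_cancel₀ _ hv]
  have h1 : z * (ω * U - 1) = - ω ^ 2 * (U - 1) := by
    linear_combination (-ω ^ 2) * hz' - (z * (ω * U - 1)) * h3
  refine ⟨h1, ?_, ?_, ?_, ?_, ?_⟩
  · linear_combination -h1 + (ω * U - 1) * hω
  · linear_combination (-(ω * U - 1) + z * (ω * U - 1) - ω ^ 2 * (U - 1)) * h1 +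
      (U ^ 2 * ω ^ 2 + U * ω * (1 - 2 * ω) + (1 - ω + ω ^ 2)) * hω
  · linear_combination -h1 + (U - 1) * hω
  · linear_combination h1 + (ω - 1) * hω
  · linear_combination 2 * h1 + (-U + 1 - ω + ω ^ 2) * hω

theorem Dz (ω : ℂ) (hω : ω ^ 2 + ω + 1 = 0) (n : ℕ) (P : ℂ[X]) (hP : P.natDegree ≤ 2 * n)
    (U z : ℂ) (hb : ω * U - 1 ≠ 0) (hc : ω ^ 2 * U - 1 ≠ 0)
    (hz : z = (U - 1) / (-ω * (ω * U - 1))) :
    gg z * P.eval z * (z / (1 - z)) ^ (2 * n + 1) *
      ((U - 1) * (ω * U - 1) * (ω ^ 2 * U - 1)) ^ (2 * n + 2) =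
    3 * ω * (ω - 1) * (Ft ω n P).eval U := by
  have hω0 : ω ≠ 0 := by
    rintro rfl
    simp at hω
  have hv : -ω * (ω * U - 1) ≠ 0 := mul_ne_zero (neg_ne_zero.2 hω0) hb
  have hY := Yh_eval ω n P hP U hv
  rw [← hz] at hY
  have h3 : ω ^ 3 = 1 := by linear_combination (ω - 1) * hω
  obtain ⟨h1, h2, h4, h5, -, -⟩ := basic ω U z hω hb hz
  rw [Ft_eval, hY]
  set a := U - 1 with ha
  set b := ω * U - 1 with hbd
  set c := ω ^ 2 * U - 1 with hcd
  have hz1 : 1 - z ≠ 0 := by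
    intro h
    rw [h, zero_mul] at h2
    rcases mul_eq_zero.1 h2.symm with h | h
    · exact hω0 (by simpa using h)
    · exact hc h
  have e1 : z / (1 - z) = ω * a / c := by
    rw [div_eq_div_iff hz1 hc]
    apply mul_left_cancel₀ hb
    have : b * (z * c) = (z * b) * c := by ring
    rw [this, h1]
    have : b * (ω * a * (1 - z)) = ω * a * ((1 - z) * b) := by ring
    rw [this, h2]
    ring
  have e2 : gg z * (b ^ 2 * c) = 3 * (ω - 1) * U * (U + 1) := by
    unfold gg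
    rw [div_mul_eq_mul_div, div_eq_iff hz1]
    apply mul_left_cancel₀ hb
    have : b * ((2 - z) * (1 - z + z ^ 2) * (b ^ 2 * c)) =
        ((2 - z) * b) * ((1 - z + z ^ 2) * b ^ 2) * c := by ring
    rw [this, h5, h4]
    have : b * (3 * (ω - 1) * U * (U + 1) * (1 - z)) =
        3 * (ω - 1) * U * (U + 1) * ((1 - z) * b) := by ring
    rw [this, h2]
    ring
  have e3 : (z / (1 - z)) ^ (2 * n + 1) * c ^ (2 * n + 1) = (ω * a) ^ (2 * n + 1) := by
    rw [e1, ← mul_pow, div_mul_cancel₀ _ hc]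
  have e4 : (-ω * b) ^ (2 * n) = ω ^ (2 * n) * b ^ (2 * n) := by
    rw [neg_mul, Even.neg_pow (even_two_mul n), mul_pow]
  calc gg z * P.eval z * (z / (1 - z)) ^ (2 * n + 1) * (a * b * c) ^ (2 * n + 2)
      = (gg z * (b ^ 2 * c)) * P.eval z * ((z / (1 - z)) ^ (2 * n + 1) * c ^ (2 * n + 1)) *
        (a ^ (2 * n + 2) * b ^ (2 * n)) := by ring
    _ = (3 * (ω - 1) * U * (U + 1)) * P.eval z * (ω * a) ^ (2 * n + 1) *
        (a ^ (2 * n + 2) * b ^ (2 * n)) := by rw [e2, e3]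
    _ = 3 * ω * (ω - 1) * (U * (U + 1) * a ^ (4 * n + 3) *
        ((ω ^ (2 * n) * b ^ (2 * n)) * P.eval z)) := by
        rw [mul_pow]
        ring
    _ = _ := by rw [e4]

theorem rot_generic (ω : ℂ) (hω : ω ^ 2 + ω + 1 = 0) (n : ℕ) (P : ℂ[X])
    (hP : P.natDegree ≤ 2 * n)
    (hPz : ∀ x : ℂ, zz 0 (x :: List.replicate (2 * n + 1) 0) = (1 + x) * P.eval x)
    (U : ℂ) (hU : U ^ 6 ≠ 1) :
    (Ft ω n P).eval U + (Ft ω n P).eval (ω * U) + (Ft ω n P).eval (ω ^ 2 * U) = 0 := by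
  have hω0 : ω ≠ 0 := by
    rintro rfl
    simp at hω
  have h3 : ω ^ 3 = 1 := by linear_combination (ω - 1) * hω
  have hω1 : ω ≠ 1 := by
    rintro rfl
    norm_num at hω
  have ha : U - 1 ≠ 0 := by
    intro h
    apply hU
    have : U = 1 := by linear_combination h
    rw [this]; ring
  have hb : ω * U - 1 ≠ 0 := by
    intro h
    apply hU
    have h6 : (ω * U) ^ 6 = 1 := by rw [sub_eq_zero.1 h]; ring
    linear_combination h6 - U ^ 6 * (ω ^ 3 + 1) * h3
  have hc : ω ^ 2 * U - 1 ≠ 0 := by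
    intro h
    apply hU
    have h6 : (ω ^ 2 * U) ^ 6 = 1 := by rw [sub_eq_zero.1 h]; ring
    linear_combination h6 - U ^ 6 * (ω ^ 9 + ω ^ 6 + ω ^ 3 + 1) * h3
  set z : ℂ := (U - 1) / (-ω * (ω * U - 1)) with hz
  obtain ⟨h1, h2, h4, h5, h6, h7⟩ := basic ω U z hω hb hz
  have hz0 : z ≠ 0 := by
    rw [hz]
    exact div_ne_zero ha (mul_ne_zero (neg_ne_zero.2 hω0) hb)
  have hz1 : 1 - z ≠ 0 := by
    intro h
    rw [h, zero_mul] at h2
    rcases mul_eq_zero.1 h2.symm with h | h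
    · exact hω0 (by simpa using h)
    · exact hc h
  have hz2 : 1 + z ≠ 0 := by
    intro h
    rw [h, zero_mul] at h6
    rcases mul_eq_zero.1 h6.symm with h | h
    · have : ω * (1 - ω) = 0 := by linear_combination h
      rcases mul_eq_zero.1 this with h | h
      · exact hω0 h
      · exact hω1 (by linear_combination -h)
    · apply hU
      have : U = -ω := by linear_combination h
      rw [this]
      linear_combination (ω ^ 3 + 1) * h3
  have hz3 : 2 - z ≠ 0 := by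
    intro h
    rw [h, zero_mul] at h5
    rcases mul_eq_zero.1 h5.symm with h | h
    · exact hω1 (by linear_combination h)
    · apply hU
      have : U = -1 := by linear_combination h
      rw [this]
      ring
  have hz4 : 2 * z - 1 ≠ 0 := by
    intro h
    rw [h, zero_mul] at h7
    rcases mul_eq_zero.1 h7.symm with h | h
    · have : 2 + ω = 0 := by linear_combination hω + h
      apply hω1
      have h8 : ω = -2 := by linear_combination this
      rw [h8] at hω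
      norm_num at hω
    · apply hU
      have : U = -ω ^ 2 := by linear_combination h
      rw [this]
      linear_combination (ω ^ 9 + ω ^ 6 + ω ^ 3 + 1) * h3
  have hrel := rel_poly n P hPz z hz0 hz1 hz2 hz3 hz4
  have r1 : 1 / (1 - z) = (ω * U - 1) / (-ω * (ω * (ω * U) - 1)) := by
    have hne : -ω * (ω * (ω * U) - 1) ≠ 0 := by
      refine mul_ne_zero (neg_ne_zero.2 hω0) ?_
      intro h
      apply hc
      linear_combination h
    rw [div_eq_div_iff hz1 hne]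
    linear_combination -h2
  have r2 : (z - 1) / z = (ω ^ 2 * U - 1) / (-ω * (ω * (ω ^ 2 * U) - 1)) := by
    have hne : -ω * (ω * (ω ^ 2 * U) - 1) ≠ 0 := by
      refine mul_ne_zero (neg_ne_zero.2 hω0) ?_
      intro h
      apply ha
      linear_combination h - U * h3
    rw [div_eq_div_iff hz0 hne]
    apply mul_left_cancel₀ hb
    have k1 : (ω * U - 1) * ((z - 1) * (-ω * (ω * (ω ^ 2 * U) - 1))) =
      (-((1 - z) * (ω * U - 1))) * (-ω * (ω * (ω ^ 2 * U) - 1)) := by ring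
    have k2 : (ω * U - 1) * ((ω ^ 2 * U - 1) * z) = (ω ^ 2 * U - 1) * (z * (ω * U - 1)) := by ring
    rw [k1, k2, h2, h1]
    linear_combination (-ω ^ 2 * U * (ω ^ 2 * U - 1)) * h3
  have d1 := Dz ω hω n P hP U z hb hc hz
  have d2 := Dz ω hω n P hP (ω * U) (1 / (1 - z)) (by
    intro h; apply hc; linear_combination h) (by
    intro h; apply ha; linear_combination h - U * h3) r1
  have d3 := Dz ω hω n P hP (ω ^ 2 * U) ((z - 1) / z) (by
    intro h; apply ha; linear_combination h - U * h3) (by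
    intro h; apply hb; linear_combination h - ω * U * h3) r2
  have i1 : (ω * U - 1) * (ω * (ω * U) - 1) * (ω ^ 2 * (ω * U) - 1) =
      (U - 1) * (ω * U - 1) * (ω ^ 2 * U - 1) := by
    have e1 : ω * (ω * U) - 1 = ω ^ 2 * U - 1 := by ring
    have e2 : ω ^ 2 * (ω * U) - 1 = U - 1 := by linear_combination U * h3
    rw [e1, e2]
    ring
  have i2 : (ω ^ 2 * U - 1) * (ω * (ω ^ 2 * U) - 1) * (ω ^ 2 * (ω ^ 2 * U) - 1) =
      (U - 1) * (ω * U - 1) * (ω ^ 2 * U - 1) := by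
    have e1 : ω * (ω ^ 2 * U) - 1 = U - 1 := by linear_combination U * h3
    have e2 : ω ^ 2 * (ω ^ 2 * U) - 1 = ω * U - 1 := by linear_combination ω * U * h3
    rw [e1, e2]
    ring
  rw [i1] at d2
  rw [i2] at d3
  have hne : 3 * ω * (ω - 1) ≠ 0 :=
    mul_ne_zero (mul_ne_zero (by norm_num) hω0) (sub_ne_zero.2 hω1)
  apply mul_left_cancel₀ hne
  rw [mul_zero]
  linear_combination -d1 - d2 - d3 +
    (((U - 1) * (ω * U - 1) * (ω ^ 2 * U - 1)) ^ (2 * n + 2)) * hrel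

theorem Ft_coeff (ω : ℂ) (hω : ω ^ 2 + ω + 1 = 0) (n : ℕ) (P : ℂ[X])
    (hP : P.natDegree ≤ 2 * n)
    (hPz : ∀ x : ℂ, zz 0 (x :: List.replicate (2 * n + 1) 0) = (1 + x) * P.eval x) (k : ℕ) :
    (Ft ω n P).coeff (3 * k) = 0 := by
  have h3 : ω ^ 3 = 1 := by linear_combination (ω - 1) * hω
  set G : ℂ[X] := Ft ω n P + (Ft ω n P).comp (C ω * X) + (Ft ω n P).comp (C (ω ^ 2) * X) with hG
  have h1 : (X ^ 6 - 1) * G = 0 := by
    refine Polynomial.funext fun U => ?_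
    rw [eval_zero, eval_mul, hG, eval_add, eval_add, eval_comp, eval_comp]
    simp only [eval_sub, eval_pow, eval_X, eval_one, eval_mul, eval_C]
    by_cases hU : U ^ 6 = 1
    · rw [hU]; ring
    · rw [rot_generic ω hω n P hP hPz U hU, mul_zero]
  have h2 : (X ^ 6 - 1 : ℂ[X]) ≠ 0 := by
    intro h
    have := congrArg (fun p => p.eval 0) h
    simp at this
  have h4 : G = 0 := (mul_eq_zero.1 h1).resolve_left h2
  have h5 : G.coeff (3 * k) = 3 * (Ft ω n P).coeff (3 * k) := by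
    rw [hG, coeff_add, coeff_add, comp_C_mul_X_coeff, comp_C_mul_X_coeff, pow_mul ω, h3,
      ← pow_mul, mul_comm 2 (3 * k), mul_assoc, pow_mul, h3]
    simp
    ring
  rw [h4, coeff_zero] at h5
  have : (3 : ℂ) ≠ 0 := by norm_num
  exact (mul_eq_zero.1 h5.symm).resolve_left this

end Pool.Agent.K7.H27.OS
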