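import Pool.Agent.K7.H27.OS.Moments

/-!
Two hypergeometric sums.
-/

set_option autoImplicit false

namespace Pool.Agent.K7.H27.OS

theorem Apr_succ (k : ℕ) : Apr (k + 1) = Apr k * (3 * (k : ℂ) + 4) := by
  rw [Apr, Finset.prod_range_succ, Apr]

theorem Bpr_succ (k : ℕ) : Bpr (k + 1) = Bpr k * (3 * (k : ℂ) + 2) := by
  rw [Bpr, Finset.prod_range_succ, Bpr]

theorem Apr_zero : Apr 0 = 1 := by simp [Apr]

theorem Bpr_zero : Bpr 0 = 1 := by simp [Bpr]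

theorem c4_ne (k : ℕ) : (3 * (k : ℂ) + 4) ≠ 0 := by
  have : ((3 * k + 4 : ℕ) : ℂ) ≠ 0 := Nat.cast_ne_zero.2 (by omega)
  push_cast at this
  exact this

theorem c2_ne (k : ℕ) : (3 * (k : ℂ) + 2) ≠ 0 := by
  have : ((3 * k + 2 : ℕ) : ℂ) ≠ 0 := Nat.cast_ne_zero.2 (by omega)
  push_cast at this
  exact this

theorem c5_ne (k : ℕ) : (3 * (k : ℂ) + 5) ≠ 0 := by
  have : ((3 * k + 5 : ℕ) : ℂ) ≠ 0 := Nat.cast_ne_zero.2 (by omega)
  push_cast at this
  exact this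

theorem c1_ne (k : ℕ) : ((k : ℂ) + 1) ≠ 0 := by
  have : ((k + 1 : ℕ) : ℂ) ≠ 0 := Nat.cast_ne_zero.2 (by omega)
  push_cast at this
  exact this

theorem c12_ne (k : ℕ) : ((k : ℂ) + 2) ≠ 0 := by
  have : ((k + 2 : ℕ) : ℂ) ≠ 0 := Nat.cast_ne_zero.2 (by omega)
  push_cast at this
  exact this

theorem Apr_ne (k : ℕ) : Apr k ≠ 0 := Finset.prod_ne_zero_iff.2 fun j _ => c4_ne j

theorem Bpr_ne (k : ℕ) : Bpr k ≠ 0 := Finset.prod_ne_zero_iff.2 fun j _ => c2_ne j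

theorem fac_ne (k : ℕ) : (k.factorial : ℂ) ≠ 0 := Nat.cast_ne_zero.2 (Nat.factorial_ne_zero k)

/-- the basic term -/
noncomputable def tm (i j : ℕ) : ℂ := 1 / ((i.factorial : ℂ) * (j.factorial : ℂ) * Apr i * Bpr j)

theorem tm_succ_left (i j : ℕ) : tm (i + 1) j * (((i : ℂ) + 1) * (3 * (i : ℂ) + 4)) = tm i j := by
  unfold tm
  rw [Nat.factorial_succ, Apr_succ]
  have h1 := fac_ne i
  have h2 := fac_ne j
  have h3 := Apr_ne i
  have h4 := Bpr_ne j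
  have h5 := c4_ne i
  have h6 := c1_ne i
  push_cast
  rw [div_mul_eq_mul_div, div_eq_div_iff
    (mul_ne_zero (mul_ne_zero (mul_ne_zero (mul_ne_zero h6 h1) h2) (mul_ne_zero h3 h5)) h4)
    (mul_ne_zero (mul_ne_zero (mul_ne_zero h1 h2) h3) h4)]
  ring

theorem tm_succ_right (i j : ℕ) : tm i (j + 1) * (((j : ℂ) + 1) * (3 * (j : ℂ) + 2)) = tm i j := by
  unfold tm
  rw [Nat.factorial_succ, Bpr_succ]
  have h1 := fac_ne i
  have h2 := fac_ne j
  have h3 := Apr_ne i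
  have h4 := Bpr_ne j
  have h5 := c2_ne j
  have h6 := c1_ne j
  push_cast
  rw [div_mul_eq_mul_div, div_eq_div_iff
    (mul_ne_zero (mul_ne_zero (mul_ne_zero h1 (mul_ne_zero h6 h2)) h3) (mul_ne_zero h4 h5))
    (mul_ne_zero (mul_ne_zero (mul_ne_zero h1 h2) h3) h4)]
  ring

/-- first sum -/
noncomputable def VN (N : ℕ) : ℂ := ∑ i ∈ Finset.range (N + 1), tm i (N - i)

theorem VN_succ (N : ℕ) : ((N : ℂ) + 1) * (3 * N + 4) * (3 * N + 2) * VN (N + 1) =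
    6 * (2 * N + 1) * VN N := by
  -- the certificate
  set G : ℕ → ℂ := fun i => (i : ℂ) * (3 * i + 1) * (6 * i - 9 * N - 8) * tm i (N + 1 - i) with hG
  have h1 : ∀ i ∈ Finset.range (N + 1),
      ((N : ℂ) + 1) * (3 * N + 4) * (3 * N + 2) * tm i (N + 1 - i) -
        6 * (2 * N + 1) * tm i (N - i) = G (i + 1) - G i := by
    intro i hi
    rw [Finset.mem_range] at hi
    obtain ⟨j, rfl⟩ : ∃ j, N = i + j := ⟨N - i, by omega⟩
    simp only [hG]
    have e1 : i + j + 1 - i = j + 1 := by omega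
    have e2 : i + j - i = j := by omega
    have e3 : i + j + 1 - (i + 1) = j := by omega
    rw [e1, e2, e3]
    have r1 := tm_succ_right i j
    have r2 := tm_succ_left i j
    push_cast
    have r4 : tm (i + 1) j * (((i : ℂ) + 1) * (3 * (i : ℂ) + 4)) =
        tm i (j + 1) * (((j : ℂ) + 1) * (3 * (j : ℂ) + 2)) := by rw [r1, r2]
    linear_combination (6 * (2 * ((i : ℂ) + j) + 1)) * r1 -
      (6 * ((i : ℂ) + 1) - 9 * (i + j) - 8) * r4
  have h2 : ∑ i ∈ Finset.range (N + 1), (G (i + 1) - G i) = G (N + 1) - G 0 :=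
    Finset.sum_range_sub G (N + 1)
  rw [← Finset.sum_congr rfl h1, Finset.sum_sub_distrib, ← Finset.mul_sum, ← Finset.mul_sum] at h2
  rw [VN, VN, Finset.sum_range_succ]
  have h3 : G 0 = 0 := by simp [hG]
  have h4 : G (N + 1) = -(((N : ℂ) + 1) * (3 * N + 4) * (3 * N + 2) *
      tm (N + 1) (N + 1 - (N + 1))) := by
    simp only [hG]
    push_cast
    ring
  rw [h3, h4] at h2
  linear_combination h2

theorem VN_closed (N : ℕ) : VN N * ((N.factorial : ℂ) ^ 2 * Apr N * Bpr N) =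
    3 ^ N * ((2 * N).factorial : ℂ) := by
  induction N with
  | zero => simp [VN, tm, Apr_zero, Bpr_zero]
  | succ N ih =>
    have h := VN_succ N
    have h1 := c1_ne N
    have h2 := c4_ne N
    have h3 := c2_ne N
    rw [Nat.factorial_succ, Apr_succ, Bpr_succ, show 2 * (N + 1) = (2 * N + 1) + 1 by ring,
      Nat.factorial_succ, Nat.factorial_succ, pow_succ]
    push_cast
    linear_combination ((N : ℂ) + 1) * (N.factorial : ℂ) ^ 2 * Apr N * Bpr N * h +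
      (((N : ℂ) + 1)) * 6 * (2 * N + 1) * ih

/-- second sum -/
noncomputable def QN (N : ℕ) : ℂ :=
  ∑ i ∈ Finset.range (N + 1), (-1) ^ i * (3 * N - 1 - 6 * i) * tm i (N - i)

theorem QN_succ (N : ℕ) : ((N : ℂ) + 1) * (N + 2) * (3 * N + 2) * (3 * N + 4) * QN (N + 2) =
    -4 * QN N := by
  set G : ℕ → ℂ := fun i => (-1) ^ i * (i : ℂ) * (3 * i + 1) *
    (36 * i ^ 3 - (126 * N + 180) * i ^ 2 + (144 * N ^ 2 + 426 * N + 296) * i -
      (45 * N ^ 3 + 219 * N ^ 2 + 330 * N + 152)) * tm i (N + 2 - i) with hG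
  have h1 : ∀ i ∈ Finset.range (N + 1),
      ((N : ℂ) + 1) * (N + 2) * (3 * N + 2) * (3 * N + 4) *
        ((-1) ^ i * (3 * (N + 2 : ℕ) - 1 - 6 * i) * tm i (N + 2 - i)) +
        4 * ((-1) ^ i * (3 * N - 1 - 6 * i) * tm i (N - i)) = G (i + 1) - G i := by
    intro i hi
    rw [Finset.mem_range] at hi
    obtain ⟨j, rfl⟩ : ∃ j, N = i + j := ⟨N - i, by omega⟩
    simp only [hG]
    have e1 : i + j + 2 - i = (j + 1) + 1 := by omega
    have e2 : i + j - i = j := by omega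
    have e3 : i + j + 2 - (i + 1) = j + 1 := by omega
    rw [e1, e2, e3]
    have r0 := tm_succ_right i j
    have r1 := tm_succ_right i (j + 1)
    have r2 := tm_succ_left i (j + 1)
    push_cast at r1 ⊢
    have r3 : tm i j = tm i (j + 1 + 1) * (((j : ℂ) + 1 + 1) * (3 * ((j : ℂ) + 1) + 2)) *
        (((j : ℂ) + 1) * (3 * (j : ℂ) + 2)) := by rw [r1, r0]
    have r4 : tm (i + 1) (j + 1) * (((i : ℂ) + 1) * (3 * (i : ℂ) + 4)) =
        tm i (j + 1 + 1) * (((j : ℂ) + 1 + 1) * (3 * ((j : ℂ) + 1) + 2)) := by rw [r1, r2]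
    linear_combination (4 * ((-1) ^ i * (3 * ((i : ℂ) + j) - 1 - 6 * i))) * r3 +
      ((-1) ^ i * (36 * ((i : ℂ) + 1) ^ 3 - (126 * (i + j) + 180) * (i + 1) ^ 2 +
        (144 * (i + j) ^ 2 + 426 * (i + j) + 296) * (i + 1) -
      (45 * (i + j) ^ 3 + 219 * (i + j) ^ 2 + 330 * (i + j) + 152))) * r4
  have h2 : ∑ i ∈ Finset.range (N + 1), (G (i + 1) - G i) = G (N + 1) - G 0 :=
    Finset.sum_range_sub G (N + 1)
  rw [← Finset.sum_congr rfl h1, Finset.sum_add_distrib, ← Finset.mul_sum, ← Finset.mul_sum] at h2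
  have h3 : G 0 = 0 := by simp [hG]
  rw [h3] at h2
  have h4 : QN (N + 2) = ∑ i ∈ Finset.range (N + 1),
      ((-1) ^ i * (3 * (N + 2 : ℕ) - 1 - 6 * i) * tm i (N + 2 - i)) +
      (-1) ^ (N + 1) * (3 * (N + 2 : ℕ) - 1 - 6 * (N + 1 : ℕ)) * tm (N + 1) (N + 2 - (N + 1)) +
      (-1) ^ (N + 2) * (3 * (N + 2 : ℕ) - 1 - 6 * (N + 2 : ℕ)) * tm (N + 2) (N + 2 - (N + 2)) := by
    rw [QN, show N + 2 + 1 = (N + 1) + 1 + 1 by ring, Finset.sum_range_succ,
      Finset.sum_range_succ]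
  have h5 : QN N = ∑ i ∈ Finset.range (N + 1),
      ((-1) ^ i * (3 * N - 1 - 6 * i) * tm i (N - i)) := rfl
  rw [← h5] at h2
  rw [h4]
  have e1 : N + 2 - (N + 1) = 0 + 1 := by omega
  have e2 : N + 2 - (N + 2) = 0 := by omega
  have h6 : tm (N + 1 + 1) 0 * (((N + 1 : ℕ) + 1 : ℂ) * (3 * ((N + 1 : ℕ) : ℂ) + 4)) =
      tm (N + 1) (0 + 1) * (((0 : ℕ) + 1 : ℂ) * (3 * ((0 : ℕ) : ℂ) + 2)) := by
    rw [tm_succ_left, tm_succ_right]
  have h7 : tm (N + 2) 0 * (((N : ℂ) + 2) * (3 * N + 7)) = 2 * tm (N + 1) (0 + 1) := by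
    have : tm (N + 2) 0 = tm (N + 1 + 1) 0 := rfl
    rw [this]
    push_cast at h6
    linear_combination h6
  have h8 : G (N + 1) = (-1) ^ (N + 1) * ((N : ℂ) + 1) * (3 * N + 4) *
    (36 * (N + 1) ^ 3 - (126 * N + 180) * (N + 1) ^ 2 + (144 * N ^ 2 + 426 * N + 296) * (N + 1) -
      (45 * N ^ 3 + 219 * N ^ 2 + 330 * N + 152)) * tm (N + 1) (0 + 1) := by
    simp only [hG]
    rw [e1]
    push_cast
    ring
  rw [h8] at h2
  rw [e1, e2]
  push_cast at h2 ⊢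
  have h9 : ((-1 : ℂ)) ^ (N + 2) = -(-1) ^ (N + 1) := by rw [pow_succ]; ring
  rw [h9]
  linear_combination h2 + ((N : ℂ) + 1) * (3 * N + 2) * (3 * N + 4) * (-1) ^ (N + 1) * h7

theorem QN_one : QN 1 = 2 := by
  simp [QN, Finset.sum_range_succ, tm, Apr, Bpr]
  norm_num

end Pool.Agent.K7.H27.OS
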