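import Pool.Agent.K7.H27.OS.PfMain

/-!
The symmetry `s ↦ -s/(1-s)` of the kernel and its consequence for symmetric sets of points.
-/

set_option autoImplicit false

namespace Pool.Agent.K7.H27.OS

variable {F : Type*} [Field F]

theorem pf_scale_mem {A : Type*} (K K' : A → A → F) (c : F) (μ : A → F) : ∀ (m : ℕ) (l : List A),
    (∀ x ∈ l, ∀ y ∈ l, K' x y = c * (μ x * μ y) * K x y) →
    pf K' m l = c ^ m * (l.map μ).prod * pf K m l := by
  intro m
  induction m with
  | zero =>
    intro l _
    cases l with
    | nil => simp [pf_zero_nil]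
    | cons x l => simp [pf_zero_cons]
  | succ m ih =>
    intro l h
    cases l with
    | nil => simp [pf_succ_nil]
    | cons x l =>
      rw [pf_succ_cons, pf_succ_cons]
      have h1 : EX (fun z r => K' x z * pf K' m r) l =
          EX (fun z r => (μ z * (r.map μ).prod) * ((c ^ (m + 1) * μ x) * (K x z * pf K m r))) l := by
        refine EX_congr _ _ _ fun z r hr => ?_
        have hz : z ∈ x :: l := List.mem_cons_of_mem x (hr.subset (by simp))
        have hrl : ∀ a ∈ r, a ∈ x :: l := fun a ha =>
          List.mem_cons_of_mem x (hr.subset (List.mem_cons_of_mem z ha))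
        rw [h x (by simp) z hz, ih r (fun a ha b hb => h a (hrl a ha) b (hrl b hb))]
        ring
      rw [h1, EX_prod, EX_mul]
      simp only [List.map_cons, List.prod_cons]
      ring

/-- the involution -/
def tau (s : F) : F := -s / (1 - s)

theorem tau_tau (s : F) (hs : s ≠ 1) : tau (tau s) = s := by
  unfold tau
  have h1 : 1 - s ≠ 0 := sub_ne_zero.2 hs.symm
  have h2 : 1 - -s / (1 - s) = 1 / (1 - s) := by
    field_simp
    ring
  rw [h2]
  field_simp

theorem one_sub_tau (s : F) (hs : s ≠ 1) : (1 - s) * (1 - tau s) = 1 := by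
  unfold tau
  have h1 : 1 - s ≠ 0 := sub_ne_zero.2 hs.symm
  field_simp
  ring

theorem tau_zero : tau (0 : F) = 0 := by simp [tau]

/-- symmetric lists of points -/
def tp : List F → List F
  | [] => [0]
  | (s :: q) => s :: tau s :: tp q

theorem tp_length (q : List F) : (tp q).length = 2 * q.length + 1 := by
  induction q with
  | nil => rfl
  | cons s q ih => simp only [tp, List.length_cons, ih]; ring

theorem tp_one_sub_prod (q : List F) (hq : ∀ s ∈ q, s ≠ 1) :
    ((tp q).map (fun y => 1 - y)).prod = 1 := by
  induction q with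
  | nil => simp [tp]
  | cons s q ih =>
    simp only [tp, List.map_cons, List.prod_cons]
    rw [ih (fun a ha => hq a (List.mem_cons_of_mem s ha)), mul_one]
    exact one_sub_tau s (hq s (by simp))

theorem tp_swap (q : List F) (hq : ∀ s ∈ q, s ≠ 1) : ∀ (g : List (Option F) → F) (_ : Alt g)
    (Q : List (Option F)),
    g (((tp q).map tau).map some ++ Q) = (-1) ^ q.length * g ((tp q).map some ++ Q) := by
  induction q with
  | nil =>
    intro g _ Q
    simp [tp, tau_zero]
  | cons s q ih =>
    intro g hg Q
    simp only [tp, List.map_cons, List.cons_append]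
    rw [tau_tau s (hq s (by simp))]
    have h1 := hg [] (some (tau s)) (some s) (((tp q).map tau).map some ++ Q)
    simp only [List.nil_append] at h1
    rw [h1]
    have h2 := ih (fun a ha => hq a (List.mem_cons_of_mem s ha))
      (fun l => g (some s :: some (tau s) :: l)) ((hg.cons _).cons _) Q
    have h2' : g (some s :: some (tau s) :: (((tp q).map tau).map some ++ Q)) =
      (-1) ^ q.length * g (some s :: some (tau s) :: ((tp q).map some ++ Q)) := h2
    rw [h2', List.length_cons, pow_succ]
    ring

/-- the second border function -/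
def psi (s : F) : F := 1 / (1 - 2 * s)

/-- the involution with a border -/
def tau' : Option F → Option F
  | some s => some (tau s)
  | none => none

/-- scaling factors -/
def mu : Option F → F
  | some s => 1 - s
  | none => -1

theorem K0_tau (s t : F) (hs : s ≠ 1) (ht : t ≠ 1) :
    K0 (tau s) (tau t) = - ((1 - s) * (1 - t)) * K0 s t := by
  unfold K0 tau
  have h1 : 1 - s ≠ 0 := sub_ne_zero.2 hs.symm
  have h2 : 1 - t ≠ 0 := sub_ne_zero.2 ht.symm
  have e1 : -t / (1 - t) - -s / (1 - s) = (s - t) / ((1 - s) * (1 - t)) := by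
    field_simp; ring
  have e2 : 1 - -s / (1 - s) * (-t / (1 - t)) = (1 - s - t) / ((1 - s) * (1 - t)) := by
    field_simp; ring
  have e3 : 1 - -s / (1 - s) - -t / (1 - t) = (1 - s * t) / ((1 - s) * (1 - t)) := by
    field_simp; ring
  rw [e1, e2, e3]
  have h3 : (1 - s) * (1 - t) ≠ 0 := mul_ne_zero h1 h2
  by_cases h4 : 1 - s * t = 0
  · simp [h4]
  by_cases h5 : 1 - s - t = 0
  · simp [h5]
  field_simp
  ring

theorem KK_tau (x y : Option F) (hx : ∀ s, x = some s → s ≠ 1 ∧ s ≠ 2⁻¹)
    (hy : ∀ s, y = some s → s ≠ 1 ∧ s ≠ 2⁻¹) :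
    KK phi (tau' x) (tau' y) = (-1) * (mu x * mu y) * KK psi x y := by
  have key : ∀ s : F, s ≠ 1 → phi (tau s) = (1 - s) * psi s := by
    intro s hs
    unfold phi psi tau
    have h1 : 1 - s ≠ 0 := sub_ne_zero.2 hs.symm
    have e1 : 1 + -s / (1 - s) = (1 - 2 * s) / (1 - s) := by
      field_simp; ring
    rw [e1]
    by_cases h2 : 1 - 2 * s = 0
    · simp [h2]
    · field_simp
  rcases x with _ | s <;> rcases y with _ | t
  · simp [KK, tau']
  · simp only [KK, tau', mu]
    rw [key t (hy t rfl).1]
    ring
  · simp only [KK, tau', mu]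
    rw [key s (hx s rfl).1]
    ring
  · simp only [KK, tau', mu]
    rw [K0_tau s t (hx s rfl).1 (hy t rfl).1]
    ring

theorem pf_phi_psi (q : List F) (hp : ∀ s ∈ tp q, s ≠ 1 ∧ s ≠ 2⁻¹) (hq : ∀ s ∈ q, s ≠ 1) :
    pf (KK phi) (q.length + 1) ((tp q).map some ++ [none]) =
      pf (KK psi) (q.length + 1) ((tp q).map some ++ [none]) := by
  have h1 := tp_swap q hq (pf (KK phi) (q.length + 1)) (pf_alt _ (KK_skew phi) _) [none]
  have h2 : ((tp q).map tau).map some ++ [none] = ((tp q).map some ++ [none]).map tau' := by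
    simp [tau', Function.comp_def]
  rw [h2, pf_map] at h1
  have h3 := pf_scale_mem (KK psi) (fun x y => KK phi (tau' x) (tau' y)) (-1) mu (q.length + 1)
    ((tp q).map some ++ [none]) (fun x hx y hy => ?_)
  · rw [h3] at h1
    have h4 : (((tp q).map some ++ [none]).map mu).prod = -1 := by
      rw [List.map_append, List.prod_append, List.map_map]
      have : (mu ∘ some : F → F) = fun y => 1 - y := rfl
      rw [this, tp_one_sub_prod q hq]
      simp [mu]
    rw [h4, pow_succ] at h1
    have h5 : ((-1 : F) ^ q.length) ≠ 0 := pow_ne_zero _ (by simp)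
    apply mul_left_cancel₀ h5
    rw [← h1]
    ring
  · have aux : ∀ x ∈ (tp q).map some ++ [none], ∀ s : F, x = some s → s ≠ 1 ∧ s ≠ 2⁻¹ := by
      intro x hx s hs
      subst hs
      rw [List.mem_append, List.mem_map] at hx
      rcases hx with ⟨s', hs', h⟩ | h
      · rw [← Option.some_inj.1 h]
        exact hp s' hs'
      · simp at h
    exact KK_tau x y (aux x hx) (aux y hy)

theorem pf_some (φ : F → F) (m : ℕ) (t : List F) : pf (KK φ) m (t.map some) = pf K0 m t := by
  rw [pf_map]
  rfl

theorem pf_border_add (φ ψ : F → F) : ∀ (m : ℕ) (t : List F),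
    pf (KK (fun s => φ s + ψ s)) m (t.map some ++ [none]) =
      pf (KK φ) m (t.map some ++ [none]) + pf (KK ψ) m (t.map some ++ [none]) := by
  intro m
  induction m with
  | zero =>
    intro t
    cases t <;> simp [pf_zero_cons]
  | succ m ih =>
    intro t
    cases t with
    | nil => simp [pf_succ_cons, EX_nil]
    | cons x t =>
      simp only [List.map_cons, List.cons_append, pf_succ_cons, EX_concat, EX_map_list, pf_some,
        ih, KK, mul_add, EX_add, add_mul, smul_add]
      ring

theorem K0_two (s : F) (hs : 1 - 2 * s ≠ 0) (hs' : 1 + s ≠ 0) :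
    phi s + psi s = - K0 s 2 := by
  unfold phi psi K0
  have h1 : 1 - s * 2 ≠ 0 := by rwa [mul_comm]
  have h2 : 1 - s - 2 ≠ 0 := by
    intro h; apply hs'; linear_combination -h
  have h3 : (1 - s - 2 : F) = -(1 + s) := by ring
  rw [h3, mul_comm s 2]
  field_simp
  ring

/-- replacing the border by the point `2` -/
def g2 : Option F → Option F
  | some s => some s
  | none => some 2

/-- signs -/
def mu2 : Option F → F
  | some _ => 1
  | none => -1

theorem pf_two (t : List F) (m : ℕ) (ht : ∀ s ∈ t, 1 - 2 * s ≠ 0 ∧ 1 + s ≠ 0) :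
    pf (KK (fun s => phi s + psi s)) m (t.map some ++ [none]) =
      - pf (KK phi) m ((t ++ [2]).map some) := by
  have h1 : (t ++ [(2 : F)]).map some = (t.map some ++ [none]).map g2 := by
    simp [g2, Function.comp_def]
  rw [h1, pf_map]
  have h3 := pf_scale_mem (fun x y => KK phi (g2 x) (g2 y))
    (KK (fun s : F => phi s + psi s)) 1 mu2 m (t.map some ++ [none]) (fun x hx y hy => ?_)
  · rw [h3]
    have h4 : ((t.map some ++ [none]).map (mu2 : Option F → F)).prod = -1 := by
      rw [List.map_append, List.prod_append, List.map_map]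
      have : (mu2 ∘ some : F → F) = fun y => 1 := rfl
      rw [this]
      simp [mu2]
    rw [h4]
    ring
  · have aux : ∀ x ∈ t.map some ++ [none], ∀ s : F, x = some s →
        phi s + psi s = - K0 s 2 := by
      intro x hx s hs
      subst hs
      rw [List.mem_append, List.mem_map] at hx
      rcases hx with ⟨s', hs', h⟩ | h
      · rw [← Option.some_inj.1 h]
        exact K0_two s' (ht s' hs').1 (ht s' hs').2
      · simp at h
    rcases x with _ | s <;> rcases y with _ | s'
    · simp [KK, g2, K0]
    · simp only [KK, g2, mu2]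
      rw [aux _ hy s' rfl, K0_skew 2 s']
      ring
    · simp only [KK, g2, mu2]
      rw [aux _ hx s rfl]
      ring
    · simp only [KK, g2, mu2]
      ring

theorem Gen.Dl_ne {t : List F} (ht : Gen t) : Dl t ≠ 0 := by
  induction t with
  | nil => simp [Dl]
  | cons x t ih =>
    simp only [Dl]
    refine mul_ne_zero ?_ (ih (ht.sub (List.sublist_cons_self x t)))
    refine List.prod_ne_zero ?_
    intro h
    rw [List.mem_map] at h
    obtain ⟨y, hy, hyx⟩ := h
    have := ht.nd
    rw [List.nodup_cons] at this
    apply this.1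
    rw [← sub_eq_zero.1 hyx]
    exact hy

theorem Gen.Nl_ne {t : List F} (ht : Gen t) : Nl t ≠ 0 := by
  induction t with
  | nil => simp [Nl]
  | cons x t ih =>
    simp only [Nl]
    refine mul_ne_zero ?_ (ih (ht.sub (List.sublist_cons_self x t)))
    refine List.prod_ne_zero ?_
    intro h
    rw [List.mem_map] at h
    obtain ⟨y, hy, hyx⟩ := h
    rcases mul_eq_zero.1 hyx with h | h
    · exact ht.mul x (by simp) y (by simp [hy]) (by linear_combination -h)
    · exact ht.add x (by simp) y (by simp [hy]) (by linear_combination -h)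

theorem Gen.one_add_ne {t : List F} (ht : Gen t) : (t.map (fun y => 1 + y)).prod ≠ 0 := by
  refine List.prod_ne_zero ?_
  intro h
  rw [List.mem_map] at h
  obtain ⟨y, hy, hyx⟩ := h
  exact ht.neg y hy (by linear_combination hyx)

/-- the identity between the odd and the even state sums at symmetric points -/
theorem tau_identity [NeZero (2 : F)] (q : List F) (hp : Gen (tp q)) :
    6 * zz 1 (tp q) * ((tp q).map (fun y => (1 - 2 * y) * (1 - 2 - y))).prod =
      zz 0 (2 :: tp q) * ((tp q).map (fun y => y - 2)).prod := by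
  have hsub : ∀ s ∈ q, s ∈ tp q := by
    clear hp
    induction q with
    | nil => simp
    | cons a q ih =>
      intro s hs
      simp only [tp]
      rcases List.mem_cons.1 hs with h | h
      · simp [h]
      · simp [ih s h]
  have h2 : (2 : F) ≠ 0 := NeZero.ne 2
  have hne : ∀ s ∈ tp q, s ≠ 1 ∧ s ≠ 2⁻¹ := by
    intro s hs
    constructor
    · rintro rfl
      exact hp.mul _ hs _ hs (by ring)
    · rintro rfl
      exact hp.add _ hs _ hs (by field_simp; norm_num)
  have hq : ∀ s ∈ q, s ≠ 1 := fun s hs => (hne s (hsub s hs)).1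
  have hne2 : ∀ s ∈ tp q, 1 - 2 * s ≠ 0 ∧ 1 + s ≠ 0 := by
    intro s hs
    refine ⟨fun h => hp.add _ hs _ hs (by linear_combination -h), fun h => hp.neg _ hs ?_⟩
    linear_combination h
  have e1 := pf_phi_psi q hne hq
  have e2 := pf_border_add phi psi (q.length + 1) (tp q)
  rw [pf_two _ _ hne2, ← e1] at e2
  have e3 := (pf_alt (KK phi) (KK_skew (phi : F → F)) (q.length + 1)).move (some (2 : F)) []
    ((tp q).map some)
  have e4 : (tp q).map some ++ some (2 : F) :: [] = (tp q ++ [2]).map some := by simp
  rw [e4, List.append_nil, List.length_map, tp_length] at e3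
  have e5 : ((-1 : ℤ) ^ (2 * q.length + 1)) = -1 := by
    rw [pow_succ, pow_mul]; simp
  rw [e5, neg_one_smul] at e3
  rw [e3] at e2
  have f1 := pf_formula _ _ le_rfl hp true (q.length + 1) (by rw [tp_length]; simp; ring)
  simp only [Bool.toNat_true, tl, if_true] at f1
  have f2 := main_poly (tp q) hp false q.length (by rw [tp_length]; simp)
    (fun t' ht' => pf_formula _ _ le_rfl (hp.sub ht')) 2
  have hw : ∀ z ∈ (tp q).map some ++ tl false, wt (2 : F) z ≠ 0 := by
    intro z hz
    simp only [tl, List.append_nil, List.mem_map, Bool.false_eq_true, if_false] at hz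
    obtain ⟨s, hs, rfl⟩ := hz
    simp only [wt]
    refine mul_ne_zero (hne2 s hs).1 ?_
    intro h
    apply (hne2 s hs).2
    linear_combination -h
  rw [RH_eq _ _ _ hw] at f2
  simp only [Bool.toNat_false, tl, Bool.false_eq_true, if_false, List.append_nil, LH, cb,
    List.map_map] at f2
  have hw2 : ((tp q).map (wt (2 : F) ∘ some)).prod =
      ((tp q).map (fun y => (1 - 2 * y) * (1 - 2 - y))).prod := rfl
  rw [hw2] at f2
  have g1 := hp.Dl_ne
  generalize pf (KK phi) (q.length + 1) (some 2 :: List.map some (tp q)) = B1 at *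
  generalize pf (KK phi) (q.length + 1) (List.map some (tp q) ++ [none]) = B2 at *
  generalize ((tp q).map (fun y => (1 - 2 * y) * (1 - 2 - y))).prod = B3 at *
  generalize ((tp q).map (fun y => y - 2)).prod = B4 at *
  generalize ((tp q).map (fun y => 1 + y)).prod = B5 at *
  apply mul_left_cancel₀ g1
  linear_combination (6 * B3) * f1 - f2 - 3 * B5 * Nl (tp q) * B3 * e2

end Pool.Agent.K7.H27.OS
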