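import Pool.Agent.K7.H27.OS.Lim

/-!
The three-term relation for the even state sum.
-/

set_option autoImplicit false

namespace Pool.Agent.K7.H27.OS

open Polynomial Filter Topology

variable {F : Type*} [Field F]

/-- prefactor -/
def gg (z : F) : F := (2 - z) * (1 - z + z ^ 2) / (1 - z)

theorem three (z y : F) (hz : z ≠ 0) (hz1 : 1 - z ≠ 0) (hA : 1 - z * y ≠ 0)
    (hB : 1 - z - y ≠ 0) (hC : z + y - z * y ≠ 0) :
    gg z * K0 z y + gg (1 / (1 - z)) * K0 (1 / (1 - z)) y +
      gg ((z - 1) / z) * K0 ((z - 1) / z) y = 0 := by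
  have e1 : gg (1 / (1 - z)) = - ((1 - 2 * z) * (1 - z + z ^ 2) / (z * (1 - z) ^ 2)) := by
    unfold gg
    have : 1 - 1 / (1 - z) = - z / (1 - z) := by field_simp; ring
    rw [this]
    field_simp
    ring
  have e2 : gg ((z - 1) / z) = (1 + z) * (1 - z + z ^ 2) / z ^ 2 := by
    unfold gg
    have : 1 - (z - 1) / z = 1 / z := by field_simp; ring
    rw [this]
    field_simp
    ring
  have e3 : K0 (1 / (1 - z)) y = - ((1 - z) * (y * (1 - z) - 1) /
      ((1 - z - y) * (z + y - z * y))) := by
    unfold K0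
    have h1 : 1 - 1 / (1 - z) * y = (1 - z - y) / (1 - z) := by field_simp
    have h2 : 1 - 1 / (1 - z) - y = - (z + y - z * y) / (1 - z) := by field_simp; ring
    rw [h1, h2]
    field_simp
  have e4 : K0 ((z - 1) / z) y = z * (y * z - z + 1) /
      ((z + y - z * y) * (1 - z * y)) := by
    unfold K0
    have h1 : 1 - (z - 1) / z * y = (z + y - z * y) / z := by field_simp; ring
    have h2 : 1 - (z - 1) / z - y = (1 - z * y) / z := by field_simp; ring
    rw [h1, h2]
    field_simp
    ring
  rw [e1, e2, e3, e4]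
  unfold gg K0
  field_simp
  ring

/-- the three-term relation for a generic list -/
theorem three_list [NeZero (2 : F)] (t : List F) (ht : Gen t) (n : ℕ)
    (hn : t.length = 2 * n + 1) (z : F) (hz : z ≠ 0) (hz1 : 1 - z ≠ 0) (hz2 : 1 + z ≠ 0)
    (hz3 : 2 - z ≠ 0) (hz4 : 2 * z - 1 ≠ 0)
    (hABC : ∀ y ∈ t, 1 - z * y ≠ 0 ∧ 1 - z - y ≠ 0 ∧ z + y - z * y ≠ 0) :
    gg z / (1 + z) * zz 0 (z :: t) * (t.map (fun y => (y - z) * (z + y - z * y))).prod +
    gg (1 / (1 - z)) / (1 + 1 / (1 - z)) * zz 0 (1 / (1 - z) :: t) *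
      (t.map (fun y => (y - 1 / (1 - z)) * (-(1 - z) ^ 2) * (1 - z * y))).prod +
    gg ((z - 1) / z) / (1 + (z - 1) / z) * zz 0 ((z - 1) / z :: t) *
      (t.map (fun y => (y - (z - 1) / z) * z ^ 2 * (1 - z - y))).prod = 0 := by
  -- the expansion for a general point
  have main : ∀ x : F, 1 + x ≠ 0 → (∀ y ∈ t, wt x (some y) ≠ 0) →
      zz 0 (x :: t) * Dl t * (t.map (fun y => y - x)).prod =
      (1 + x) * ((t.map (fun y => 1 + y)).prod * Nl t) *
        ((t.map (fun y => wt x (some y))).prod *
          EX (fun y r => K0 x y * pf K0 n r) t) := by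
    intro x hx hw
    have h1 := main_poly t ht false n (by rw [hn]; simp)
      (fun t' ht' => pf_formula _ _ le_rfl (ht.sub ht')) x
    rw [RH_eq _ _ _ (by
      intro w hw'
      simp only [tl, Bool.false_eq_true, if_false, List.append_nil, List.mem_map] at hw'
      obtain ⟨y, hy, rfl⟩ := hw'
      exact hw y hy)] at h1
    simp only [Bool.toNat_false, tl, Bool.false_eq_true, if_false, List.append_nil, LH, cb,
      List.map_map] at h1
    have h2 : some x :: List.map some t = (x :: t).map some := by simp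
    rw [h2, pf_some, pf_succ_cons] at h1
    rw [h1]
    have h3 : (t.map (wt x ∘ some)).prod = (t.map (fun y => wt x (some y))).prod := rfl
    rw [h3]
    ring
  have hEX : gg z * EX (fun y r => K0 z y * pf K0 n r) t +
      gg (1 / (1 - z)) * EX (fun y r => K0 (1 / (1 - z)) y * pf K0 n r) t +
      gg ((z - 1) / z) * EX (fun y r => K0 ((z - 1) / z) y * pf K0 n r) t = 0 := by
    rw [← EX_mul, ← EX_mul, ← EX_mul, ← EX_add, ← EX_add]
    refine EX_zero _ _ fun y r hr => ?_
    obtain ⟨hA, hB, hC⟩ := hABC y (hr.subset (by simp))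
    have := three z y hz hz1 hA hB hC
    linear_combination (pf K0 n r) * this
  -- the three instances
  have hr1 : 1 + 1 / (1 - z) ≠ 0 := by
    have : 1 + 1 / (1 - z) = (2 - z) / (1 - z) := by field_simp; ring
    rw [this]
    exact div_ne_zero hz3 hz1
  have hr2 : 1 + (z - 1) / z ≠ 0 := by
    have : 1 + (z - 1) / z = (2 * z - 1) / z := by field_simp; ring
    rw [this]
    exact div_ne_zero hz4 hz
  have w1 : ∀ y, wt z (some y) = (1 - z * y) * (1 - z - y) := fun y => rfl
  have w2 : ∀ y, wt (1 / (1 - z)) (some y) = (1 - z - y) * (z + y - z * y) *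
      (-((1 - z) ^ 2)⁻¹) := by
    intro y
    simp only [wt]
    field_simp
    ring
  have w3 : ∀ y, wt ((z - 1) / z) (some y) = (1 - z * y) * (z + y - z * y) * (z ^ 2)⁻¹ := by
    intro y
    simp only [wt]
    field_simp
    ring
  have m1 := main z hz2 (fun y hy => by
    rw [w1]; exact mul_ne_zero (hABC y hy).1 (hABC y hy).2.1)
  have m2 := main (1 / (1 - z)) hr1 (fun y hy => by
    rw [w2]
    exact mul_ne_zero (mul_ne_zero (hABC y hy).2.1 (hABC y hy).2.2)
      (neg_ne_zero.2 (inv_ne_zero (pow_ne_zero 2 hz1))))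
  have m3 := main ((z - 1) / z) hr2 (fun y hy => by
    rw [w3]
    exact mul_ne_zero (mul_ne_zero (hABC y hy).1 (hABC y hy).2.2)
      (inv_ne_zero (pow_ne_zero 2 hz)))
  -- products
  set PA := (t.map (fun y => 1 - z * y)).prod with hPA
  set PB := (t.map (fun y => 1 - z - y)).prod with hPB
  set PC := (t.map (fun y => z + y - z * y)).prod with hPC
  have q1 : (t.map (fun y => wt z (some y))).prod = PA * PB := by
    rw [hPA, hPB, ← List.prod_map_mul]; rfl
  have q2 : (t.map (fun y => wt (1 / (1 - z)) (some y))).prod * (-(1 - z) ^ 2) ^ t.length =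
      PB * PC := by
    have : (t.map (fun _ : F => (-(1 - z) ^ 2))).prod = (-(1 - z) ^ 2) ^ t.length := by
      rw [List.map_const', List.prod_replicate]
    rw [← this, hPB, hPC, ← List.prod_map_mul, ← List.prod_map_mul]
    congr 2
    funext y
    rw [w2]
    field_simp
  have q3 : (t.map (fun y => wt ((z - 1) / z) (some y))).prod * (z ^ 2) ^ t.length =
      PA * PC := by
    have : (t.map (fun _ : F => (z ^ 2))).prod = (z ^ 2) ^ t.length := by
      rw [List.map_const', List.prod_replicate]
    rw [← this, hPA, hPC, ← List.prod_map_mul, ← List.prod_map_mul]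
    congr 2
    funext y
    rw [w3]
    field_simp
  have p1 : (t.map (fun y => (y - z) * (z + y - z * y))).prod =
      (t.map (fun y => y - z)).prod * PC := by
    rw [hPC, ← List.prod_map_mul]
  have p2 : (t.map (fun y => (y - 1 / (1 - z)) * (-(1 - z) ^ 2) * (1 - z * y))).prod =
      (t.map (fun y => y - 1 / (1 - z))).prod * (-(1 - z) ^ 2) ^ t.length * PA := by
    have : (t.map (fun _ : F => (-(1 - z) ^ 2))).prod = (-(1 - z) ^ 2) ^ t.length := by
      rw [List.map_const', List.prod_replicate]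
    rw [← this, hPA, ← List.prod_map_mul, ← List.prod_map_mul]
  have p3 : (t.map (fun y => (y - (z - 1) / z) * z ^ 2 * (1 - z - y))).prod =
      (t.map (fun y => y - (z - 1) / z)).prod * (z ^ 2) ^ t.length * PB := by
    have : (t.map (fun _ : F => (z ^ 2))).prod = (z ^ 2) ^ t.length := by
      rw [List.map_const', List.prod_replicate]
    rw [← this, hPB, ← List.prod_map_mul, ← List.prod_map_mul]
  rw [p1, p2, p3]
  rw [q1] at m1
  have hD := ht.Dl_ne
  apply mul_left_cancel₀ hD
  rw [mul_zero]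
  set c := (t.map (fun y => 1 + y)).prod * Nl t with hc
  have n1 : gg z / (1 + z) * (zz 0 (z :: t) * Dl t * (t.map (fun y => y - z)).prod) =
      c * (PA * PB) * (gg z * EX (fun y r => K0 z y * pf K0 n r) t) := by
    rw [m1]
    field_simp
  have n2 : gg (1 / (1 - z)) / (1 + 1 / (1 - z)) *
      (zz 0 (1 / (1 - z) :: t) * Dl t * (t.map (fun y => y - 1 / (1 - z))).prod) *
        (-(1 - z) ^ 2) ^ t.length =
      c * (PB * PC) * (gg (1 / (1 - z)) *
        EX (fun y r => K0 (1 / (1 - z)) y * pf K0 n r) t) := by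
    rw [m2, ← q2]
    generalize (1 / (1 - z)) = r at *
    field_simp
  have n3 : gg ((z - 1) / z) / (1 + (z - 1) / z) *
      (zz 0 ((z - 1) / z :: t) * Dl t * (t.map (fun y => y - (z - 1) / z)).prod) *
        (z ^ 2) ^ t.length =
      c * (PA * PC) * (gg ((z - 1) / z) *
        EX (fun y r => K0 ((z - 1) / z) y * pf K0 n r) t) := by
    rw [m3, ← q3]
    generalize ((z - 1) / z) = r at *
    field_simp
  linear_combination PC * n1 + PA * n2 + PB * n3 + c * PA * PB * PC * hEX

end Pool.Agent.K7.H27.OS
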