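import Pool.Agent.K7.H27.OS.Rot
import Pool.Agent.K7.H27.OS.Sums

/-!
The values of the refined even generating polynomial at 0, 1 and 2.
-/

set_option autoImplicit false

namespace Pool.Agent.K7.H27.OS

open Polynomial

theorem Yh_deg (ω : ℂ) (n : ℕ) (P : ℂ[X]) : (Yh ω n P).natDegree ≤ 2 * n := by
  unfold Yh
  refine natDegree_sum_le_of_forall_le _ _ fun k hk => ?_
  rw [Finset.mem_range] at hk
  refine natDegree_mul_le.trans ?_
  have h1 : (C (P.coeff k) * (X - 1) ^ k : ℂ[X]).natDegree ≤ k := by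
    refine natDegree_mul_le.trans ?_
    rw [natDegree_C, zero_add]
    refine natDegree_pow_le.trans ?_
    have : (X - 1 : ℂ[X]).natDegree ≤ 1 := by compute_degree
    nlinarith
  have h2 : ((C (-ω) * (C ω * X - 1)) ^ (2 * n - k) : ℂ[X]).natDegree ≤ 2 * n - k := by
    refine natDegree_pow_le.trans ?_
    have : (C (-ω) * (C ω * X - 1) : ℂ[X]).natDegree ≤ 1 := by
      refine natDegree_mul_le.trans ?_
      rw [natDegree_C, zero_add]
      compute_degree
    calc (2 * n - k) * _ ≤ (2 * n - k) * 1 := Nat.mul_le_mul_left _ this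
      _ = _ := mul_one _
  omega

theorem exists_omega : ∃ ω : ℂ, ω ^ 2 + ω + 1 = 0 := by
  obtain ⟨s, hs⟩ := IsAlgClosed.exists_pow_nat_eq (-3 : ℂ) (n := 2) (by norm_num)
  refine ⟨(-1 + s) / 2, ?_⟩
  linear_combination hs / 4

theorem values (n : ℕ) (P : ℂ[X]) (hP : P.natDegree ≤ 2 * n)
    (hPz : ∀ x : ℂ, zz 0 (x :: List.replicate (2 * n + 1) 0) = (1 + x) * P.eval x) :
    3 * (-27) ^ n * P.eval 1 * 3 ^ (2 * n + 1) =
      ((4 * n + 3).factorial : ℂ) * (2 * ((-3) ^ n * P.eval 0)) * VN (2 * n + 1) ∧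
    2 ^ (4 * n + 3) * P.eval 2 * 3 ^ (2 * n + 1) =
      ((4 * n + 3).factorial : ℂ) * (2 * ((-3) ^ n * P.eval 0)) * QN (2 * n + 1) := by
  obtain ⟨ω, hω⟩ := exists_omega
  have hω0 : ω ≠ 0 := by
    rintro rfl
    simp at hω
  have h3 : ω ^ 3 = 1 := by linear_combination (ω - 1) * hω
  have hω1 : ω ≠ 1 := by
    rintro rfl
    norm_num at hω
  set N := 2 * n + 1 with hN
  set A : ℂ[X] := X * (X + 1) * Yh ω n P with hA
  have hFt : Ft ω n P = (X - 1) ^ (2 * N + 1) * A := by
    rw [Ft, hA, show 4 * n + 3 = 2 * N + 1 by omega]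
    ring
  have hdeg : (Ft ω n P).natDegree < 3 * (N + 1) := by
    have h1 : (X * (X + 1) * (X - 1) ^ (4 * n + 3) : ℂ[X]).natDegree ≤ 4 * n + 5 := by
      have : (X * (X + 1) : ℂ[X]).natDegree ≤ 2 := by compute_degree
      have h2 : ((X - 1) ^ (4 * n + 3) : ℂ[X]).natDegree ≤ 4 * n + 3 := by
        refine natDegree_pow_le.trans ?_
        have : (X - 1 : ℂ[X]).natDegree ≤ 1 := by compute_degree
        calc (4 * n + 3) * _ ≤ (4 * n + 3) * 1 := Nat.mul_le_mul_left _ this
          _ = _ := mul_one _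
      refine natDegree_mul_le.trans ?_
      omega
    have h2 := Yh_deg ω n P
    have : (Ft ω n P).natDegree ≤ 4 * n + 5 + 2 * n := by
      rw [Ft]
      exact natDegree_mul_le.trans (add_le_add h1 h2)
    omega
  have hc0 : ∀ k, (Ft ω n P).coeff (3 * k) = 0 := Ft_coeff ω hω n P hP hPz
  -- the constant
  have hY1 : (Yh ω n P).eval 1 = (-3) ^ n * P.eval 0 := by
    have hv : -ω * (ω * 1 - 1) ≠ 0 := by
      rw [mul_one]
      exact mul_ne_zero (neg_ne_zero.2 hω0) (sub_ne_zero.2 hω1)
    rw [Yh_eval ω n P hP 1 hv, sub_self, zero_div, pow_mul]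
    congr 2
    linear_combination (ω ^ 2 - 3 * ω + 3) * hω
  set κ : ℂ := ((4 * n + 3).factorial : ℂ) * (2 * ((-3) ^ n * P.eval 0)) with hκ
  have hκ' : ((2 * N + 1).factorial : ℂ) * A.eval 1 = κ := by
    rw [hκ, hA, show 2 * N + 1 = 4 * n + 3 by omega]
    simp only [eval_mul, eval_add, eval_X, eval_one, hY1]
    ring
  have h3N : (3 : ℂ) ^ N ≠ 0 := pow_ne_zero _ (by norm_num)
  -- coefficients
  have k1 : ∀ i ∈ Finset.range (N + 1),
      (Ft ω n P).coeff (3 * i + 1) * 3 ^ N = - κ * tm (N - i) i := by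
    intro i hi
    rw [Finset.mem_range] at hi
    have := coef_one N i (N - i) (by omega) A (by rw [← hFt]; exact hdeg)
      (by rw [← hFt]; exact hc0)
    rw [← hFt, hκ'] at this
    unfold tm
    have h1 := fac_ne i
    have h2 := fac_ne (N - i)
    have h3' := Apr_ne (N - i)
    have h4 := Bpr_ne i
    rw [mul_one_div, eq_div_iff (mul_ne_zero (mul_ne_zero (mul_ne_zero h2 h1) h3') h4)]
    linear_combination -this
  have k2 : ∀ i ∈ Finset.range (N + 1),
      (Ft ω n P).coeff (3 * i + 2) * 3 ^ N = κ * tm i (N - i) := by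
    intro i hi
    rw [Finset.mem_range] at hi
    have := coef_two N i (N - i) (by omega) A (by rw [← hFt]; exact hdeg)
      (by rw [← hFt]; exact hc0)
    rw [← hFt, hκ'] at this
    unfold tm
    have h1 := fac_ne i
    have h2 := fac_ne (N - i)
    have h3' := Apr_ne i
    have h4 := Bpr_ne (N - i)
    rw [mul_one_div, eq_div_iff (mul_ne_zero (mul_ne_zero (mul_ne_zero h1 h2) h3') h4)]
    linear_combination this
  have hrefl : ∑ i ∈ Finset.range (N + 1), tm (N - i) i = VN N := by
    rw [VN, ← Finset.sum_range_reflect]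
    refine Finset.sum_congr rfl fun i hi => ?_
    rw [Finset.mem_range] at hi
    congr 1 <;> omega
  constructor
  · -- evaluation at ω
    have e1 : (Ft ω n P).eval ω * 3 ^ N = κ * VN N * (ω ^ 2 - ω) := by
      rw [eval_eq_sum_range' hdeg, sum_range_three, Finset.sum_mul]
      have : ∀ i ∈ Finset.range (N + 1),
          ((Ft ω n P).coeff (3 * i) * ω ^ (3 * i) + (Ft ω n P).coeff (3 * i + 1) *
            ω ^ (3 * i + 1) + (Ft ω n P).coeff (3 * i + 2) * ω ^ (3 * i + 2)) * 3 ^ N =
          (-κ * ω) * tm (N - i) i + (κ * ω ^ 2) * tm i (N - i) := by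
        intro i hi
        have h1 := k1 i hi
        have h2 := k2 i hi
        have h4 : ω ^ (3 * i) = 1 := by rw [pow_mul, h3, one_pow]
        rw [pow_succ, pow_add, h4, hc0]
        linear_combination ω * h1 + ω ^ 2 * h2
      rw [Finset.sum_congr rfl this, Finset.sum_add_distrib, ← Finset.mul_sum, ← Finset.mul_sum,
        hrefl]
      have : ∑ i ∈ Finset.range (N + 1), tm i (N - i) = VN N := rfl
      rw [this]
      ring
    have hb1 : ω * ω - 1 ≠ 0 := by
      intro h
      have : 2 + ω = 0 := by linear_combination hω - h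
      have h8 : ω = -2 := by linear_combination this
      rw [h8] at hω
      norm_num at hω
    have hv : -ω * (ω * ω - 1) ≠ 0 := mul_ne_zero (neg_ne_zero.2 hω0) hb1
    have hv' : -ω * (ω * ω - 1) = ω - 1 := by linear_combination -h3
    have e2 : (Yh ω n P).eval ω = (ω - 1) ^ (2 * n) * P.eval 1 := by
      rw [Yh_eval ω n P hP ω hv, hv', div_self (sub_ne_zero.2 hω1)]
    rw [Ft_eval, e2] at e1
    have e3 : ω * (ω + 1) = -1 := by linear_combination hω
    have e4 : (ω - 1) ^ (4 * n + 3) * ((ω - 1) ^ (2 * n)) = (-27) ^ n * (3 * (ω - ω ^ 2)) := by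
      rw [← pow_add, show 4 * n + 3 + 2 * n = 6 * n + 3 by ring, pow_add, pow_mul]
      have e5 : (ω - 1) ^ 6 = -27 := by
        have : (ω - 1) ^ 2 = -3 * ω := by linear_combination hω
        calc (ω - 1) ^ 6 = ((ω - 1) ^ 2) ^ 3 := by ring
          _ = (-3 * ω) ^ 3 := by rw [this]
          _ = -27 * ω ^ 3 := by ring
          _ = -27 := by rw [h3]; ring
      have e6 : (ω - 1) ^ 3 = 3 * (ω - ω ^ 2) := by linear_combination h3
      rw [e5, e6]
    rw [e3] at e1
    have hne : ω ^ 2 - ω ≠ 0 := by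
      have : ω ^ 2 - ω = ω * (ω - 1) := by ring
      rw [this]
      exact mul_ne_zero hω0 (sub_ne_zero.2 hω1)
    apply mul_right_cancel₀ hne
    linear_combination e1 + (P.eval 1) * 3 ^ N * e4
  · -- evaluation of the derivative at -1
    have hth : (X * derivative (Ft ω n P)).natDegree < 3 * (N + 1) :=
      (theta_deg _).trans_lt hdeg
    have hodd : ((-1 : ℂ)) ^ N = -1 := by rw [hN, pow_succ, pow_mul]; simp
    have e1 : (X * derivative (Ft ω n P)).eval (-1) * 3 ^ N = - κ * QN N := by
      rw [eval_eq_sum_range' hth, sum_range_three, Finset.sum_mul]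
      have : ∀ i ∈ Finset.range (N + 1),
          ((X * derivative (Ft ω n P)).coeff (3 * i) * (-1) ^ (3 * i) +
            (X * derivative (Ft ω n P)).coeff (3 * i + 1) * (-1) ^ (3 * i + 1) +
            (X * derivative (Ft ω n P)).coeff (3 * i + 2) * (-1) ^ (3 * i + 2)) * 3 ^ N =
          κ * ((-1) ^ i * (3 * i + 1) * tm (N - i) i) +
            κ * ((-1) ^ i * (3 * i + 2) * tm i (N - i)) := by
        intro i hi
        have h1 := k1 i hi
        have h2 := k2 i hi
        rw [coeff_theta, coeff_theta, coeff_theta, hc0]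
        have h4 : ((-1 : ℂ)) ^ (3 * i) = (-1) ^ i := by
          rw [pow_mul]; norm_num
        rw [pow_add _ _ 2, pow_succ, h4]
        push_cast
        linear_combination (-(-1) ^ i * (3 * (i : ℂ) + 1)) * h1 +
          ((-1) ^ i * (3 * (i : ℂ) + 2)) * h2
      rw [Finset.sum_congr rfl this, Finset.sum_add_distrib, ← Finset.mul_sum, ← Finset.mul_sum]
      have hr2 : ∑ i ∈ Finset.range (N + 1), ((-1 : ℂ) ^ i * (3 * i + 1) * tm (N - i) i) =
          ∑ i ∈ Finset.range (N + 1), -((-1 : ℂ) ^ i * (3 * (N - i) + 1) * tm i (N - i)) := by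
        rw [← Finset.sum_range_reflect]
        refine Finset.sum_congr rfl fun i hi => ?_
        rw [Finset.mem_range] at hi
        have h5 : N + 1 - 1 - i = N - i := by omega
        have h6 : N - (N - i) = i := by omega
        rw [h5, h6]
        have h7 : ((-1 : ℂ)) ^ (N - i) = - (-1) ^ i := by
          have : ((-1 : ℂ)) ^ (N - i) * (-1) ^ i = -1 := by
            rw [← pow_add, show N - i + i = N by omega, hodd]
          have h8 : ((-1 : ℂ)) ^ i * (-1) ^ i = 1 := by rw [← mul_pow]; norm_num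
          linear_combination (-1) ^ i * this - (-1) ^ (N - i) * h8
        rw [h7, Nat.cast_sub (by omega)]
        ring
      rw [hr2, QN, ← mul_add, ← Finset.sum_add_distrib, neg_mul, ← mul_neg,
        ← Finset.sum_neg_distrib]
      congr 1
      refine Finset.sum_congr rfl fun i _ => ?_
      ring
    have e2 : (X * derivative (Ft ω n P)).eval (-1) = - (2 ^ (4 * n + 3) * P.eval 2) := by
      have hsplit : Ft ω n P = (X + 1) * (X * (X - 1) ^ (4 * n + 3) * Yh ω n P) := by
        rw [Ft]; ring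
      rw [hsplit, derivative_mul]
      simp only [eval_mul, eval_add, eval_X, eval_one, derivative_add, derivative_X,
        derivative_one, eval_sub, eval_pow, add_zero, one_mul]
      have hvm : -ω * (ω * (-1) - 1) = -1 := by linear_combination hω
      have hv : -ω * (ω * (-1) - 1) ≠ 0 := by rw [hvm]; norm_num
      rw [Yh_eval ω n P hP (-1) hv, hvm]
      have h9 : ((-1 : ℂ) - 1) / (-1) = 2 := by norm_num
      have h10 : ((-1 : ℂ)) ^ (2 * n) = 1 := by rw [pow_mul]; norm_num
      have h11 : ((-1 : ℂ) - 1) ^ (4 * n + 3) = - 2 ^ (4 * n + 3) := by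
        have : ((-1 : ℂ) - 1) = (-1) * 2 := by norm_num
        rw [this, mul_pow]
        have : ((-1 : ℂ)) ^ (4 * n + 3) = -1 := by
          rw [show 4 * n + 3 = 2 * (2 * n + 1) + 1 by ring, pow_succ, pow_mul]
          norm_num
        rw [this]
        ring
      rw [h9, h10, h11]
      ring
    rw [e2] at e1
    linear_combination -e1

end Pool.Agent.K7.H27.OS
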